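import Mathlib
import Pool.Graph.R_pool_sql_team_seeded_3997aac3.Q204.UF.Aff

set_option autoImplicit false
set_option linter.unusedSectionVars false

/-!
# Points with coordinates in a group of finite rank on closed subsets of the torus
-/

namespace Pool.Agent.H594.ML

open Finset MvPolynomial
open Pool.Agent.Helper259.AbsHt Pool.Agent.Y215.SK
open Pool.Agent.Y215.AF Pool.Agent.W235.RM Pool.Agent.Y215.SP
open Pool.Agent.Q204.UF Pool.Agent.Q51.UF Pool.Agent.H533R3.SL

variable {n q : ℕ}

/-- the diagonal vectors -/
noncomputable def dia (u : Fin n → Qbar) : Fin n → Fin n → Qbar := fun j a => if j = a then u a else 0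

theorem dia_sum (u : Fin n → Qbar) (c : Fin n → Qbar) (a : Fin n) :
    ∑ j, c j * dia u j a = c a * u a := by
  unfold dia
  rw [Finset.sum_eq_single a]
  · rw [if_pos rfl]
  · intro b _ hb
    rw [if_neg hb, mul_zero]
  · intro h
    exact absurd (Finset.mem_univ a) h

theorem dia_sum1 (u : Fin n → Qbar) (a : Fin n) : ∑ j, dia u j a = u a := by
  have := dia_sum u (fun _ => 1) a
  simpa using this

/-- the points with coordinates in the division hull of `Γ` on `F = 0` such that no translate of a
one-dimensional subtorus through the point is contained in `F = 0` -/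
def torP (F : Fin q → MvPolynomial (Fin n) Qbar) (Γ : Subgroup Qbarˣ) : Set (Fin n → Qbar) :=
  {x | (∀ i, aeval x (F i) = 0) ∧ (∃ u : Fin n → Qbarˣ, (∀ j, u j ∈ DivHull Γ) ∧
    ∀ j, x j = u j) ∧
    ∀ m : Fin n → ℤ, m ≠ 0 → ∃ t : Qbar, t ≠ 0 ∧ ∃ i, aeval (fun j => t ^ m j * x j) (F i) ≠ 0}

theorem torP_finite (F : Fin q → MvPolynomial (Fin n) Qbar) (Γ : Subgroup Qbarˣ) (hΓ : Γ.FG) :
    (torP F Γ).Finite := by
  classical
  obtain ⟨D, hD, hF⟩ : ∃ D : ℕ, 1 ≤ D ∧ ∀ i, (F i).totalDegree ≤ D :=
    ⟨1 + ∑ i, (F i).totalDegree, by omega, fun i => by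
      have := Finset.single_le_sum (f := fun i => (F i).totalDegree)
        (fun _ _ => Nat.zero_le _) (Finset.mem_univ i)
      omega⟩
  obtain ⟨B, e, hB0, hB⟩ := gen_near (n := n) (r := n + 1) (fun _ : Fin q => D) D hD
    (fun _ => le_rfl) Γ hΓ
  obtain ⟨hfin, -⟩ := hB (fun i => hmg D (F i)) (homV (dia (fun _ => (1 : Qbar))))
    (fun i => hmg_homog D _ (hF i))
  let θ : (Fin n → Qbar) → Projectivization Qbar (Fin (n + 1) → Qbar) := fun x =>
    Projectivization.mk Qbar (Fin.cons 1 x : Fin (n + 1) → Qbar) (cons_one_ne x)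
  have hmaps : ∀ x ∈ torP F Γ,
      θ x ∈ nearP (fun i => hmg D (F i)) Γ (epsn ((D + 1) ^ (n + 1)) / D / 2)
        (homV (dia (fun _ => (1 : Qbar)))) := by
    rintro x ⟨hxF, ⟨u, hu, hx⟩, hno⟩
    have e3 : Y215.SK.psum Finset.univ (homU u) (fun j i =>
        (1 : Qbar) * homV (dia (fun _ => (1 : Qbar))) j i) =
        (Fin.cons 1 x : Fin (n + 1) → Qbar) := by
      funext i
      unfold Y215.SK.psum
      rw [Fin.sum_univ_succ]
      refine Fin.cases ?_ (fun i => ?_) i
      · simp [homU, homV]
      · simp only [homU, homV, Fin.cons_zero, Fin.cons_succ, mul_zero, zero_add, one_mul]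
        rw [dia_sum (fun _ => (1 : Qbar)) (fun j => (u j : Qbar)) i, mul_one]
        exact (hx i).symm
    have e4 : tw (homU u) (fun j i => (1 : Qbar) * homV (dia (fun _ => (1 : Qbar))) j i) =
        homC (dia x) := by
      funext j i
      unfold tw homC homU homV
      refine Fin.cases ?_ (fun j => ?_) j
      · refine Fin.cases ?_ (fun i => ?_) i <;> simp
      · refine Fin.cases ?_ (fun i => ?_) i
        · simp
        · simp only [Fin.cons_succ, one_mul]
          unfold dia
          by_cases h : j = i
          · subst h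
            simp [hx]
          · simp [h]
    refine ⟨homU u, fun _ => (1 : Qbar), homU_hull Γ u hu, ?_, ?_, ?_, ?_, ?_⟩
    · have h1 : absLogHeight (fun _ : Fin (n + 1) => (1 : Qbar)) ≤ 0 := by
        have h2 := cons_le_hA (fun _ : Fin n => (1 : Qbar))
        rw [hA_zero_one _ (fun _ => Or.inr rfl)] at h2
        have h3 : (Fin.cons 1 (fun _ : Fin n => (1 : Qbar)) : Fin (n + 1) → Qbar) =
            fun _ => 1 := by
          funext i
          refine Fin.cases ?_ (fun i => ?_) i
          · rfl
          · rfl
        rwa [h3] at h2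
      refine lt_of_le_of_lt h1 ?_
      have := epsn_pos ((D + 1) ^ (n + 1)) (Nat.one_le_pow _ _ (by omega))
      have hDp : (0 : ℝ) < D := by exact_mod_cast hD
      positivity
    · intro i
      rw [e3, cons_homA D _ (hF i)]
      exact hxF i
    · refine noCur_of_bounded _ D hD (fun i => ⟨D, le_rfl, hmg_homog D _ (hF i)⟩) _
        fun J l hl hJ hcur => ?_
      rw [e4] at hJ hcur
      obtain ⟨c, hc0, hc⟩ := hJ
      -- the first coordinate
      have hsum := homC_sum (dia x)
      have h0 := hc 0
      have hs0 : ∑ j, homC (dia x) j 0 = 1 := by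
        have := congrFun hsum 0
        simpa using this
      rw [hs0, mul_one] at h0
      have hcoord : ∀ j : Fin (n + 1), homC (dia x) j (0 : Fin (n + 1)) =
          if j = 0 then 1 else 0 := by
        intro j
        unfold homC
        refine Fin.cases ?_ (fun j => ?_) j
        · simp
        · simp
      simp_rw [hcoord] at h0
      rw [Finset.sum_ite_eq'] at h0
      have hJ0 : (0 : Fin (n + 1)) ∈ J := by
        by_contra h
        rw [if_neg h] at h0
        exact hc0 h0.symm
      rw [if_pos hJ0] at h0
      subst h0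
      -- the other coordinates
      have hx0 : ∀ a, x a ≠ 0 := fun a => by rw [hx a]; exact (u a).ne_zero
      have hcoord2 : ∀ (a : Fin n) (j : Fin (n + 1)), homC (dia x) j a.succ =
          if j = a.succ then x a else 0 := by
        intro a j
        unfold homC dia
        refine Fin.cases ?_ (fun j => ?_) j
        · simp [(Fin.succ_ne_zero a).symm]
        · simp
      have hJa : ∀ a : Fin n, a.succ ∈ J := by
        intro a
        have h1 := hc a.succ
        simp_rw [hcoord2] at h1
        rw [Finset.sum_ite_eq', Finset.sum_ite_eq', if_pos (Finset.mem_univ _), one_mul] at h1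
        by_contra h
        rw [if_neg h] at h1
        exact hx0 a h1.symm
      have hJall : ∀ j : Fin (n + 1), j ∈ J := by
        intro j
        refine Fin.cases hJ0 (fun a => hJa a) j
      have e5 : (fun j a => if j ∈ J then homC (dia x) j a else 0 :
          Fin (n + 1) → Fin (n + 1) → Qbar) = homC (dia x) := by
        funext j a
        rw [if_pos (hJall j)]
      rw [e5] at hcur
      obtain ⟨m, -, hm1, t, ht, hm2⟩ := lcurve_of_curve D F hF _ l _ hl hcur
      have hm0 : m ≠ 0 := by
        rintro rfl
        apply hm2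
        simp
      obtain ⟨t', ht', i, hti⟩ := hno m hm0
      apply hti
      have h9 := hm1 t' ht' i
      simp_rw [dia_sum] at h9
      exact h9
    · rw [e3]
      exact cons_one_ne x
    · show Projectivization.mk Qbar (Fin.cons 1 x : Fin (n + 1) → Qbar) (cons_one_ne x) = _
      congr 1
      exact e3.symm
  have hinj : Set.InjOn θ (torP F Γ) := by
    intro x _ y _ hxy
    obtain ⟨c, hc⟩ := (Projectivization.mk_eq_mk_iff' Qbar _ _ (cons_one_ne x)
      (cons_one_ne y)).1 hxy
    have h0 := congrFun hc 0
    rw [Pi.smul_apply, Fin.cons_zero, Fin.cons_zero, smul_eq_mul, mul_one] at h0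
    rw [h0, one_smul] at hc
    funext i
    have := congrFun hc i.succ
    rw [Fin.cons_succ, Fin.cons_succ] at this
    exact this.symm
  exact Set.Finite.of_injOn hmaps hinj hfin

end Pool.Agent.H594.ML
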