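import Mathlib
import Pool.Agent.H594.ML.Torus

set_option autoImplicit false
set_option linter.unusedSectionVars false

/-!
# Points with coordinates in a group of finite rank on closed subsets of the complex torus
-/

namespace Pool.Agent.H594.ML

open Finset MvPolynomial
open Pool.Agent.Helper259.AbsHt Pool.Agent.Y215.SK

theorem qbar_alg : Algebra.IsAlgebraic ℚ Qbar := AlgebraicClosure.isAlgebraic ℚ

/-- an embedding of the algebraic numbers in the complex numbers -/
noncomputable def sgA : Qbar →ₐ[ℚ] ℂ :=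
  haveI := qbar_alg
  IsAlgClosed.lift

/-- an embedding of the algebraic numbers in the complex numbers -/
noncomputable def sg : Qbar →+* ℂ := sgA.toRingHom

theorem sg_inj : Function.Injective sg := sg.injective

theorem sg_alg (x : Qbar) : IsAlgebraic ℚ (sg x) := by
  have h : IsAlgebraic ℚ x := qbar_alg.isAlgebraic x
  exact h.algHom sgA

theorem sg_rat (q : ℚ) : sg (algebraMap ℚ Qbar q) = algebraMap ℚ ℂ q := sgA.commutes q

theorem exists_sg {z : ℂ} (hz : IsAlgebraic ℚ z) : ∃ x, sg x = z := by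
  let _ : Algebra Qbar ℂ := sg.toAlgebra
  have hint : IsIntegral Qbar z := by
    have h1 : IsIntegral ℚ z := hz.isIntegral
    obtain ⟨p, hp1, hp2⟩ := h1
    refine ⟨p.map (algebraMap ℚ Qbar), hp1.map _, ?_⟩
    rw [Polynomial.eval₂_map]
    have h2 : (algebraMap Qbar ℂ).comp (algebraMap ℚ Qbar) = algebraMap ℚ ℂ := by
      refine RingHom.ext fun q => ?_
      exact sg_rat q
    rw [h2]
    exact hp2
  have h3 := IsAlgClosed.degree_eq_one_of_irreducible Qbar (minpoly.irreducible hint)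
  obtain ⟨x, hx⟩ := minpoly.mem_range_of_degree_eq_one Qbar z h3
  exact ⟨x, hx⟩

variable {n : ℕ}

theorem aev (x : Fin n → Qbar) (F : MvPolynomial (Fin n) Qbar) : aeval x F = eval x F := by
  rw [aeval_eq_eval₂Hom]
  rfl

/-- a functional applied to the coefficients -/
noncomputable def cfun (φ : ℂ →+ Qbar) (F : MvPolynomial (Fin n) ℂ) :
    MvPolynomial (Fin n) Qbar :=
  ∑ α ∈ F.support, monomial α (φ (coeff α F))

theorem eval_cfun (φ : ℂ →+ Qbar) (hφ : ∀ (a : Qbar) (z : ℂ), φ (sg a * z) = a * φ z)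
    (F : MvPolynomial (Fin n) ℂ) (x : Fin n → Qbar) :
    eval x (cfun φ F) = φ (eval (fun j => sg (x j)) F) := by
  classical
  unfold cfun
  rw [map_sum, MvPolynomial.eval_eq, map_sum]
  refine Finset.sum_congr rfl fun α _ => ?_
  rw [eval_monomial]
  have h1 : (∏ i ∈ α.support, sg (x i) ^ α i) = sg (∏ i ∈ α.support, x i ^ α i) := by
    rw [map_prod]
    exact Finset.prod_congr rfl fun i _ => (map_pow _ _ _).symm
  rw [h1, mul_comm (coeff α F), hφ, mul_comm]
  rfl

/-- there is a functional which does not vanish at a given nonzero number -/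
theorem exists_fun {z : ℂ} (hz : z ≠ 0) : ∃ φ : ℂ →+ Qbar,
    (∀ (a : Qbar) (w : ℂ), φ (sg a * w) = a * φ w) ∧ φ z ≠ 0 := by
  let _ : Algebra Qbar ℂ := sg.toAlgebra
  obtain ⟨f, hf⟩ := Module.Projective.exists_dual_ne_zero Qbar hz
  refine ⟨f.toAddMonoidHom, fun a w => ?_, hf⟩
  have h1 : sg a * w = a • w := rfl
  rw [h1]
  exact map_smul f a w

theorem eval_zero_iff (F : MvPolynomial (Fin n) ℂ) (x : Fin n → Qbar) :
    eval (fun j => sg (x j)) F = 0 ↔ ∀ φ : ℂ →+ Qbar,
      (∀ (a : Qbar) (w : ℂ), φ (sg a * w) = a * φ w) → eval x (cfun φ F) = 0 := by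
  constructor
  · intro h φ hφ
    rw [eval_cfun φ hφ, h, map_zero]
  · intro h
    by_contra h0
    obtain ⟨φ, hφ, hne⟩ := exists_fun h0
    exact hne (by rw [← eval_cfun φ hφ]; exact h φ hφ)

theorem zpow_sum₀ {K ι : Type*} [Field K] {t : K} (ht : t ≠ 0) (s : Finset ι) (f : ι → ℤ) :
    t ^ (∑ i ∈ s, f i) = ∏ i ∈ s, t ^ f i := by
  classical
  induction s using Finset.induction_on with
  | empty => simp
  | insert a s ha ih => rw [Finset.sum_insert ha, Finset.prod_insert ha, zpow_add₀ ht, ih]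

/-- a Laurent polynomial which vanishes at all algebraic numbers vanishes -/
theorem laurent_zero (F : MvPolynomial (Fin n) ℂ) (m : Fin n → ℤ) (x : Fin n → ℂ)
    (h : ∀ t : Qbar, t ≠ 0 → eval (fun j => sg t ^ m j * x j) F = 0) (t : ℂ) (ht : t ≠ 0) :
    eval (fun j => t ^ m j * x j) F = 0 := by
  classical
  -- exponents
  let e : (Fin n →₀ ℕ) → ℤ := fun α => ∑ j, m j * α j
  obtain ⟨N, hN⟩ : ∃ N : ℤ, ∀ α ∈ F.support, 0 ≤ N + e α := by
    refine ⟨∑ α ∈ F.support, |e α|, fun α hα => ?_⟩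
    have h1 : |e α| ≤ ∑ α ∈ F.support, |e α| :=
      Finset.single_le_sum (f := fun α => |e α|) (fun _ _ => abs_nonneg _) hα
    have h2 := neg_abs_le (e α)
    linarith
  let p : Polynomial ℂ := ∑ α ∈ F.support,
    Polynomial.C (coeff α F * ∏ j, x j ^ α j) * Polynomial.X ^ (N + e α).toNat
  have hp : ∀ t : ℂ, t ≠ 0 → p.eval t = t ^ N * eval (fun j => t ^ m j * x j) F := by
    intro t ht
    rw [MvPolynomial.eval_eq', Finset.mul_sum]
    show (∑ α ∈ F.support, _ : Polynomial ℂ).eval t = _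
    rw [Polynomial.eval_finsetSum]
    refine Finset.sum_congr rfl fun α hα => ?_
    rw [Polynomial.eval_mul, Polynomial.eval_C, Polynomial.eval_pow, Polynomial.eval_X]
    have h1 : t ^ (N + e α).toNat = t ^ N * ∏ j, (t ^ m j) ^ α j := by
      rw [← zpow_natCast, Int.toNat_of_nonneg (hN α hα), zpow_add₀ ht]
      congr 1
      show t ^ (∑ j, m j * (α j : ℤ)) = _
      rw [zpow_sum₀ ht]
      refine Finset.prod_congr rfl fun j _ => ?_
      rw [zpow_mul, zpow_natCast]
    rw [h1]
    simp_rw [mul_pow]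
    rw [Finset.prod_mul_distrib]
    ring
  have hp0 : p = 0 := by
    refine Polynomial.eq_zero_of_infinite_isRoot p ?_
    have h1 : Set.Infinite (Set.range fun k : ℕ => ((k + 1 : ℕ) : ℂ)) := by
      refine Set.infinite_range_of_injective fun a b hab => ?_
      have : ((a + 1 : ℕ) : ℂ) = ((b + 1 : ℕ) : ℂ) := hab
      have h2 := Nat.cast_injective this
      omega
    refine h1.mono ?_
    rintro _ ⟨k, rfl⟩
    show p.eval _ = 0
    have h2 : ((k + 1 : ℕ) : ℂ) ≠ 0 := Nat.cast_ne_zero.2 (by omega)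
    have h3 : sg ((k + 1 : ℕ) : Qbar) = ((k + 1 : ℕ) : ℂ) := map_natCast sg _
    simp only
    rw [hp _ h2, ← h3, h _ (Nat.cast_ne_zero.2 (by omega)), mul_zero]
  have h1 := hp t ht
  rw [hp0, Polynomial.eval_zero] at h1
  exact (mul_eq_zero.1 h1.symm).resolve_left (zpow_ne_zero _ ht)

/-- the points of the closed subset `S` of the torus with coordinates in the division hull of `Γ`
such that no translate of a one-dimensional subtorus through the point is contained in `S` -/
def torC (S : Set (MvPolynomial (Fin n) ℂ)) (Γ : Subgroup Qbarˣ) : Set (Fin n → ℂ) :=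
  {x | (∀ F ∈ S, eval x F = 0) ∧ (∀ j, ∃ u ∈ DivHull Γ, x j = sg u) ∧
    ∀ m : Fin n → ℤ, m ≠ 0 → ∃ t : ℂ, t ≠ 0 ∧ ∃ F ∈ S, eval (fun j => t ^ m j * x j) F ≠ 0}

/-- **Mordell-Lang for closed subsets of tori: the isolated points.** -/
theorem torC_finite (S : Set (MvPolynomial (Fin n) ℂ)) (Γ : Subgroup Qbarˣ) (hΓ : Γ.FG) :
    (torC S Γ).Finite := by
  classical
  let T : Set (MvPolynomial (Fin n) Qbar) := {G | ∃ F ∈ S, ∃ φ : ℂ →+ Qbar,
    (∀ (a : Qbar) (w : ℂ), φ (sg a * w) = a * φ w) ∧ G = cfun φ F}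
  have hzero : ∀ x : Fin n → Qbar, (∀ F ∈ S, eval (fun j => sg (x j)) F = 0) ↔
      ∀ G ∈ Ideal.span T, eval x G = 0 := by
    intro x
    constructor
    · intro h G hG
      have h1 : Ideal.span T ≤ RingHom.ker (eval x) := by
        rw [Ideal.span_le]
        rintro _ ⟨F, hF, φ, hφ, rfl⟩
        exact (eval_zero_iff F x).1 (h F hF) φ hφ
      exact h1 hG
    · intro h F hF
      rw [eval_zero_iff]
      intro φ hφ
      exact h _ (Ideal.subset_span ⟨F, hF, φ, hφ, rfl⟩)
  obtain ⟨T', hT'⟩ : (Ideal.span T).FG := IsNoetherian.noetherian _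
  let F' : Fin T'.card → MvPolynomial (Fin n) Qbar := fun i => (T'.equivFin.symm i : _)
  have hF' : ∀ x : Fin n → Qbar, (∀ F ∈ S, eval (fun j => sg (x j)) F = 0) ↔
      ∀ i, aeval x (F' i) = 0 := by
    intro x
    rw [hzero x]
    constructor
    · intro h i
      rw [aev]
      refine h _ ?_
      rw [← hT']
      exact Ideal.subset_span (T'.equivFin.symm i).2
    · intro h G hG
      rw [← hT'] at hG
      have h1 : Ideal.span (T' : Set (MvPolynomial (Fin n) Qbar)) ≤ RingHom.ker (eval x) := by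
        rw [Ideal.span_le]
        intro G hG
        have h2 := h (T'.equivFin ⟨G, hG⟩)
        rw [aev] at h2
        have h3 : F' (T'.equivFin ⟨G, hG⟩) = G := by
          show ((T'.equivFin.symm (T'.equivFin ⟨G, hG⟩) : _) : MvPolynomial (Fin n) Qbar) = G
          rw [Equiv.symm_apply_apply]
        rw [h3] at h2
        exact h2
      exact h1 hG
  refine ((torP_finite F' Γ hΓ).image (fun x j => sg (x j))).subset ?_
  rintro x ⟨h1, h2, h3⟩
  choose u hu hxu using h2
  have hx : x = fun j => sg (u j) := funext hxu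
  refine ⟨fun j => (u j : Qbar), ⟨?_, ⟨u, hu, fun _ => rfl⟩, fun m hm => ?_⟩, hx.symm⟩
  · rw [← hF']
    rw [hx] at h1
    exact h1
  · by_contra hcon
    push Not at hcon
    obtain ⟨t, ht, F, hF, hne⟩ := h3 m hm
    apply hne
    refine laurent_zero F m x (fun s hs => ?_) t ht
    have h4 := (hF' (fun j => s ^ m j * (u j : Qbar))).2 (hcon s hs) F hF
    have h5 : (fun j => sg (s ^ m j * (u j : Qbar))) = fun j => sg s ^ m j * x j := by
      funext j
      rw [map_mul, map_zpow₀, hxu]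
    rw [h5] at h4
    exact h4

end Pool.Agent.H594.ML
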