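import Mathlib
import Pool.Agent.H594.ML.Cplx

set_option autoImplicit false
set_option linter.unusedSectionVars false

/-!
# Logarithms of algebraic numbers which span a space of finite dimension over the rational numbers
-/

namespace Pool.Agent.H594.ML

open Finset
open Pool.Agent.Helper259.AbsHt Pool.Agent.Y215.SK

/-- the unit of `Qbar` over a nonzero algebraic number -/
theorem exists_unit {z : ℂ} (hz : IsAlgebraic ℚ z) (h0 : z ≠ 0) : ∃ u : Qbarˣ, z = sg u := by
  obtain ⟨x, hx⟩ := exists_sg hz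
  have hx0 : x ≠ 0 := by
    rintro rfl
    apply h0
    rw [← hx, map_zero]
  exact ⟨Units.mk0 x hx0, hx.symm⟩

theorem sgu_inj {u v : Qbarˣ} (h : sg u = sg v) : u = v := Units.ext (sg_inj h)

/-- the exponentials of a combination with integral coefficients -/
theorem exp_comb {ι : Type*} (s : Finset ι) (b : ι → ℂ) (k : ι → ℤ) :
    Complex.exp (∑ i ∈ s, (k i : ℂ) * b i) = ∏ i ∈ s, Complex.exp (b i) ^ k i := by
  rw [Complex.exp_sum]
  exact Finset.prod_congr rfl fun i _ => Complex.exp_int_mul _ _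

theorem span_hull {Γ : Subgroup Qbarˣ} {b : Set ℂ}
    (hb : ∀ x ∈ b, ∃ u ∈ Γ, Complex.exp x = sg u) {l : ℂ} (hl : l ∈ Submodule.span ℚ b) :
    ∃ k : ℕ, 0 < k ∧ ∃ g ∈ Γ, Complex.exp (k * l) = sg g := by
  induction hl using Submodule.span_induction with
  | mem x hx =>
    obtain ⟨u, hu, he⟩ := hb x hx
    exact ⟨1, one_pos, u, hu, by rw [Nat.cast_one, one_mul]; exact he⟩
  | zero => exact ⟨1, one_pos, 1, Γ.one_mem, by simp⟩
  | add x y _ _ hx hy =>
    obtain ⟨k, hk, g, hg, he⟩ := hx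
    obtain ⟨k', hk', g', hg', he'⟩ := hy
    refine ⟨k * k', Nat.mul_pos hk hk', g ^ k' * g' ^ k,
      Γ.mul_mem (Γ.pow_mem hg _) (Γ.pow_mem hg' _), ?_⟩
    have h1 : ((k * k' : ℕ) : ℂ) * (x + y) = (k' : ℂ) * (k * x) + (k : ℂ) * (k' * y) := by
      push_cast
      ring
    rw [h1, Complex.exp_add, Complex.exp_nat_mul, Complex.exp_nat_mul (k' * y), he, he',
      Units.val_mul, Units.val_pow_eq_pow_val, Units.val_pow_eq_pow_val, map_mul, map_pow,
      map_pow]
  | smul q x _ hx =>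
    obtain ⟨k, hk, g, hg, he⟩ := hx
    refine ⟨k * q.den, Nat.mul_pos hk q.den_pos, g ^ q.num, Γ.zpow_mem hg _, ?_⟩
    have h1 : ((k * q.den : ℕ) : ℂ) * (q • x) = (q.num : ℂ) * (k * x) := by
      have h2 : (q.den : ℂ) ≠ 0 := Nat.cast_ne_zero.2 q.den_pos.ne'
      have h3 : q • x = (q : ℂ) * x := Rat.smul_def q x
      rw [h3, Rat.cast_def q]
      push_cast
      field_simp
    rw [h1, Complex.exp_int_mul, he, Units.val_zpow_eq_zpow_val, map_zpow₀]

theorem exists_hull (Λ : Set ℂ) (hΛ : ∀ l ∈ Λ, IsAlgebraic ℚ (Complex.exp l)) (M : ℕ)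
    (hM : ∀ (m : ℕ) (l : Fin m → ℂ), (∀ i, l i ∈ Λ) → LinearIndependent ℚ l → m ≤ M) :
    ∃ Γ : Subgroup Qbarˣ, Γ.FG ∧ ∀ l ∈ Λ, ∃ u ∈ DivHull Γ, Complex.exp l = sg u := by
  classical
  obtain ⟨b, hb1, hb2, hb3⟩ := exists_linearIndependent ℚ Λ
  have hbfin : b.Finite := by
    by_contra hinf
    obtain ⟨f, hf⟩ := Set.Infinite.exists_subset_card_eq hinf (M + 1)
    have h1 := hM (M + 1) (fun i => ((f.equivFin.symm (Fin.cast hf.2.symm i) : f) : ℂ))
      (fun i => hb1 (hf.1 (f.equivFin.symm (Fin.cast hf.2.symm i)).2)) (by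
        have h2 : LinearIndependent ℚ (fun x : f => (x : ℂ)) := by
          have h3 := hb3.comp (fun x : f => (⟨x, hf.1 x.2⟩ : b)) (by
            intro x y hxy
            have := congrArg (fun z : b => (z : ℂ)) hxy
            exact Subtype.ext this)
          exact h3
        exact h2.comp _ (f.equivFin.symm.injective.comp (Fin.cast_injective _)))
    omega
  -- the units
  have hunit : ∀ x : ℂ, ∃ u : Qbarˣ, x ∈ b → Complex.exp x = sg u := by
    intro x
    by_cases hx : x ∈ b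
    · obtain ⟨u, hu⟩ := exists_unit (hΛ x (hb1 hx)) (Complex.exp_ne_zero x)
      exact ⟨u, fun _ => hu⟩
    · exact ⟨1, fun h => absurd h hx⟩
  choose U hU using hunit
  let Γ : Subgroup Qbarˣ := Subgroup.closure (U '' b)
  refine ⟨Γ, (Subgroup.fg_iff _).2 ⟨U '' b, rfl, hbfin.image U⟩, fun l hl => ?_⟩
  obtain ⟨u, hu⟩ := exists_unit (hΛ l hl) (Complex.exp_ne_zero l)
  refine ⟨u, ?_, hu⟩
  have hspan : l ∈ Submodule.span ℚ b := by
    rw [hb2]
    exact Submodule.subset_span hl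
  obtain ⟨k, hk, g, hg, he⟩ := span_hull (Γ := Γ) (b := b) (fun x hx =>
    ⟨U x, Subgroup.subset_closure ⟨x, hx, rfl⟩, hU x hx⟩) hspan
  refine ⟨k, hk, ?_⟩
  have h1 : u ^ k = g := by
    apply sgu_inj
    rw [← he, Units.val_pow_eq_pow_val, map_pow, ← hu, ← Complex.exp_nat_mul]
  rw [h1]
  exact hg

end Pool.Agent.H594.ML
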