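import Mathlib
import Pool.Agent.H594.ML.Hull

set_option autoImplicit false
set_option linter.unusedSectionVars false

/-!
# Values of two rational functions in a group of finite rank
-/

namespace Pool.Agent.H594.ML

open Finset MvPolynomial
open Pool.Agent.Helper259.AbsHt Pool.Agent.Y215.SK

/-- a function on the complement of the zeros of `s` which becomes a polynomial after
multiplication by a power of `s` -/
def PolyLike (s : Polynomial ℂ) (h : ℂ → ℂ) : Prop :=
  ∃ (H : Polynomial ℂ) (N : ℕ), ∀ z, s.eval z ≠ 0 → H.eval z = s.eval z ^ N * h z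

theorem PolyLike.const (s : Polynomial ℂ) (c : ℂ) : PolyLike s (fun _ => c) :=
  ⟨Polynomial.C c, 0, fun z _ => by simp⟩

theorem PolyLike.add {s : Polynomial ℂ} {h k : ℂ → ℂ} (hh : PolyLike s h) (hk : PolyLike s k) :
    PolyLike s (fun z => h z + k z) := by
  obtain ⟨H, N, hH⟩ := hh
  obtain ⟨K, M, hK⟩ := hk
  refine ⟨s ^ M * H + s ^ N * K, N + M, fun z hz => ?_⟩
  rw [Polynomial.eval_add, Polynomial.eval_mul, Polynomial.eval_mul, Polynomial.eval_pow,
    Polynomial.eval_pow, hH z hz, hK z hz]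
  ring

theorem PolyLike.mul {s : Polynomial ℂ} {h k : ℂ → ℂ} (hh : PolyLike s h) (hk : PolyLike s k) :
    PolyLike s (fun z => h z * k z) := by
  obtain ⟨H, N, hH⟩ := hh
  obtain ⟨K, M, hK⟩ := hk
  refine ⟨H * K, N + M, fun z hz => ?_⟩
  rw [Polynomial.eval_mul, hH z hz, hK z hz]
  ring

theorem PolyLike.quot {s : Polynomial ℂ} (p q : Polynomial ℂ) (hq : q ∣ s) :
    PolyLike s (fun z => p.eval z / q.eval z) := by
  obtain ⟨w, rfl⟩ := hq
  refine ⟨p * w, 1, fun z hz => ?_⟩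
  rw [Polynomial.eval_mul] at hz
  have h1 := left_ne_zero_of_mul hz
  rw [Polynomial.eval_mul, Polynomial.eval_mul]
  field_simp

theorem PolyLike.mv {s : Polynomial ℂ} {n : ℕ} {f : Fin n → ℂ → ℂ} (hf : ∀ j, PolyLike s (f j))
    (F : MvPolynomial (Fin n) ℂ) : PolyLike s (fun z => eval (fun j => f j z) F) := by
  induction F using MvPolynomial.induction_on with
  | C a => simpa using PolyLike.const s a
  | add p q hp hq => simpa using hp.add hq
  | mul_X p i hp => simpa using hp.mul (hf i)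

/-- a function of this kind with infinitely many zeros is zero -/
theorem PolyLike.zero {s : Polynomial ℂ} {h : ℂ → ℂ} (hh : PolyLike s h)
    (hinf : {z | s.eval z ≠ 0 ∧ h z = 0}.Infinite) (z : ℂ) (hz : s.eval z ≠ 0) : h z = 0 := by
  obtain ⟨H, N, hH⟩ := hh
  have h0 : H = 0 := by
    refine Polynomial.eq_zero_of_infinite_isRoot H (hinf.mono ?_)
    rintro w ⟨hw1, hw2⟩
    show H.eval w = 0
    rw [hH w hw1, hw2, mul_zero]
  have h1 := hH z hz
  rw [h0, Polynomial.eval_zero] at h1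
  exact (mul_eq_zero.1 h1.symm).resolve_left (pow_ne_zero _ hz)

/-- the complement of the zeros of `s` is cofinite -/
theorem nz_cofinite {s : Polynomial ℂ} (hs : s ≠ 0) : {z : ℂ | ¬ s.eval z ≠ 0}.Finite := by
  refine (s.roots.toFinset.finite_toSet).subset ?_
  intro z hz
  have hz' : s.eval z = 0 := not_not.1 hz
  simp [hs, hz']

/-- two functions of this kind are algebraically dependent -/
theorem dependent {s : Polynomial ℂ} {f h : ℂ → ℂ} (hf : PolyLike s f) (hh : PolyLike s h) :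
    ∃ (K : ℕ) (c : Fin (K + 1) × Fin (K + 1) → ℂ), c ≠ 0 ∧ ∀ z, s.eval z ≠ 0 →
      ∑ p, c p * f z ^ (p.1 : ℕ) * h z ^ (p.2 : ℕ) = 0 := by
  obtain ⟨F, N, hF⟩ := hf
  obtain ⟨H, M, hH⟩ := hh
  obtain ⟨d, hd⟩ : ∃ d : ℕ, d = (s ^ M * F).natDegree + (s ^ N * H).natDegree +
    (s ^ (N + M)).natDegree + 1 := ⟨_, rfl⟩
  let K := 2 * d
  let P : Fin (K + 1) × Fin (K + 1) → Polynomial ℂ := fun p =>
    (s ^ M * F) ^ (p.1 : ℕ) * (s ^ N * H) ^ (p.2 : ℕ) * (s ^ (N + M)) ^ (2 * K - p.1 - p.2)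
  have hdeg : ∀ p, (P p).natDegree ≤ 2 * K * d := by
    intro p
    have h1 : ((s ^ M * F) ^ (p.1 : ℕ)).natDegree ≤ p.1 * d := by
      rw [Polynomial.natDegree_pow]
      exact Nat.mul_le_mul_left _ (by omega)
    have h2 : ((s ^ N * H) ^ (p.2 : ℕ)).natDegree ≤ p.2 * d := by
      rw [Polynomial.natDegree_pow]
      exact Nat.mul_le_mul_left _ (by omega)
    have h3 : ((s ^ (N + M)) ^ (2 * K - p.1 - p.2)).natDegree ≤ (2 * K - p.1 - p.2) * d := by
      rw [Polynomial.natDegree_pow]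
      exact Nat.mul_le_mul_left _ (by omega)
    have h4 := p.1.2
    have h5 := p.2.2
    calc (P p).natDegree ≤ ((s ^ M * F) ^ (p.1 : ℕ)).natDegree +
        ((s ^ N * H) ^ (p.2 : ℕ)).natDegree + ((s ^ (N + M)) ^ (2 * K - p.1 - p.2)).natDegree :=
          Polynomial.natDegree_mul_le.trans (Nat.add_le_add_right Polynomial.natDegree_mul_le _)
      _ ≤ p.1 * d + p.2 * d + (2 * K - p.1 - p.2) * d := by omega
      _ = (p.1 + p.2 + (2 * K - p.1 - p.2)) * d := by ring
      _ = 2 * K * d := by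
        congr 1
        omega
  have hdep : ¬ LinearIndependent ℂ P := by
    intro hli
    have hmem : ∀ p, P p ∈ Polynomial.degreeLT ℂ (2 * K * d + 1) := by
      intro p
      rw [Polynomial.mem_degreeLT]
      refine lt_of_le_of_lt Polynomial.degree_le_natDegree ?_
      have := hdeg p
      exact_mod_cast Nat.lt_succ_of_le this
    have hli' : LinearIndependent ℂ (fun p => (⟨P p, hmem p⟩ : Polynomial.degreeLT ℂ (2 * K * d + 1))) :=
      LinearIndependent.of_comp (Polynomial.degreeLT ℂ (2 * K * d + 1)).subtype hli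
    have hfin : Module.Finite ℂ (Polynomial.degreeLT ℂ (2 * K * d + 1)) :=
      Module.Finite.equiv (Polynomial.degreeLTEquiv ℂ (2 * K * d + 1)).symm
    have hrank : Module.finrank ℂ (Polynomial.degreeLT ℂ (2 * K * d + 1)) = 2 * K * d + 1 := by
      rw [(Polynomial.degreeLTEquiv ℂ (2 * K * d + 1)).finrank_eq, Module.finrank_fin_fun]
    have hcard := hli'.fintype_card_le_finrank
    rw [Fintype.card_prod, Fintype.card_fin, hrank] at hcard
    have hd1 : 1 ≤ d := by omega
    have hK : K = 2 * d := rfl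
    rw [hK] at hcard
    nlinarith
  rw [Fintype.not_linearIndependent_iff] at hdep
  obtain ⟨c, hc, p0, hp0⟩ := hdep
  refine ⟨K, c, fun h => hp0 (congrFun h p0), fun z hz => ?_⟩
  have h1 := congrArg (fun q : Polynomial ℂ => q.eval z) hc
  simp only [Polynomial.eval_finsetSum, Polynomial.eval_zero, Polynomial.eval_smul] at h1
  have h2 : ∀ p, (P p).eval z = (s.eval z ^ (N + M)) ^ (2 * K) *
      (f z ^ (p.1 : ℕ) * h z ^ (p.2 : ℕ)) := by
    intro p
    show ((s ^ M * F) ^ (p.1 : ℕ) * (s ^ N * H) ^ (p.2 : ℕ) *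
      (s ^ (N + M)) ^ (2 * K - p.1 - p.2)).eval z = _
    have h3 : 2 * K = p.1 + p.2 + (2 * K - p.1 - p.2) := by
      have h4 := p.1.2
      have h5 := p.2.2
      omega
    rw [Polynomial.eval_mul, Polynomial.eval_mul, Polynomial.eval_pow, Polynomial.eval_pow,
      Polynomial.eval_pow, Polynomial.eval_mul, Polynomial.eval_mul, Polynomial.eval_pow,
      Polynomial.eval_pow, Polynomial.eval_pow, hF z hz, hH z hz]
    conv_rhs => rw [h3]
    rw [pow_add, pow_add]
    ring
  simp_rw [h2] at h1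
  have h3 : (s.eval z ^ (N + M)) ^ (2 * K) *
      ∑ p, c p * f z ^ (p.1 : ℕ) * h z ^ (p.2 : ℕ) = 0 := by
    rw [← h1, Finset.mul_sum]
    refine Finset.sum_congr rfl fun p _ => ?_
    simp only [smul_eq_mul]
    ring
  exact (mul_eq_zero.1 h3).resolve_left (pow_ne_zero _ (pow_ne_zero _ hz))

/-- the binomial which vanishes along the curve `t ^ m x` -/
noncomputable def bin (m : Fin 2 → ℤ) (μ : ℂ) : MvPolynomial (Fin 2) ℂ :=
  X 0 ^ (m 1).toNat * X 1 ^ (- m 0).toNat - C μ * (X 0 ^ (- m 1).toNat * X 1 ^ (m 0).toNat)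

theorem eval_bin (m : Fin 2 → ℤ) (μ : ℂ) (y : Fin 2 → ℂ) : eval y (bin m μ) =
    y 0 ^ (m 1).toNat * y 1 ^ (- m 0).toNat - μ * (y 0 ^ (- m 1).toNat * y 1 ^ (m 0).toNat) := by
  unfold bin
  simp

theorem bin_iff (m : Fin 2 → ℤ) (μ : ℂ) (y : Fin 2 → ℂ) (hy : ∀ j, y j ≠ 0) :
    eval y (bin m μ) = 0 ↔ y 0 ^ m 1 * y 1 ^ (- m 0) = μ := by
  rw [eval_bin, sub_eq_zero]
  have h1 : ∀ (w : ℂ) (k : ℤ), w ≠ 0 → w ^ k = w ^ k.toNat / w ^ (-k).toNat := by
    intro w k hw
    rw [← zpow_natCast, ← zpow_natCast, ← zpow_sub₀ hw]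
    congr 1
    omega
  rw [h1 _ _ (hy 0), h1 _ _ (hy 1), neg_neg, div_mul_div_comm,
    div_eq_iff (mul_ne_zero (pow_ne_zero _ (hy 0)) (pow_ne_zero _ (hy 1)))]

theorem bin_tw (m : Fin 2 → ℤ) (y : Fin 2 → ℂ) (hy : ∀ j, y j ≠ 0) (t : ℂ) (ht : t ≠ 0) :
    eval (fun j => t ^ m j * y j) (bin m (y 0 ^ m 1 * y 1 ^ (- m 0))) = 0 := by
  rw [bin_iff _ _ _ (fun j => mul_ne_zero (zpow_ne_zero _ ht) (hy j))]
  rw [mul_zpow, mul_zpow, ← zpow_mul, ← zpow_mul]
  have h1 : t ^ (m 0 * m 1) * t ^ (m 1 * - m 0) = 1 := by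
    rw [← zpow_add₀ ht]
    have : m 0 * m 1 + m 1 * - m 0 = 0 := by ring
    rw [this, zpow_zero]
  calc t ^ (m 0 * m 1) * y 0 ^ m 1 * (t ^ (m 1 * - m 0) * y 1 ^ (- m 0)) =
      (t ^ (m 0 * m 1) * t ^ (m 1 * - m 0)) * (y 0 ^ m 1 * y 1 ^ (- m 0)) := by ring
    _ = _ := by rw [h1, one_mul]

/-- a nonzero polynomial does not vanish at all `t ^ k y` -/
theorem exists_nonroot (R : Polynomial ℂ) (hR : R ≠ 0) (k : ℤ) (hk : k ≠ 0) (y : ℂ) (hy : y ≠ 0) :
    ∃ t : ℂ, t ≠ 0 ∧ R.eval (t ^ k * y) ≠ 0 := by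
  by_contra hcon
  push Not at hcon
  apply hR
  refine Polynomial.eq_zero_of_infinite_isRoot R ?_
  have h1 : Set.Infinite (Set.range fun i : ℕ => ((2 : ℂ) ^ i) ^ k * y) := by
    refine Set.infinite_range_of_injective fun a b hab => ?_
    have h2 : ((2 : ℂ) ^ a) ^ k = ((2 : ℂ) ^ b) ^ k := mul_right_cancel₀ hy hab
    rw [← zpow_natCast, ← zpow_natCast, ← zpow_mul, ← zpow_mul] at h2
    have h3 := congrArg (fun z : ℂ => ‖z‖) h2
    simp only [norm_zpow] at h3
    have h4 : (a : ℤ) * k = b * k := by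
      refine zpow_right_injective₀ (a := ‖(2 : ℂ)‖) (by simp) (by simp) h3
    exact_mod_cast mul_right_cancel₀ hk h4
  refine h1.mono ?_
  rintro _ ⟨i, rfl⟩
  exact hcon _ (pow_ne_zero _ two_ne_zero)

theorem curve_finite (Γ : Subgroup Qbarˣ) (hΓ : Γ.FG) (s : Polynomial ℂ) (hs : s ≠ 0)
    (f : Fin 2 → ℂ → ℂ) (hf : ∀ j, PolyLike s (f j))
    (hind : ∀ m : Fin 2 → ℤ, m ≠ 0 → ∀ c : ℂ,
      {z | s.eval z ≠ 0 ∧ f 0 z ^ m 0 * f 1 z ^ m 1 = c}.Finite) :
    {z | s.eval z ≠ 0 ∧ ∀ j, ∃ u ∈ DivHull Γ, f j z = sg u}.Finite := by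
  classical
  let S : Set (MvPolynomial (Fin 2) ℂ) :=
    {F | ∀ z, s.eval z ≠ 0 → eval (fun j => f j z) F = 0}
  have hfin0 : ∀ j, ∀ c : ℂ, {z | s.eval z ≠ 0 ∧ f j z = c}.Finite := by
    intro j c
    refine (hind (Pi.single j 1) (by
      intro h
      have := congrFun h j
      simp at this) c).subset ?_
    rintro z ⟨h1, h2⟩
    refine ⟨h1, ?_⟩
    fin_cases j <;> simpa using h2
  have hmain : ∀ z, s.eval z ≠ 0 → (∀ j, ∃ u ∈ DivHull Γ, f j z = sg u) →
      (fun j => f j z) ∈ torC S Γ := by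
    intro z hz hu
    refine ⟨fun F hF => hF z hz, hu, fun m hm => ?_⟩
    by_contra hcon
    push Not at hcon
    have hx0 : ∀ j, f j z ≠ 0 := by
      intro j
      obtain ⟨u, -, hu⟩ := hu j
      rw [hu]
      exact (map_ne_zero sg).2 u.ne_zero
    obtain ⟨x, hx⟩ : ∃ x : Fin 2 → ℂ, x = fun j => f j z := ⟨_, rfl⟩
    have hx0' : ∀ j, x j ≠ 0 := by
      rw [hx]
      exact hx0
    have hcon' : ∀ t : ℂ, t ≠ 0 → ∀ F ∈ S, eval (fun j => t ^ m j * x j) F = 0 := by
      rw [hx]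
      exact hcon
    obtain ⟨μ, hμ⟩ : ∃ μ : ℂ, μ = x 0 ^ m 1 * x 1 ^ (- m 0) := ⟨_, rfl⟩
    obtain ⟨G, hG⟩ : ∃ G, G = bin m μ := ⟨_, rfl⟩
    have hGt : ∀ t : ℂ, t ≠ 0 → eval (fun j => t ^ m j * x j) G = 0 := by
      intro t ht
      rw [hG, hμ]
      exact bin_tw m x hx0' t ht
    obtain ⟨h, hh⟩ : ∃ h : ℂ → ℂ, h = fun z => eval (fun j => f j z) G := ⟨_, rfl⟩
    have hhP : PolyLike s h := by
      rw [hh]
      exact PolyLike.mv hf G
    -- finitely many zeros
    have hhfin : {w | s.eval w ≠ 0 ∧ h w = 0}.Finite := by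
      have h1 := hind ![m 1, - m 0] (by
        intro h
        apply hm
        funext j
        have h2 := congrFun h 0
        have h3 := congrFun h 1
        simp at h2 h3
        fin_cases j
        · exact h3
        · exact h2) μ
      refine ((h1.union (hfin0 0 0)).union (hfin0 1 0)).subset ?_
      rintro w ⟨hw1, hw2⟩
      by_cases h2 : f 0 w = 0
      · exact Or.inl (Or.inr ⟨hw1, h2⟩)
      by_cases h3 : f 1 w = 0
      · exact Or.inr ⟨hw1, h3⟩
      refine Or.inl (Or.inl ⟨hw1, ?_⟩)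
      rw [hh, hG] at hw2
      have h4 := (bin_iff m μ (fun j => f j w) (by
        intro j
        fin_cases j
        · exact h2
        · exact h3)).1 hw2
      simpa using h4
    apply hm
    funext j
    by_contra hmj
    obtain ⟨K, c, hc0, hc⟩ := dependent (hf j) hhP
    -- the least exponent of `h`
    obtain ⟨p0, hp0⟩ : ∃ p, c p ≠ 0 := by
      by_contra h0
      push Not at h0
      exact hc0 (funext h0)
    have hex : ∃ k : ℕ, ∃ p, c p ≠ 0 ∧ (p.2 : ℕ) = k := ⟨p0.2, p0, hp0, rfl⟩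
    obtain ⟨p1, hp1, hk⟩ := Nat.find_spec hex
    have hmin : ∀ p, c p ≠ 0 → Nat.find hex ≤ p.2 := fun p hp => Nat.find_min' hex ⟨p, hp, rfl⟩
    obtain ⟨k, hkdef⟩ : ∃ k, k = Nat.find hex := ⟨_, rfl⟩
    rw [← hkdef] at hk hmin
    let P : MvPolynomial (Fin 2) ℂ := ∑ p, C (c p) * X j ^ (p.1 : ℕ) * G ^ ((p.2 : ℕ) - k)
    have hPe : ∀ y : Fin 2 → ℂ, eval y P = ∑ p, c p * y j ^ (p.1 : ℕ) *
        (eval y G) ^ ((p.2 : ℕ) - k) := by
      intro y
      show eval y (∑ p, _) = _
      rw [map_sum]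
      refine Finset.sum_congr rfl fun p _ => ?_
      simp
    have hPS : P ∈ S := by
      intro w hw
      refine (PolyLike.mv hf P).zero ?_ w hw
      have h1 : {z : ℂ | ¬ (s.eval z ≠ 0)} ∪ {w | s.eval w ≠ 0 ∧ h w = 0} ∪
          {w | s.eval w ≠ 0 ∧ eval (fun j => f j w) P = 0} = Set.univ := by
        refine Set.eq_univ_of_forall fun w => ?_
        by_cases h2 : s.eval w ≠ 0
        · by_cases h3 : h w = 0
          · exact Or.inl (Or.inr ⟨h2, h3⟩)
          · refine Or.inr ⟨h2, ?_⟩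
            have h4 := hc w h2
            have h5 : ∑ p, c p * f j w ^ (p.1 : ℕ) * h w ^ (p.2 : ℕ) =
                h w ^ k * eval (fun j => f j w) P := by
              rw [hPe, Finset.mul_sum]
              refine Finset.sum_congr rfl fun p _ => ?_
              by_cases h6 : c p = 0
              · rw [h6]
                ring
              · have h7 := hmin p h6
                have h8 : (p.2 : ℕ) = k + ((p.2 : ℕ) - k) := by omega
                have h9 : eval (fun j => f j w) G = h w := by rw [hh]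
                rw [h9]
                conv_lhs => rw [h8]
                rw [pow_add]
                ring
            rw [h5] at h4
            exact (mul_eq_zero.1 h4).resolve_left (pow_ne_zero _ h3)
        · exact Or.inl (Or.inl h2)
      by_contra h3
      rw [Set.not_infinite] at h3
      have h4 := ((nz_cofinite hs).union hhfin).union h3
      rw [h1] at h4
      exact Set.infinite_univ h4
    -- the polynomial in one variable
    let R : Polynomial ℂ := ∑ p, if (p.2 : ℕ) = k then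
      Polynomial.C (c p) * Polynomial.X ^ (p.1 : ℕ) else 0
    have hRe : ∀ y : ℂ, R.eval y = ∑ p, if (p.2 : ℕ) = k then c p * y ^ (p.1 : ℕ) else 0 := by
      intro y
      show (∑ p, _ : Polynomial ℂ).eval y = _
      rw [Polynomial.eval_finsetSum]
      refine Finset.sum_congr rfl fun p _ => ?_
      split_ifs <;> simp
    have hR0 : R ≠ 0 := by
      intro h0
      have h1 := congrArg (fun q : Polynomial ℂ => q.coeff (p1.1 : ℕ)) h0
      simp only [Polynomial.coeff_zero] at h1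
      apply hp1
      rw [← h1]
      show c p1 = (∑ p, _ : Polynomial ℂ).coeff (p1.1 : ℕ)
      rw [Polynomial.finsetSum_coeff, Finset.sum_eq_single p1]
      · rw [if_pos hk]
        simp
      · intro p _ hp
        split_ifs with h2
        · rw [Polynomial.coeff_C_mul, Polynomial.coeff_X_pow, if_neg, mul_zero]
          intro h3
          apply hp
          refine Prod.ext (Fin.ext h3.symm) (Fin.ext ?_)
          rw [h2, hk]
        · simp
      · intro h2
        exact absurd (Finset.mem_univ _) h2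
    obtain ⟨t, ht, htR⟩ := exists_nonroot R hR0 (m j) hmj (x j) (hx0' j)
    apply htR
    have h1 := hcon' t ht P hPS
    rw [hPe, hGt t ht] at h1
    rw [hRe]
    refine (Finset.sum_congr rfl fun p _ => ?_).trans h1
    by_cases h2 : (p.2 : ℕ) = k
    · rw [if_pos h2, h2, Nat.sub_self, pow_zero, mul_one]
    · rw [if_neg h2]
      by_cases h3 : c p = 0
      · rw [h3]
        ring
      · have h4 := hmin p h3
        rw [zero_pow (by omega), mul_zero]
  have hT := torC_finite S Γ hΓ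
  refine (hT.biUnion (t := fun y => {z | s.eval z ≠ 0 ∧ f 0 z = y 0})
    (fun y _ => hfin0 0 (y 0))).subset ?_
  rintro z ⟨hz, hu⟩
  refine Set.mem_biUnion (hmain z hz hu) ⟨hz, rfl⟩

end Pool.Agent.H594.ML
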