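import Mathlib
import Pool.Agent.H594.ML.Curve

set_option autoImplicit false
set_option linter.unusedSectionVars false

/-!
# Rational functions which are multiplicatively independent modulo constants
-/

namespace Pool.Agent.H594.ML

open Finset
open Pool.Agent.Helper259.AbsHt Pool.Agent.Y215.SK

/-- `f` and `g` are multiplicatively independent modulo constants -/
def MulIndep (f g : RatFunc ℂ) : Prop :=
  ∀ a b : ℤ, (a ≠ 0 ∨ b ≠ 0) → ∀ c : ℂ, f ^ a * g ^ b ≠ RatFunc.C c

theorem zpow_toNat {K : Type*} [Field K] (w : K) (k : ℤ) (hw : w ≠ 0) :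
    w ^ k = w ^ k.toNat / w ^ (-k).toNat := by
  rw [← zpow_natCast, ← zpow_natCast, ← zpow_sub₀ hw]
  congr 1
  omega

theorem evalr (f : RatFunc ℂ) (z : ℂ) :
    f.eval (RingHom.id ℂ) z = f.num.eval z / f.denom.eval z := by
  unfold RatFunc.eval
  rw [Polynomial.eval₂_id, Polynomial.eval₂_id]

theorem indep_points {f g : RatFunc ℂ} (h : MulIndep f g) (m : Fin 2 → ℤ) (hm : m ≠ 0) (c : ℂ) :
    {z | (f.denom * g.denom).eval z ≠ 0 ∧
      (f.eval (RingHom.id ℂ) z) ^ m 0 * (g.eval (RingHom.id ℂ) z) ^ m 1 = c}.Finite := by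
  classical
  have hf0 : f ≠ 0 := by
    rintro rfl
    exact h 1 0 (Or.inl one_ne_zero) 0 (by simp)
  have hg0 : g ≠ 0 := by
    rintro rfl
    exact h 0 1 (Or.inr one_ne_zero) 0 (by simp)
  have hfn : f.num ≠ 0 := RatFunc.num_ne_zero hf0
  have hgn : g.num ≠ 0 := RatFunc.num_ne_zero hg0
  have hfd : f.denom ≠ 0 := RatFunc.denom_ne_zero f
  have hgd : g.denom ≠ 0 := RatFunc.denom_ne_zero g
  by_contra hinf
  rw [← Set.Infinite] at hinf
  have hinf2 : {z | (f.denom * g.denom).eval z ≠ 0 ∧ (f.num * g.num).eval z ≠ 0 ∧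
      (f.eval (RingHom.id ℂ) z) ^ m 0 * (g.eval (RingHom.id ℂ) z) ^ m 1 = c}.Infinite := by
    intro hfin
    have h1 := hfin.union (nz_cofinite (mul_ne_zero hfn hgn))
    refine hinf (h1.subset ?_)
    rintro z ⟨h2, h3⟩
    by_cases h4 : (f.num * g.num).eval z ≠ 0
    · exact Or.inl ⟨h2, h4, h3⟩
    · exact Or.inr h4
  have hid : f.num ^ (m 0).toNat * f.denom ^ (- m 0).toNat * (g.num ^ (m 1).toNat *
      g.denom ^ (- m 1).toNat) = Polynomial.C c * (f.num ^ (- m 0).toNat * f.denom ^ (m 0).toNat *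
      (g.num ^ (- m 1).toNat * g.denom ^ (m 1).toNat)) := by
    refine Polynomial.eq_of_infinite_eval_eq _ _ (hinf2.mono ?_)
    rintro z ⟨h1, h2, h3⟩
    rw [Polynomial.eval_mul] at h1 h2
    have e1 := left_ne_zero_of_mul h1
    have e2 := right_ne_zero_of_mul h1
    have e3 := left_ne_zero_of_mul h2
    have e4 := right_ne_zero_of_mul h2
    rw [evalr, evalr, zpow_toNat _ _ (div_ne_zero e3 e1), zpow_toNat _ _ (div_ne_zero e4 e2)] at h3
    show Polynomial.eval z _ = Polynomial.eval z _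
    simp only [Polynomial.eval_mul, Polynomial.eval_pow, Polynomial.eval_C]
    rw [← h3]
    simp only [div_pow]
    have p1 := pow_ne_zero (m 0).toNat e1
    have p2 := pow_ne_zero (m 0).toNat e3
    have p3 := pow_ne_zero (- m 0).toNat e1
    have p4 := pow_ne_zero (- m 0).toNat e3
    have p5 := pow_ne_zero (m 1).toNat e2
    have p6 := pow_ne_zero (m 1).toNat e4
    have p7 := pow_ne_zero (- m 1).toNat e2
    have p8 := pow_ne_zero (- m 1).toNat e4
    field_simp
  refine h (m 0) (m 1) ?_ c ?_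
  · by_contra h0
    push Not at h0
    apply hm
    funext j
    fin_cases j
    · exact h0.1
    · exact h0.2
  · have h1 := congrArg (algebraMap (Polynomial ℂ) (RatFunc ℂ)) hid
    simp only [map_mul, map_pow] at h1
    have q1 : algebraMap (Polynomial ℂ) (RatFunc ℂ) f.num ≠ 0 :=
      RatFunc.algebraMap_ne_zero hfn
    have q2 : algebraMap (Polynomial ℂ) (RatFunc ℂ) f.denom ≠ 0 :=
      RatFunc.algebraMap_ne_zero hfd
    have q3 : algebraMap (Polynomial ℂ) (RatFunc ℂ) g.num ≠ 0 :=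
      RatFunc.algebraMap_ne_zero hgn
    have q4 : algebraMap (Polynomial ℂ) (RatFunc ℂ) g.denom ≠ 0 :=
      RatFunc.algebraMap_ne_zero hgd
    rw [zpow_toNat f _ hf0, zpow_toNat g _ hg0]
    have e1 : f = algebraMap (Polynomial ℂ) (RatFunc ℂ) f.num /
      algebraMap (Polynomial ℂ) (RatFunc ℂ) f.denom := (RatFunc.num_div_denom f).symm
    have e2 : g = algebraMap (Polynomial ℂ) (RatFunc ℂ) g.num /
      algebraMap (Polynomial ℂ) (RatFunc ℂ) g.denom := (RatFunc.num_div_denom g).symm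
    generalize algebraMap (Polynomial ℂ) (RatFunc ℂ) f.num = A at h1 q1 e1
    generalize algebraMap (Polynomial ℂ) (RatFunc ℂ) f.denom = B at h1 q2 e1
    generalize algebraMap (Polynomial ℂ) (RatFunc ℂ) g.num = A' at h1 q3 e2
    generalize algebraMap (Polynomial ℂ) (RatFunc ℂ) g.denom = B' at h1 q4 e2
    rw [e1, e2]
    simp only [div_pow]
    have hC : algebraMap (Polynomial ℂ) (RatFunc ℂ) (Polynomial.C c) = RatFunc.C c :=
      RatFunc.algebraMap_C c
    rw [hC] at h1
    have p1 := pow_ne_zero (m 0).toNat q1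
    have p2 := pow_ne_zero (m 0).toNat q2
    have p3 := pow_ne_zero (- m 0).toNat q1
    have p4 := pow_ne_zero (- m 0).toNat q2
    have p5 := pow_ne_zero (m 1).toNat q3
    have p6 := pow_ne_zero (m 1).toNat q4
    have p7 := pow_ne_zero (- m 1).toNat q3
    have p8 := pow_ne_zero (- m 1).toNat q4
    field_simp
    linear_combination h1

/-- **Values of two rational functions in the division hull of a finitely generated group.** -/
theorem rat_finite (Γ : Subgroup Qbarˣ) (hΓ : Γ.FG) (f g : RatFunc ℂ) (h : MulIndep f g) :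
    {z : ℂ | (∃ u ∈ DivHull Γ, f.eval (RingHom.id ℂ) z = sg u) ∧
      ∃ u ∈ DivHull Γ, g.eval (RingHom.id ℂ) z = sg u}.Finite := by
  have h1 := curve_finite Γ hΓ (f.denom * g.denom)
    (mul_ne_zero (RatFunc.denom_ne_zero f) (RatFunc.denom_ne_zero g))
    ![fun z => f.eval (RingHom.id ℂ) z, fun z => g.eval (RingHom.id ℂ) z] (by
      intro j
      fin_cases j
      · show PolyLike _ (fun z => f.eval (RingHom.id ℂ) z)
        simp_rw [evalr]
        exact PolyLike.quot _ _ (dvd_mul_right _ _)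
      · show PolyLike _ (fun z => g.eval (RingHom.id ℂ) z)
        simp_rw [evalr]
        exact PolyLike.quot _ _ (dvd_mul_left _ _)) (fun m hm c => indep_points h m hm c)
  refine h1.subset ?_
  rintro z ⟨⟨u, hu, hfu⟩, v, hv, hgv⟩
  have hden : ∀ (k : RatFunc ℂ) (u : Qbarˣ), k.eval (RingHom.id ℂ) z = sg u →
      k.denom.eval z ≠ 0 := by
    intro k u hk h0
    rw [evalr, h0, div_zero] at hk
    exact ((map_ne_zero sg).2 u.ne_zero) hk.symm
  refine ⟨?_, fun j => ?_⟩
  · rw [Polynomial.eval_mul]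
    exact mul_ne_zero (hden f u hfu) (hden g v hgv)
  · fin_cases j
    · exact ⟨u, hu, hfu⟩
    · exact ⟨v, hv, hgv⟩

end Pool.Agent.H594.ML
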