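import Mathlib
import Pool.Agent.H594.ML.Rat
import Pool.Graph.R_seed8.Y215.AF.Main

set_option autoImplicit false
set_option linter.unusedSectionVars false

/-!
# Values at the elements of a finitely generated ring which lie in a group of finite rank
-/

namespace Pool.Agent.H594.ML

open Finset IsDedekindDomain NumberField WithZero
open Pool.Agent.Helper259.AbsHt Pool.Agent.Y215.SK Pool.Agent.Y215.AF

section

variable (L : IntermediateField ℚ Qbar) [NumberField L] (v : HeightOneSpectrum (𝓞 L))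

open Classical in
/-- the valuation, extended by zero -/
noncomputable def V (x : Qbar) : ℤᵐ⁰ := if h : x ∈ L then v.valuation L ⟨x, h⟩ else 0

variable {L v}

theorem V_mem {x : Qbar} (h : x ∈ L) : V L v x = v.valuation L ⟨x, h⟩ := dif_pos h

theorem V_coe (x : L) : V L v (x : Qbar) = v.valuation L x := V_mem x.2

theorem V_mul {x y : Qbar} (hx : x ∈ L) (hy : y ∈ L) : V L v (x * y) = V L v x * V L v y := by
  rw [V_mem hx, V_mem hy, V_mem (L.mul_mem hx hy), ← map_mul]
  rfl

theorem V_add {x y : Qbar} (hx : x ∈ L) (hy : y ∈ L) :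
    V L v (x + y) ≤ max (V L v x) (V L v y) := by
  rw [V_mem hx, V_mem hy, V_mem (L.add_mem hx hy)]
  exact (v.valuation L).map_add ⟨x, hx⟩ ⟨y, hy⟩

theorem V_sub {x y : Qbar} (hx : x ∈ L) (hy : y ∈ L) :
    V L v (x - y) ≤ max (V L v x) (V L v y) := by
  rw [V_mem hx, V_mem hy, V_mem (L.sub_mem hx hy)]
  exact (v.valuation L).map_sub ⟨x, hx⟩ ⟨y, hy⟩

theorem V_swap {x y : Qbar} (hx : x ∈ L) (hy : y ∈ L) : V L v (x - y) = V L v (y - x) := by
  rw [V_mem (L.sub_mem hy hx), V_mem (L.sub_mem hx hy)]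
  exact (v.valuation L).map_sub_swap ⟨x, hx⟩ ⟨y, hy⟩

theorem V_one : V L v 1 = 1 := by
  rw [V_mem L.one_mem]
  exact map_one _

theorem V_zero : V L v 0 = 0 := by
  rw [V_mem L.zero_mem]
  exact map_zero _

theorem V_neg {x : Qbar} (hx : x ∈ L) : V L v (-x) = V L v x := by
  rw [V_mem hx, V_mem (L.neg_mem hx)]
  exact (v.valuation L).map_neg ⟨x, hx⟩

theorem V_ne {x : Qbar} (hx : x ∈ L) (h0 : x ≠ 0) : V L v x ≠ 0 := by
  rw [V_mem hx, Valuation.ne_zero_iff]
  intro h
  exact h0 (congrArg Subtype.val h)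

theorem V_pow {x : Qbar} (hx : x ∈ L) (m : ℕ) : V L v (x ^ m) = V L v x ^ m := by
  rw [V_mem hx, V_mem (pow_mem hx m), ← map_pow]
  rfl

/-- a unit: both `x` and its inverse are integral -/
theorem V_unit {x : Qbar} (hx : x ∈ L) (h0 : x ≠ 0) (h1 : V L v x ≤ 1) (h2 : V L v x⁻¹ ≤ 1) :
    V L v x = 1 := by
  have h3 := V_mul (v := v) hx (L.inv_mem hx)
  rw [mul_inv_cancel₀ h0, V_one] at h3
  refine le_antisymm h1 ?_
  calc (1 : ℤᵐ⁰) = V L v x * V L v x⁻¹ := h3
    _ ≤ V L v x * 1 := mul_le_mul_right h2 _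
    _ = V L v x := mul_one _

/-- if `s` is near `a` and `a - b` is a unit then `s - b` is a unit -/
theorem V_near {s a b : Qbar} (hs : s ∈ L) (ha : a ∈ L) (hb : b ∈ L) (h1 : V L v (s - a) < 1)
    (h2 : V L v (a - b) = 1) : V L v (s - b) = 1 := by
  have e : s - b = (s - a) + (a - b) := by ring
  have h3 : (s - a) + (a - b) ∈ L := L.add_mem (L.sub_mem hs ha) (L.sub_mem ha hb)
  rw [e, V_mem h3]
  rw [V_mem (L.sub_mem hs ha)] at h1
  rw [V_mem (L.sub_mem ha hb)] at h2
  have h4 : (⟨(s - a) + (a - b), h3⟩ : L) = ⟨s - a, L.sub_mem hs ha⟩ + ⟨a - b, L.sub_mem ha hb⟩ :=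
    rfl
  rw [h4, (v.valuation L).map_add_eq_of_lt_right (x := ⟨s - a, L.sub_mem hs ha⟩)
    (y := ⟨a - b, L.sub_mem ha hb⟩) (by rw [h2]; exact h1), h2]

theorem V_prod (m : Multiset Qbar) (hm : ∀ x ∈ m, x ∈ L) : V L v m.prod = (m.map (V L v)).prod := by
  induction m using Multiset.induction_on with
  | empty => simpa using V_one
  | cons a m ih =>
    rw [Multiset.prod_cons, Multiset.map_cons, Multiset.prod_cons,
      V_mul (hm a (Multiset.mem_cons_self a m))
        (multiset_prod_mem _ fun x hx => hm x (Multiset.mem_cons_of_mem hx)),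
      ih fun x hx => hm x (Multiset.mem_cons_of_mem hx)]

theorem prod_le_one' (m : Multiset Qbar) (f : Qbar → ℤᵐ⁰) (hm : ∀ x ∈ m, f x ≤ 1) :
    (m.map f).prod ≤ 1 := by
  induction m using Multiset.induction_on with
  | empty => simp
  | cons a m ih =>
    rw [Multiset.map_cons, Multiset.prod_cons]
    exact mul_le_one' (hm a (Multiset.mem_cons_self a m))
      (ih fun x hx => hm x (Multiset.mem_cons_of_mem hx))

theorem prod_eq_one' (m : Multiset Qbar) (f : Qbar → ℤᵐ⁰) (hm : ∀ x ∈ m, f x = 1) :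
    (m.map f).prod = 1 := by
  induction m using Multiset.induction_on with
  | empty => simp
  | cons a m ih =>
    rw [Multiset.map_cons, Multiset.prod_cons, hm a (Multiset.mem_cons_self a m),
      ih fun x hx => hm x (Multiset.mem_cons_of_mem hx), one_mul]

theorem prod_lt_one' (m : Multiset Qbar) (f : Qbar → ℤᵐ⁰) (hm : ∀ x ∈ m, f x ≤ 1) (a : Qbar)
    (ha : a ∈ m) (h : f a < 1) : (m.map f).prod < 1 := by
  classical
  rw [← Multiset.cons_erase ha, Multiset.map_cons, Multiset.prod_cons]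
  have h1 : ((m.erase a).map f).prod ≤ 1 :=
    prod_le_one' _ f fun x hx => hm x (Multiset.mem_of_mem_erase hx)
  calc f a * ((m.erase a).map f).prod ≤ f a * 1 := mul_le_mul_right h1 _
    _ = f a := mul_one _
    _ < 1 := h

/-- the value at `s` of a polynomial with unit leading coefficient and roots in `L` -/
theorem V_eval (p : Polynomial Qbar) (hroots : ∀ x ∈ p.roots, x ∈ L) {s : Qbar}
    (hs : s ∈ L) (hl : p.leadingCoeff ∈ L) (h1 : V L v p.leadingCoeff = 1) :
    V L v (p.eval s) = (p.roots.map (fun x => V L v (s - x))).prod := by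
  have h2 := (IsAlgClosed.splits p).eval_eq_prod_roots s
  rw [h2, V_mul hl (multiset_prod_mem _ fun x hx => ?_), h1, one_mul, V_prod, Multiset.map_map]
  · rfl
  · intro x hx
    obtain ⟨y, hy, rfl⟩ := Multiset.mem_map.1 hx
    exact L.sub_mem hs (hroots y hy)
  · obtain ⟨y, hy, rfl⟩ := Multiset.mem_map.1 hx
    exact L.sub_mem hs (hroots y hy)

end

end Pool.Agent.H594.ML
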