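import Mathlib
import Pool.Agent.H594.ML.Val
import Pool.Graph.R_seed8.Y199.SG.Siegel

set_option autoImplicit false
set_option linter.unusedSectionVars false

/-!
# Integral points on an elliptic curve minus a point
-/

namespace Pool.Agent.H594.ML

open Finset IsDedekindDomain NumberField WithZero
open Pool.Agent.Helper259.AbsHt

section

variable {L : IntermediateField ℚ Qbar} [NumberField L]

/-- the elements of a finite set are units outside a finite set of places -/
theorem good_set (X : Finset L) : ∃ S : Set (HeightOneSpectrum (𝓞 L)), S.Finite ∧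
    ∀ v ∉ S, ∀ x ∈ X, x ≠ 0 → v.valuation L x = 1 := by
  classical
  refine ⟨⋃ x ∈ X, ({v | 1 < v.valuation L x} ∪ {v | 1 < v.valuation L x⁻¹}),
    X.finite_toSet.biUnion fun x _ => (HeightOneSpectrum.Support.finite (𝓞 L) x).union
      (HeightOneSpectrum.Support.finite (𝓞 L) x⁻¹), fun v hv x hx h0 => ?_⟩
  have h1 : ¬ 1 < v.valuation L x := fun h => hv (Set.mem_biUnion hx (Or.inl h))
  have h2 : ¬ 1 < v.valuation L x⁻¹ := fun h => hv (Set.mem_biUnion hx (Or.inr h))
  rw [not_lt] at h1 h2
  refine le_antisymm h1 ?_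
  have h3 : v.valuation L x ≠ 0 := by
    rw [Ne, map_eq_zero]
    exact h0
  rw [map_inv₀] at h2
  exact (inv_le_one₀ (zero_lt_iff.2 h3)).1 h2

theorem val_le_one_of {v : HeightOneSpectrum (𝓞 L)} {x : L}
    (h : x ≠ 0 → v.valuation L x = 1) : v.valuation L x ≤ 1 := by
  by_cases hx : x = 0
  · rw [hx, map_zero]
    exact zero_le_one
  · exact (h hx).le

theorem val_sub_eq {v : HeightOneSpectrum (𝓞 L)} {x a : L} (hx : 1 < v.valuation L x)
    (ha : v.valuation L a ≤ 1) : v.valuation L (x - a) = v.valuation L x :=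
  Valuation.map_sub_eq_of_lt_left _ (ha.trans_lt hx)

theorem exists_small_prime (v : HeightOneSpectrum (𝓞 L)) :
    ∃ p : ℕ, p.Prime ∧ v.valuation L (p : L) < 1 := by
  by_contra h
  push Not at h
  have h1 : ∀ p : ℕ, p.Prime → v.valuation L (p : L) = 1 := by
    intro p hp
    refine le_antisymm ?_ (h p hp)
    have h2 : v.valuation L (algebraMap (𝓞 L) L ((p : ℕ) : 𝓞 L)) ≤ 1 := v.valuation_le_one _
    rw [map_natCast (algebraMap (𝓞 L) L)] at h2
    exact h2
  have h2 : ∀ n : ℕ, n ≠ 0 → v.valuation L (n : L) = 1 := by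
    intro n
    induction n using Nat.recOnMul with
    | zero => intro h0; exact absurd rfl h0
    | one => intro _; rw [Nat.cast_one, map_one]
    | prime p hp => intro _; exact h1 p hp
    | mul a b iha ihb =>
      intro hab
      rw [Nat.cast_mul, map_mul, iha (left_ne_zero_of_mul hab), ihb (right_ne_zero_of_mul hab),
        one_mul]
  have h3 : (Ideal.absNorm v.asIdeal) ≠ 0 := by
    rw [Ne, Ideal.absNorm_eq_zero_iff]
    exact v.ne_bot
  have h4 := h2 _ h3
  have h5 : ((Ideal.absNorm v.asIdeal : ℕ) : 𝓞 L) ∈ v.asIdeal := Ideal.absNorm_mem v.asIdeal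
  have h6 : v.valuation L (algebraMap (𝓞 L) L ((Ideal.absNorm v.asIdeal : ℕ) : 𝓞 L)) < 1 :=
    (v.valuation_lt_one_iff_mem (K := L) _).2 h5
  rw [map_natCast (algebraMap (𝓞 L) L)] at h6
  exact absurd h4 h6.ne

/-- **Siegel's theorem** for the integers outside a finite set of places -/
theorem siegel_fin (e : Fin 3 → L) (he : Function.Injective e)
    (S : Set (HeightOneSpectrum (𝓞 L))) (hS : S.Finite) :
    {x : L | (∀ v ∉ S, v.valuation L x ≤ 1) ∧
      ∃ y : L, y ^ 2 = (x - e 0) * (x - e 1) * (x - e 2)}.Finite := by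
  classical
  choose p hp hpv using exists_small_prime (L := L)
  obtain ⟨D, hD⟩ : ∃ D : ℕ, ∀ v ∈ S, p v ≤ D := by
    refine ⟨hS.toFinset.sup p, fun v hv => Finset.le_sup (f := p) (hS.mem_toFinset.2 hv)⟩
  refine (Pool.Agent.Y199.SG.siegel e he D.factorial (Nat.factorial_pos D)).subset ?_
  rintro x ⟨hx, hy⟩
  refine ⟨Pool.Agent.Y199.SG.int_of_val D x fun v hv => hx v fun hvS => ?_, hy⟩
  exact hv (p v) (hp v) (hD v hvS) (hpv v)

/-- the integral points -/
theorem curve_int (e : Fin 3 → L) (he : Function.Injective e)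
    (S : Set (HeightOneSpectrum (𝓞 L))) (hS : S.Finite) :
    {Q : L × L | Q.2 ^ 2 = (Q.1 - e 0) * (Q.1 - e 1) * (Q.1 - e 2) ∧
      ∀ v ∉ S, v.valuation L Q.1 ≤ 1}.Finite := by
  classical
  have h1 := siegel_fin e he S hS
  refine Set.Finite.subset (h1.biUnion (t := fun x => (fun y : L => (x, y)) ''
    {y : L | y ^ 2 = (x - e 0) * (x - e 1) * (x - e 2)}) fun x _ => Set.Finite.image _ ?_) ?_
  · have h2 : (Polynomial.X ^ 2 - Polynomial.C ((x - e 0) * (x - e 1) * (x - e 2)) :
        Polynomial L) ≠ 0 := Polynomial.X_pow_sub_C_ne_zero two_pos _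
    refine ((Polynomial.X ^ 2 - Polynomial.C ((x - e 0) * (x - e 1) * (x - e 2)) :
        Polynomial L).roots.toFinset.finite_toSet).subset ?_
    intro y hy
    rw [Finset.mem_coe, Multiset.mem_toFinset, Polynomial.mem_roots h2, Polynomial.IsRoot.def,
      Polynomial.eval_sub, Polynomial.eval_pow, Polynomial.eval_X, Polynomial.eval_C, sub_eq_zero]
    exact hy
  · rintro ⟨x, y⟩ ⟨hQ, hv⟩
    exact Set.mem_biUnion (show x ∈ _ from ⟨hv, y, hQ⟩) ⟨y, hQ, rfl⟩

/-- **Integral points on an elliptic curve minus an affine point.** -/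
theorem curve_far (e : Fin 3 → L) (he : Function.Injective e) (x0 y0 : L)
    (h0 : y0 ^ 2 = (x0 - e 0) * (x0 - e 1) * (x0 - e 2))
    (S : Set (HeightOneSpectrum (𝓞 L))) (hS : S.Finite) :
    {Q : L × L | Q.2 ^ 2 = (Q.1 - e 0) * (Q.1 - e 1) * (Q.1 - e 2) ∧
      ∀ v ∉ S, ¬ (v.valuation L (Q.1 - x0) < 1 ∧ v.valuation L (Q.2 - y0) < 1)}.Finite := by
  classical
  obtain ⟨S1, hS1, hg⟩ := good_set (L := L) {e 0, e 1, e 2, x0, y0, 2}
  have hint : ∀ v ∉ S ∪ S1, (∀ i, v.valuation L (e i) ≤ 1) ∧ v.valuation L x0 ≤ 1 ∧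
      v.valuation L y0 ≤ 1 ∧ v.valuation L 2 ≤ 1 := by
    intro v hv
    have hv1 : v ∉ S1 := fun h => hv (Or.inr h)
    refine ⟨fun i => ?_, ?_, ?_, ?_⟩
    · refine val_le_one_of (hg v hv1 _ ?_)
      fin_cases i <;> simp
    · exact val_le_one_of (hg v hv1 _ (by simp))
    · exact val_le_one_of (hg v hv1 _ (by simp))
    · exact val_le_one_of (hg v hv1 _ (by simp))
  have hfin := curve_int e he (S ∪ S1) (hS.union hS1)
  set a2 : L := -(e 0 + e 1 + e 2) with ha2
  set F1 : L := 3 * x0 ^ 2 + 2 * a2 * x0 + (e 0 * e 1 + e 0 * e 2 + e 1 * e 2) with hF1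
  set F2 : L := 3 * x0 + a2 with hF2
  -- the inverse of the translation
  let g : L × L → L × L := fun R =>
    let l := (y0 - R.2) / (R.1 - x0)
    (l ^ 2 - a2 - x0 - R.1, l * (l ^ 2 - a2 - x0 - R.1 - x0) - y0)
  have hsmall : ({Q : L × L | Q.1 = x0 ∧ (Q.2 = y0 ∨ Q.2 = -y0)} ∪
      {(x0 + F1 ^ 2 / (4 * y0 ^ 2) - F2, -y0 - F1 * (F1 ^ 2 / (4 * y0 ^ 2) - F2) / (2 * y0))}).Finite := by
    refine Set.Finite.union ?_ (Set.finite_singleton _)
    refine Set.Finite.subset (Set.toFinite {(x0, y0), (x0, -y0)}) ?_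
    rintro ⟨x, y⟩ ⟨rfl, h | h⟩
    · exact Or.inl (Prod.ext rfl h)
    · exact Or.inr (Prod.ext rfl h)
  refine ((hfin.image g).union hsmall).subset ?_
  rintro ⟨x, y⟩ ⟨hQ, hv⟩
  simp only at hQ hv
  by_cases hx : x = x0
  · refine Or.inr (Or.inl ⟨hx, ?_⟩)
    rw [hx, ← h0] at hQ
    exact sq_eq_sq_iff_eq_or_eq_neg.1 hQ
  have hd : x - x0 ≠ 0 := sub_ne_zero.2 hx
  obtain ⟨l, hl⟩ : ∃ l, l = (y + y0) / (x - x0) := ⟨_, rfl⟩
  have hly : y = l * (x - x0) - y0 := by
    rw [hl, div_mul_cancel₀ _ hd]
    ring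
  obtain ⟨X, hX⟩ : ∃ X, X = l ^ 2 - a2 - x - x0 := ⟨_, rfl⟩
  have hXd : (X - x0) * (x - x0) ^ 2 = 2 * y0 * (y + y0) + F1 * (x - x0) := by
    have h1 : l ^ 2 * (x - x0) ^ 2 = (y + y0) ^ 2 := by
      rw [hly]
      ring
    rw [hX, hF1, ha2]
    linear_combination h1 + hQ - h0
  by_cases hXx : X = x0
  · -- the tangent
    refine Or.inr (Or.inr ?_)
    rw [hXx, sub_self, zero_mul] at hXd
    by_cases hy0 : y0 = 0
    · exfalso
      rw [hy0] at hXd h0
      rw [mul_zero, zero_mul, zero_add] at hXd
      have h3 : F1 = 0 := (mul_eq_zero.1 hXd.symm).resolve_right hd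
      have h4 : (x0 - e 0) * (x0 - e 1) * (x0 - e 2) = 0 := by rw [← h0]; ring
      have d01 : e 0 - e 1 ≠ 0 := sub_ne_zero.2 (he.ne (by decide))
      have d02 : e 0 - e 2 ≠ 0 := sub_ne_zero.2 (he.ne (by decide))
      have d12 : e 1 - e 2 ≠ 0 := sub_ne_zero.2 (he.ne (by decide))
      rcases mul_eq_zero.1 h4 with h5 | h5
      · rcases mul_eq_zero.1 h5 with h6 | h6
        · have h7 : x0 = e 0 := sub_eq_zero.1 h6
          have h8 : F1 = (e 0 - e 1) * (e 0 - e 2) := by rw [hF1, ha2, h7]; ring
          rw [h8] at h3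
          exact mul_ne_zero d01 d02 h3
        · have h7 : x0 = e 1 := sub_eq_zero.1 h6
          have h8 : F1 = -((e 0 - e 1) * (e 1 - e 2)) := by rw [hF1, ha2, h7]; ring
          rw [h8] at h3
          exact neg_ne_zero.2 (mul_ne_zero d01 d12) h3
      · have h7 : x0 = e 2 := sub_eq_zero.1 h5
        have h8 : F1 = (e 0 - e 2) * (e 1 - e 2) := by rw [hF1, ha2, h7]; ring
        rw [h8] at h3
        exact mul_ne_zero d02 d12 h3
    · have hy : y = -y0 - F1 * (x - x0) / (2 * y0) := by
        field_simp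
        linear_combination -hXd
      have h5 : (x - x0) ^ 2 * (x - x0 - (F1 ^ 2 / (4 * y0 ^ 2) - F2)) = 0 := by
        have h6 : y ^ 2 = y0 ^ 2 + F1 * (x - x0) + F1 ^ 2 / (4 * y0 ^ 2) * (x - x0) ^ 2 := by
          rw [hy]
          field_simp
          ring
        rw [hF2, ha2]
        rw [hF1, ha2] at h6 ⊢
        linear_combination h6 - hQ + h0
      have h7 : x - x0 = F1 ^ 2 / (4 * y0 ^ 2) - F2 :=
        sub_eq_zero.1 ((mul_eq_zero.1 h5).resolve_left (pow_ne_zero 2 hd))
      rw [Set.mem_singleton_iff, Prod.mk.injEq]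
      refine ⟨by linear_combination h7, ?_⟩
      rw [hy, h7]
  · refine Or.inl ?_
    have hXx' : X - x0 ≠ 0 := sub_ne_zero.2 hXx
    obtain ⟨Y, hY⟩ : ∃ Y, Y = y0 - l * (X - x0) := ⟨_, rfl⟩
    refine ⟨(X, Y), ⟨?_, fun v hvS => ?_⟩, ?_⟩
    · -- the point is on the curve
      show Y ^ 2 = (X - e 0) * (X - e 1) * (X - e 2)
      refine mul_left_cancel₀ hd ?_
      rw [hly] at hQ
      rw [hY, hX, ha2]
      linear_combination (l ^ 2 + (e 0 + e 1 + e 2) - x - x0 - x0) * hQ -
        (l ^ 2 + (e 0 + e 1 + e 2) - x - x0 - x) * h0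
    · -- it is integral
      show v.valuation L X ≤ 1
      obtain ⟨ve, vx0, vy0, v2⟩ := hint v hvS
      have hvS' : v ∉ S := fun h => hvS (Or.inl h)
      have va2 : v.valuation L a2 ≤ 1 := by
        rw [ha2, Valuation.map_neg]
        exact (Valuation.map_add _ _ _).trans (max_le ((Valuation.map_add _ _ _).trans
          (max_le (ve 0) (ve 1))) (ve 2))
      by_contra hcon
      rw [not_le] at hcon
      have vF1 : v.valuation L F1 ≤ 1 := by
        rw [hF1]
        have h3 : v.valuation L 3 ≤ 1 := by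
          have h4 : (3 : L) = 2 + 1 := by norm_num
          rw [h4]
          exact (Valuation.map_add _ _ _).trans (max_le v2 (map_one _).le)
        have hm : ∀ a b : L, v.valuation L a ≤ 1 → v.valuation L b ≤ 1 →
            v.valuation L (a * b) ≤ 1 := fun a b ha hb => by
          rw [map_mul]
          exact mul_le_one' ha hb
        have ha : ∀ a b : L, v.valuation L a ≤ 1 → v.valuation L b ≤ 1 →
            v.valuation L (a + b) ≤ 1 := fun a b ha hb => (Valuation.map_add _ _ _).trans (max_le ha hb)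
        refine ha _ _ (ha _ _ (hm _ _ h3 ?_) (hm _ _ (hm _ _ v2 va2) vx0)) (ha _ _ (ha _ _
          (hm _ _ (ve 0) (ve 1)) (hm _ _ (ve 0) (ve 2))) (hm _ _ (ve 1) (ve 2)))
        rw [map_pow]
        exact pow_le_one' vx0 2
      -- `l` is not integral
      have hl1 : v.valuation L x ≤ 1 → 1 < v.valuation L l := by
        intro hx1
        by_contra hl1
        rw [not_lt] at hl1
        refine absurd hcon (not_lt.2 ?_)
        rw [hX]
        refine (Valuation.map_sub _ _ _).trans (max_le ((Valuation.map_sub _ _ _).trans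
          (max_le ((Valuation.map_sub _ _ _).trans (max_le ?_ va2)) hx1)) vx0)
        rw [map_pow]
        exact pow_le_one' hl1 2
      have hx1 : v.valuation L x ≤ 1 := by
        by_contra hx1
        rw [not_le] at hx1
        refine absurd hcon (not_lt.2 ?_)
        have h3 : v.valuation L y ^ 2 = v.valuation L x ^ 3 := by
          rw [← map_pow, hQ, map_mul, map_mul, val_sub_eq hx1 (ve 0), val_sub_eq hx1 (ve 1),
            val_sub_eq hx1 (ve 2), pow_succ, pow_two]
        have h4 : v.valuation L x ^ 3 < v.valuation L x ^ 4 := pow_lt_pow_right₀ hx1 (by norm_num)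
        have h5 : v.valuation L y < v.valuation L x ^ 2 := by
          by_contra h6
          rw [not_lt] at h6
          have h7 : (v.valuation L x ^ 2) ^ 2 ≤ v.valuation L y ^ 2 := pow_le_pow_left₀ zero_le h6 2
          rw [← pow_mul, h3] at h7
          exact absurd h4 (not_lt.2 h7)
        have h6 : 1 < v.valuation L x ^ 2 := one_lt_pow₀ hx1 two_ne_zero
        have h7 : v.valuation L x < v.valuation L x ^ 2 := by
          calc v.valuation L x = v.valuation L x ^ 1 := (pow_one _).symm
            _ < v.valuation L x ^ 2 := pow_lt_pow_right₀ hx1 (by norm_num)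
        have h8 : v.valuation L ((X - x0) * (x - x0) ^ 2) < v.valuation L x ^ 2 := by
          rw [hXd]
          refine (Valuation.map_add _ _ _).trans_lt (max_lt ?_ ?_)
          · rw [map_mul, map_mul]
            calc v.valuation L 2 * v.valuation L y0 * v.valuation L (y + y0)
                ≤ 1 * v.valuation L (y + y0) := mul_le_mul_left (mul_le_one' v2 vy0) _
              _ = v.valuation L (y + y0) := one_mul _
              _ < _ := (Valuation.map_add _ _ _).trans_lt (max_lt h5 (vy0.trans_lt h6))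
          · rw [map_mul]
            calc v.valuation L F1 * v.valuation L (x - x0)
                ≤ 1 * v.valuation L (x - x0) := mul_le_mul_left vF1 _
              _ = v.valuation L x := by rw [one_mul, val_sub_eq hx1 vx0]
              _ < _ := h7
        rw [map_mul, map_pow, val_sub_eq hx1 vx0] at h8
        have h9 : v.valuation L (X - x0) < 1 := by
          by_contra h10
          rw [not_lt] at h10
          refine absurd h8 (not_lt.2 ?_)
          calc v.valuation L x ^ 2 = 1 * v.valuation L x ^ 2 := (one_mul _).symm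
            _ ≤ _ := mul_le_mul_left h10 _
        have h10 : X = (X - x0) + x0 := by ring
        rw [h10]
        exact (Valuation.map_add _ _ _).trans (max_le h9.le vx0)
      specialize hl1 hx1
      have hd1 : v.valuation L (x - x0) ≤ 1 := (Valuation.map_sub _ _ _).trans (max_le hx1 vx0)
      have hy2 : v.valuation L y ^ 2 ≤ 1 := by
        rw [← map_pow, hQ, map_mul, map_mul]
        exact mul_le_one' (mul_le_one' ((Valuation.map_sub _ _ _).trans (max_le hx1 (ve 0)))
          ((Valuation.map_sub _ _ _).trans (max_le hx1 (ve 1))))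
          ((Valuation.map_sub _ _ _).trans (max_le hx1 (ve 2)))
      have hy1 : v.valuation L y ≤ 1 := (pow_le_one_iff two_ne_zero).1 hy2
      have hls : v.valuation L l * v.valuation L (x - x0) = v.valuation L (y + y0) := by
        rw [← map_mul, hly]
        congr 1
        ring
      have hys : v.valuation L (y + y0) ≤ 1 := (Valuation.map_add _ _ _).trans (max_le hy1 vy0)
      have hyd : v.valuation L (x - x0) < v.valuation L (y + y0) := by
        rw [← hls]
        have h3 : 0 < v.valuation L (x - x0) := by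
          rw [zero_lt_iff, Ne, map_eq_zero]
          exact hd
        calc v.valuation L (x - x0) = 1 * v.valuation L (x - x0) := (one_mul _).symm
          _ < v.valuation L l * v.valuation L (x - x0) := by
            exact mul_lt_mul_of_pos_right hl1 h3
      refine hv v hvS' ⟨hyd.trans_le hys, ?_⟩
      by_contra hyy
      rw [not_lt] at hyy
      have h5 : v.valuation L ((y + y0) * (y - y0)) ≤ v.valuation L (x - x0) := by
        have h6 : (y + y0) * (y - y0) = (x - x0) * ((x - x0) ^ 2 + (3 * x0 + a2) * (x - x0) + F1) := by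
          rw [ha2, hF1]
          linear_combination hQ - h0
        rw [h6, map_mul]
        have h3 : v.valuation L 3 ≤ 1 := by
          have h4 : (3 : L) = 2 + 1 := by norm_num
          rw [h4]
          exact (Valuation.map_add _ _ _).trans (max_le v2 (map_one _).le)
        have h7 : v.valuation L ((x - x0) ^ 2 + (3 * x0 + a2) * (x - x0) + F1) ≤ 1 := by
          refine (Valuation.map_add _ _ _).trans (max_le ((Valuation.map_add _ _ _).trans
            (max_le ?_ ?_)) vF1)
          · rw [map_pow]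
            exact pow_le_one' hd1 2
          · rw [map_mul]
            refine mul_le_one' ((Valuation.map_add _ _ _).trans (max_le ?_ va2)) hd1
            rw [map_mul]
            exact mul_le_one' h3 vx0
        calc v.valuation L (x - x0) * v.valuation L ((x - x0) ^ 2 + (3 * x0 + a2) * (x - x0) + F1)
            ≤ v.valuation L (x - x0) * 1 := mul_le_mul_right h7 _
          _ = _ := mul_one _
      rw [map_mul] at h5
      refine absurd hyd (not_lt.2 ?_)
      calc v.valuation L (y + y0) = v.valuation L (y + y0) * 1 := (mul_one _).symm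
        _ ≤ v.valuation L (y + y0) * v.valuation L (y - y0) := mul_le_mul_right hyy _
        _ ≤ _ := h5
    · show g (X, Y) = (x, y)
      have h1 : (y0 - Y) / (X - x0) = l := by
        rw [hY]
        field_simp
        ring
      show ((((y0 - Y) / (X - x0)) ^ 2 - a2 - x0 - X, ((y0 - Y) / (X - x0)) *
        (((y0 - Y) / (X - x0)) ^ 2 - a2 - x0 - X - x0) - y0) : L × L) = (x, y)
      rw [h1]
      have h2 : l ^ 2 - a2 - x0 - X = x := by rw [hX]; ring
      rw [h2, ← hly]

end

end Pool.Agent.H594.ML
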