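import Mathlib
import Pool.Agent.H594.ML.Ell1

set_option autoImplicit false
set_option linter.unusedSectionVars false

/-!
# Rational functions on an elliptic curve which are units at infinitely many points
-/

namespace Pool.Agent.H594.ML

open Finset IsDedekindDomain NumberField WithZero
open Pool.Agent.Helper259.AbsHt

section

variable {L : IntermediateField ℚ Qbar} [NumberField L]

theorem val_eval_le {v : HeightOneSpectrum (𝓞 L)} (P : Polynomial L)
    (hc : ∀ i, v.valuation L (P.coeff i) ≤ 1) {x : L} (hx : 1 ≤ v.valuation L x) {n : ℕ}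
    (hn : P.natDegree ≤ n) : v.valuation L (P.eval x) ≤ v.valuation L x ^ n := by
  rw [Polynomial.eval_eq_sum_range]
  refine Valuation.map_sum_le _ fun i hi => ?_
  rw [map_mul, map_pow]
  have h1 : i ≤ n := (Nat.lt_succ_iff.1 (Finset.mem_range.1 hi)).trans hn
  calc v.valuation L (P.coeff i) * v.valuation L x ^ i ≤ 1 * v.valuation L x ^ i :=
        mul_le_mul_left (hc i) _
    _ = v.valuation L x ^ i := one_mul _
    _ ≤ v.valuation L x ^ n := pow_le_pow_right₀ hx h1

theorem val_eval_le_one {v : HeightOneSpectrum (𝓞 L)} (P : Polynomial L)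
    (hc : ∀ i, v.valuation L (P.coeff i) ≤ 1) {x : L} (hx : v.valuation L x ≤ 1) :
    v.valuation L (P.eval x) ≤ 1 := by
  rw [Polynomial.eval_eq_sum_range]
  refine Valuation.map_sum_le _ fun i _ => ?_
  rw [map_mul, map_pow]
  exact mul_le_one' (hc i) (pow_le_one' hx i)

/-- the value of a polynomial at a point which is not integral -/
theorem val_eval_eq {v : HeightOneSpectrum (𝓞 L)} (P : Polynomial L)
    (hc : ∀ i, v.valuation L (P.coeff i) ≤ 1) (hl : v.valuation L P.leadingCoeff = 1) {x : L}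
    (hx : 1 < v.valuation L x) : v.valuation L (P.eval x) = v.valuation L x ^ P.natDegree := by
  have h1 : P.eval x = P.leadingCoeff * x ^ P.natDegree + P.eraseLead.eval x := by
    conv_lhs => rw [← P.eraseLead_add_C_mul_X_pow]
    rw [Polynomial.eval_add, Polynomial.eval_mul, Polynomial.eval_pow, Polynomial.eval_C,
      Polynomial.eval_X, add_comm]
  have h2 : v.valuation L (P.leadingCoeff * x ^ P.natDegree) = v.valuation L x ^ P.natDegree := by
    rw [map_mul, hl, one_mul, map_pow]
  by_cases h0 : P.eraseLead = 0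
  · rw [h1, h0, Polynomial.eval_zero, add_zero, h2]
  · have h3 : P.eraseLead.natDegree < P.natDegree := by
      rcases P.eraseLead_natDegree_lt_or_eraseLead_eq_zero with h | h
      · exact h
      · exact absurd h h0
    have h4 : v.valuation L (P.eraseLead.eval x) < v.valuation L x ^ P.natDegree := by
      have h5 : ∀ i, v.valuation L (P.eraseLead.coeff i) ≤ 1 := by
        intro i
        rw [Polynomial.eraseLead_coeff]
        split_ifs
        · rw [map_zero]
          exact zero_le_one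
        · exact hc i
      exact (val_eval_le _ h5 hx.le le_rfl).trans_lt (pow_lt_pow_right₀ hx h3)
    rw [h1, Valuation.map_add_eq_of_lt_left _ (by rw [h2]; exact h4), h2]

theorem val_pow_sub {v : HeightOneSpectrum (𝓞 L)} {x a : L} (hx : v.valuation L x ≤ 1)
    (ha : v.valuation L a ≤ 1) (i : ℕ) : v.valuation L (x ^ i - a ^ i) ≤ v.valuation L (x - a) := by
  induction i with
  | zero => rw [pow_zero, pow_zero, sub_self, map_zero]; exact zero_le
  | succ i ih =>
    have h1 : x ^ (i + 1) - a ^ (i + 1) = x * (x ^ i - a ^ i) + a ^ i * (x - a) := by ring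
    rw [h1]
    refine (Valuation.map_add _ _ _).trans (max_le ?_ ?_)
    · rw [map_mul]
      calc v.valuation L x * v.valuation L (x ^ i - a ^ i)
          ≤ 1 * v.valuation L (x ^ i - a ^ i) := mul_le_mul_left hx _
        _ ≤ _ := by rw [one_mul]; exact ih
    · rw [map_mul, map_pow]
      calc v.valuation L a ^ i * v.valuation L (x - a) ≤ 1 * v.valuation L (x - a) :=
            mul_le_mul_left (pow_le_one' ha i) _
        _ = _ := one_mul _

/-- polynomials are Lipschitz -/
theorem val_eval_sub {v : HeightOneSpectrum (𝓞 L)} (P : Polynomial L)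
    (hc : ∀ i, v.valuation L (P.coeff i) ≤ 1) {x a : L} (hx : v.valuation L x ≤ 1)
    (ha : v.valuation L a ≤ 1) : v.valuation L (P.eval x - P.eval a) ≤ v.valuation L (x - a) := by
  rw [Polynomial.eval_eq_sum_range, Polynomial.eval_eq_sum_range, ← Finset.sum_sub_distrib]
  refine Valuation.map_sum_le _ fun i _ => ?_
  rw [← mul_sub, map_mul]
  calc v.valuation L (P.coeff i) * v.valuation L (x ^ i - a ^ i)
      ≤ 1 * v.valuation L (x ^ i - a ^ i) := mul_le_mul_left (hc i) _
    _ ≤ _ := by rw [one_mul]; exact val_pow_sub hx ha i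

/-- the coefficients of a polynomial are integral, and units if they are not zero -/
theorem good_poly (P : Polynomial L) : ∃ S : Set (HeightOneSpectrum (𝓞 L)), S.Finite ∧
    ∀ v ∉ S, (∀ i, v.valuation L (P.coeff i) ≤ 1) ∧
      (P ≠ 0 → v.valuation L P.leadingCoeff = 1) := by
  classical
  obtain ⟨S, hS, h⟩ := good_set (L := L) ((Finset.range (P.natDegree + 1)).image P.coeff)
  refine ⟨S, hS, fun v hv => ⟨fun i => ?_, fun h0 => ?_⟩⟩
  · by_cases hi : i ≤ P.natDegree
    · exact val_le_one_of (h v hv _ (Finset.mem_image_of_mem _ (Finset.mem_range.2 (by omega))))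
    · rw [Polynomial.coeff_eq_zero_of_natDegree_lt (not_le.1 hi), map_zero]
      exact zero_le_one
  · exact h v hv _ (Finset.mem_image_of_mem _ (Finset.mem_range.2 (by omega)))
      (Polynomial.leadingCoeff_ne_zero.2 h0)

/-- functions with the only pole at infinity -/
theorem unit_poly (e : Fin 3 → L) (he : Function.Injective e) (A B : Polynomial L)
    (hAB : ¬ (A.natDegree = 0 ∧ B = 0)) (S : Set (HeightOneSpectrum (𝓞 L))) (hS : S.Finite) :
    {Q : L × L | Q.2 ^ 2 = (Q.1 - e 0) * (Q.1 - e 1) * (Q.1 - e 2) ∧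
      ∀ v ∉ S, v.valuation L (A.eval Q.1 + B.eval Q.1 * Q.2) ≤ 1}.Finite := by
  classical
  obtain ⟨S1, hS1, h1⟩ := good_set (L := L) {e 0, e 1, e 2}
  obtain ⟨S2, hS2, h2⟩ := good_poly (L := L) A
  obtain ⟨S3, hS3, h3⟩ := good_poly (L := L) B
  refine (curve_int e he (S ∪ (S1 ∪ (S2 ∪ S3))) (hS.union (hS1.union (hS2.union hS3)))).subset ?_
  rintro ⟨x, y⟩ ⟨hQ, hv⟩
  refine ⟨hQ, fun v hvS => ?_⟩
  simp only at hQ hv ⊢
  have hv0 : v ∉ S := fun h => hvS (Or.inl h)
  have hv1 : v ∉ S1 := fun h => hvS (Or.inr (Or.inl h))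
  have hv2 : v ∉ S2 := fun h => hvS (Or.inr (Or.inr (Or.inl h)))
  have hv3 : v ∉ S3 := fun h => hvS (Or.inr (Or.inr (Or.inr h)))
  have ve : ∀ i, v.valuation L (e i) ≤ 1 := by
    intro i
    refine val_le_one_of (h1 v hv1 _ ?_)
    fin_cases i <;> simp
  by_contra hx
  rw [not_le] at hx
  refine absurd (hv v hv0) (not_le.2 ?_)
  have hy : v.valuation L y ^ 2 = v.valuation L x ^ 3 := by
    rw [← map_pow, hQ, map_mul, map_mul, val_sub_eq hx (ve 0), val_sub_eq hx (ve 1),
      val_sub_eq hx (ve 2), pow_succ, pow_two]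
  by_cases hB : B = 0
  · have hA : A.natDegree ≠ 0 := fun h => hAB ⟨h, hB⟩
    have hA0 : A ≠ 0 := by
      rintro rfl
      exact hA Polynomial.natDegree_zero
    rw [hB, Polynomial.eval_zero, zero_mul, add_zero,
      val_eval_eq A (h2 v hv2).1 ((h2 v hv2).2 hA0) hx]
    exact one_lt_pow₀ hx hA
  have hBy : v.valuation L (B.eval x * y) ^ 2 = v.valuation L x ^ (2 * B.natDegree + 3) := by
    rw [map_mul, mul_pow, hy, val_eval_eq B (h3 v hv3).1 ((h3 v hv3).2 hB) hx, ← pow_mul,
      mul_comm B.natDegree 2, ← pow_add]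
  have hBy1 : 1 < v.valuation L (B.eval x * y) := by
    by_contra h4
    rw [not_lt] at h4
    have h5 : v.valuation L (B.eval x * y) ^ 2 ≤ 1 := pow_le_one' h4 2
    rw [hBy] at h5
    exact absurd (one_lt_pow₀ hx (by omega : 2 * B.natDegree + 3 ≠ 0)) (not_lt.2 h5)
  by_cases hA0 : A = 0
  · rw [hA0, Polynomial.eval_zero, zero_add]
    exact hBy1
  have hAx : v.valuation L (A.eval x) = v.valuation L x ^ A.natDegree :=
    val_eval_eq A (h2 v hv2).1 ((h2 v hv2).2 hA0) hx
  rcases lt_trichotomy (v.valuation L (A.eval x)) (v.valuation L (B.eval x * y)) with h4 | h4 | h4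
  · rw [Valuation.map_add_eq_of_lt_right _ h4]
    exact hBy1
  · exfalso
    have h5 : v.valuation L x ^ (2 * A.natDegree) = v.valuation L x ^ (2 * B.natDegree + 3) := by
      rw [← hBy, ← h4, hAx, ← pow_mul, mul_comm]
    have h6 := pow_right_injective₀ (zero_lt_one.trans hx) hx.ne' h5
    omega
  · rw [Valuation.map_add_eq_of_lt_left _ h4]
    exact hBy1.trans h4

/-- functions with an affine pole -/
theorem unit_quot (e : Fin 3 → L) (he : Function.Injective e) (A B C : Polynomial L)
    (x0 y0 : L) (h0 : y0 ^ 2 = (x0 - e 0) * (x0 - e 1) * (x0 - e 2)) (hC0 : C.eval x0 = 0)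
    (hAB : A.eval x0 + B.eval x0 * y0 ≠ 0 ∨ (y0 = 0 ∧ A.eval x0 = 0 ∧ B.eval x0 ≠ 0))
    (S : Set (HeightOneSpectrum (𝓞 L))) (hS : S.Finite) :
    {Q : L × L | Q.2 ^ 2 = (Q.1 - e 0) * (Q.1 - e 1) * (Q.1 - e 2) ∧ C.eval Q.1 ≠ 0 ∧
      ∀ v ∉ S, v.valuation L ((A.eval Q.1 + B.eval Q.1 * Q.2) / C.eval Q.1) ≤ 1}.Finite := by
  classical
  set F1 : L := 3 * x0 ^ 2 - 2 * (e 0 + e 1 + e 2) * x0 + (e 0 * e 1 + e 0 * e 2 + e 1 * e 2)
    with hF1
  obtain ⟨S1, hS1, h1⟩ := good_set (L := L) {e 0, e 1, e 2, x0, y0, A.eval x0 + B.eval x0 * y0,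
    B.eval x0, F1, 3 * x0 - (e 0 + e 1 + e 2)}
  obtain ⟨S2, hS2, h2⟩ := good_poly (L := L) A
  obtain ⟨S3, hS3, h3⟩ := good_poly (L := L) B
  obtain ⟨S4, hS4, h4⟩ := good_poly (L := L) C
  refine (curve_far e he x0 y0 h0 (S ∪ (S1 ∪ (S2 ∪ (S3 ∪ S4)))) (hS.union (hS1.union (hS2.union
    (hS3.union hS4))))).subset ?_
  rintro ⟨x, y⟩ ⟨hQ, hCx, hv⟩
  refine ⟨hQ, fun v hvS => ?_⟩
  simp only at hQ hv hCx ⊢
  have hv0 : v ∉ S := fun h => hvS (Or.inl h)
  have hv1 : v ∉ S1 := fun h => hvS (Or.inr (Or.inl h))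
  have hv2 : v ∉ S2 := fun h => hvS (Or.inr (Or.inr (Or.inl h)))
  have hv3 : v ∉ S3 := fun h => hvS (Or.inr (Or.inr (Or.inr (Or.inl h))))
  have hv4 : v ∉ S4 := fun h => hvS (Or.inr (Or.inr (Or.inr (Or.inr h))))
  have vx0 : v.valuation L x0 ≤ 1 := val_le_one_of (h1 v hv1 _ (by simp))
  have vy0 : v.valuation L y0 ≤ 1 := val_le_one_of (h1 v hv1 _ (by simp))
  have vF2 : v.valuation L (3 * x0 - (e 0 + e 1 + e 2)) ≤ 1 := val_le_one_of (h1 v hv1 _ (by simp))
  rintro ⟨hd, hy⟩
  refine absurd (hv v hv0) (not_le.2 ?_)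
  have vx : v.valuation L x ≤ 1 := by
    have h5 : x = (x - x0) + x0 := by ring
    rw [h5]
    exact (Valuation.map_add _ _ _).trans (max_le hd.le vx0)
  have vy : v.valuation L y ≤ 1 := by
    have h5 : y = (y - y0) + y0 := by ring
    rw [h5]
    exact (Valuation.map_add _ _ _).trans (max_le hy.le vy0)
  have hC1 : v.valuation L (C.eval x) ≤ v.valuation L (x - x0) := by
    have h5 := val_eval_sub C (h4 v hv4).1 vx vx0
    rwa [hC0, sub_zero] at h5
  have hC2 : 0 < v.valuation L (C.eval x) := by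
    rw [zero_lt_iff, Ne, map_eq_zero]
    exact hCx
  have hdiv : ∀ z : L, v.valuation L (C.eval x) < v.valuation L z →
      1 < v.valuation L (z / C.eval x) := by
    intro z hz
    rw [map_div₀]
    exact (one_lt_div₀ hC2).2 hz
  refine hdiv _ ?_
  rcases hAB with hN | ⟨hy0, hA0, hB0⟩
  · have vN : v.valuation L (A.eval x0 + B.eval x0 * y0) = 1 := h1 v hv1 _ (by simp) hN
    have h5 : v.valuation L ((A.eval x + B.eval x * y) - (A.eval x0 + B.eval x0 * y0)) < 1 := by
      have h6 : (A.eval x + B.eval x * y) - (A.eval x0 + B.eval x0 * y0) =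
          (A.eval x - A.eval x0) + (B.eval x - B.eval x0) * y + B.eval x0 * (y - y0) := by ring
      rw [h6]
      refine (Valuation.map_add _ _ _).trans_lt (max_lt ((Valuation.map_add _ _ _).trans_lt
        (max_lt ?_ ?_)) ?_)
      · exact (val_eval_sub A (h2 v hv2).1 vx vx0).trans_lt hd
      · rw [map_mul]
        calc v.valuation L (B.eval x - B.eval x0) * v.valuation L y
            ≤ v.valuation L (B.eval x - B.eval x0) * 1 := mul_le_mul_right vy _
          _ = v.valuation L (B.eval x - B.eval x0) := mul_one _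
          _ < 1 := (val_eval_sub B (h3 v hv3).1 vx vx0).trans_lt hd
      · rw [map_mul]
        calc v.valuation L (B.eval x0) * v.valuation L (y - y0)
            ≤ 1 * v.valuation L (y - y0) :=
              mul_le_mul_left (val_eval_le_one B (h3 v hv3).1 vx0) _
          _ = v.valuation L (y - y0) := one_mul _
          _ < 1 := hy
    have h6 : v.valuation L (A.eval x + B.eval x * y) = 1 := by
      have h7 : A.eval x + B.eval x * y = ((A.eval x + B.eval x * y) -
        (A.eval x0 + B.eval x0 * y0)) + (A.eval x0 + B.eval x0 * y0) := by ring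
      rw [h7, Valuation.map_add_eq_of_lt_right _ (by rw [vN]; exact h5), vN]
    rw [h6]
    exact hC1.trans_lt hd
  · -- a point of order two
    have hF10 : F1 ≠ 0 := by
      have d01 : e 0 - e 1 ≠ 0 := sub_ne_zero.2 (he.ne (by decide))
      have d02 : e 0 - e 2 ≠ 0 := sub_ne_zero.2 (he.ne (by decide))
      have d12 : e 1 - e 2 ≠ 0 := sub_ne_zero.2 (he.ne (by decide))
      have h5 : (x0 - e 0) * (x0 - e 1) * (x0 - e 2) = 0 := by rw [← h0, hy0]; ring
      rcases mul_eq_zero.1 h5 with h5 | h5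
      · rcases mul_eq_zero.1 h5 with h6 | h6
        · have h8 : F1 = (e 0 - e 1) * (e 0 - e 2) := by rw [hF1, sub_eq_zero.1 h6]; ring
          rw [h8]
          exact mul_ne_zero d01 d02
        · have h8 : F1 = -((e 0 - e 1) * (e 1 - e 2)) := by rw [hF1, sub_eq_zero.1 h6]; ring
          rw [h8]
          exact neg_ne_zero.2 (mul_ne_zero d01 d12)
      · have h8 : F1 = (e 0 - e 2) * (e 1 - e 2) := by rw [hF1, sub_eq_zero.1 h5]; ring
        rw [h8]
        exact mul_ne_zero d02 d12
    have vF1 : v.valuation L F1 = 1 := h1 v hv1 _ (by simp) hF10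
    rw [hy0, sub_zero] at hy
    have hx0 : x - x0 ≠ 0 := by
      intro h5
      rw [sub_eq_zero.1 h5] at hCx
      exact hCx hC0
    have hy2 : v.valuation L y ^ 2 = v.valuation L (x - x0) := by
      have h5 : y ^ 2 = (x - x0) * ((x - x0) ^ 2 + (3 * x0 - (e 0 + e 1 + e 2)) * (x - x0) + F1) := by
        rw [hF1]
        rw [hy0] at h0
        linear_combination hQ - h0
      have h6 : v.valuation L ((x - x0) ^ 2 + (3 * x0 - (e 0 + e 1 + e 2)) * (x - x0) + F1) = 1 := by
        rw [Valuation.map_add_eq_of_lt_right _ ?_, vF1]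
        rw [vF1]
        refine (Valuation.map_add _ _ _).trans_lt (max_lt ?_ ?_)
        · rw [map_pow]
          exact pow_lt_one₀ zero_le hd two_ne_zero
        · rw [map_mul]
          calc v.valuation L (3 * x0 - (e 0 + e 1 + e 2)) * v.valuation L (x - x0)
              ≤ 1 * v.valuation L (x - x0) := mul_le_mul_left vF2 _
            _ < 1 := by rw [one_mul]; exact hd
      rw [← map_pow, h5, map_mul, h6, mul_one]
    have hypos : 0 < v.valuation L y := by
      rw [zero_lt_iff, Ne, map_eq_zero]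
      rintro rfl
      rw [map_zero, zero_pow two_ne_zero] at hy2
      exact hx0 ((map_eq_zero _).1 hy2.symm)
    have hdy : v.valuation L (x - x0) < v.valuation L y := by
      rw [← hy2, pow_two]
      calc v.valuation L y * v.valuation L y < 1 * v.valuation L y :=
            mul_lt_mul_of_pos_right hy hypos
        _ = _ := one_mul _
    have hB1 : v.valuation L (B.eval x) = 1 := by
      have vB0 : v.valuation L (B.eval x0) = 1 := h1 v hv1 _ (by simp) hB0
      have h7 : B.eval x = (B.eval x - B.eval x0) + B.eval x0 := by ring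
      rw [h7, Valuation.map_add_eq_of_lt_right _ ?_, vB0]
      rw [vB0]
      exact (val_eval_sub B (h3 v hv3).1 vx vx0).trans_lt hd
    have hA1 : v.valuation L (A.eval x) < v.valuation L (B.eval x * y) := by
      rw [map_mul, hB1, one_mul]
      have h5 := val_eval_sub A (h2 v hv2).1 vx vx0
      rw [hA0, sub_zero] at h5
      exact h5.trans_lt hdy
    rw [Valuation.map_add_eq_of_lt_right _ hA1, map_mul, hB1, one_mul]
    exact hC1.trans_lt hdy

end

end Pool.Agent.H594.ML
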