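import Mathlib
import Pool.Agent.H594.ML.Val

set_option autoImplicit false
set_option linter.unusedSectionVars false

/-!
# Values at the elements of a finitely generated ring which lie in a group of finite rank
-/

namespace Pool.Agent.H594.ML

open Finset IsDedekindDomain NumberField WithZero
open Pool.Agent.Helper259.AbsHt Pool.Agent.Y215.SK Pool.Agent.Y215.AF

theorem bad_finite (L : IntermediateField ℚ Qbar) [NumberField L] (X : Finset Qbar) :
    {v : HeightOneSpectrum (𝓞 L) | ∃ x ∈ X, 1 < V L v x}.Finite := by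
  classical
  have h1 : ∀ x ∈ X, {v : HeightOneSpectrum (𝓞 L) | 1 < V L v x}.Finite := by
    intro x _
    by_cases hx : x ∈ L
    · have h2 := HeightOneSpectrum.Support.finite (𝓞 L) (K := L) (⟨x, hx⟩ : L)
      refine h2.subset ?_
      intro v hv
      have hv' : 1 < V L v x := hv
      rw [V_mem hx] at hv'
      exact hv'
    · have h2 : {v : HeightOneSpectrum (𝓞 L) | 1 < V L v x} = ∅ := by
        ext v
        simp only [Set.mem_ofPred_eq, Set.mem_empty_iff_false, iff_false, not_lt]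
        unfold V
        rw [dif_neg hx]
        exact zero_le_one
      rw [h2]
      exact Set.finite_empty
  have h2 := X.finite_toSet.biUnion h1
  refine h2.subset ?_
  rintro v ⟨x, hx, hv⟩
  exact Set.mem_biUnion hx hv

theorem int_units (Γ : Subgroup Qbarˣ) (hΓ : Γ.FG) (T : Finset Qbar) (p q : Polynomial Qbar)
    (hp : p ≠ 0) (hq : q ≠ 0) (hcop : ∀ x, ¬ (p.IsRoot x ∧ q.IsRoot x)) :
    ∃ Γ' : Subgroup Qbarˣ, Γ'.FG ∧ ∀ s ∈ Subring.closure (T : Set Qbar), ∀ u ∈ DivHull Γ,
      p.eval s = u * q.eval s → ∀ a, (p.IsRoot a ∨ q.IsRoot a) → ∃ w ∈ Γ', s - a = ((w : Qbarˣ) : Qbar) := by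
  classical
  obtain ⟨g, hg⟩ := hΓ
  let R : Finset Qbar := p.roots.toFinset ∪ q.roots.toFinset
  have hRp : ∀ x, p.IsRoot x → x ∈ R := fun x hx =>
    Finset.mem_union_left _ (Multiset.mem_toFinset.2 ((Polynomial.mem_roots hp).2 hx))
  have hRq : ∀ x, q.IsRoot x → x ∈ R := fun x hx =>
    Finset.mem_union_right _ (Multiset.mem_toFinset.2 ((Polynomial.mem_roots hq).2 hx))
  let X : Finset Qbar := T ∪ (R ∪ ({p.leadingCoeff, p.leadingCoeff⁻¹, q.leadingCoeff,
    q.leadingCoeff⁻¹} ∪ (g.image (fun u : Qbarˣ => (u : Qbar)) ∪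
      (g.image (fun u : Qbarˣ => (u : Qbar)⁻¹) ∪
        (R ×ˢ R).image (fun z => (z.1 - z.2)⁻¹)))))
  obtain ⟨L, hL, hXL⟩ := exists_nf (X : Set Qbar) X.finite_toSet
  let S : Set (HeightOneSpectrum (𝓞 L)) := {v | ∃ x ∈ X, 1 < V L v x}
  have hSfin : S.Finite := bad_finite L X
  have hV : ∀ v ∉ S, ∀ x ∈ X, V L v x ≤ 1 := by
    intro v hv x hx
    by_contra h
    exact hv ⟨x, hx, not_le.1 h⟩
  have hT : ∀ x ∈ T, x ∈ X := fun x hx => Finset.mem_union_left _ hx
  have hR : ∀ x ∈ R, x ∈ X := fun x hx =>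
    Finset.mem_union_right _ (Finset.mem_union_left _ hx)
  have hlp : p.leadingCoeff ∈ X := by simp [X]
  have hlp' : p.leadingCoeff⁻¹ ∈ X := by simp [X]
  have hlq : q.leadingCoeff ∈ X := by simp [X]
  have hlq' : q.leadingCoeff⁻¹ ∈ X := by simp [X]
  have hg1 : ∀ u ∈ g, (u : Qbar) ∈ X := fun u hu =>
    Finset.mem_union_right _ (Finset.mem_union_right _ (Finset.mem_union_right _
      (Finset.mem_union_left _ (Finset.mem_image_of_mem _ hu))))
  have hg2 : ∀ u ∈ g, (u : Qbar)⁻¹ ∈ X := fun u hu =>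
    Finset.mem_union_right _ (Finset.mem_union_right _ (Finset.mem_union_right _
      (Finset.mem_union_right _ (Finset.mem_union_left _
        (Finset.mem_image_of_mem (fun u : Qbarˣ => (u : Qbar)⁻¹) hu)))))
  have hdiff : ∀ a ∈ R, ∀ b ∈ R, (a - b)⁻¹ ∈ X := fun a ha b hb =>
    Finset.mem_union_right _ (Finset.mem_union_right _ (Finset.mem_union_right _
      (Finset.mem_union_right _ (Finset.mem_union_right _
        (Finset.mem_image_of_mem (fun z : Qbar × Qbar => (z.1 - z.2)⁻¹)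
          (Finset.mk_mem_product ha hb))))))
  have hXL' : ∀ x ∈ X, x ∈ L := fun x hx => hXL x hx
  refine ⟨SU (algebraMap L Qbar) S, SU_fg _ S hSfin, fun s hs u hu he a ha => ?_⟩
  -- `s` is integral
  let O : Subring Qbar :=
    { carrier := {x | x ∈ L ∧ ∀ v ∉ S, V L v x ≤ 1}
      mul_mem' := by
        rintro x y ⟨hx, hx1⟩ ⟨hy, hy1⟩
        refine ⟨L.mul_mem hx hy, fun v hv => ?_⟩
        rw [V_mul hx hy]
        exact mul_le_one' (hx1 v hv) (hy1 v hv)
      one_mem' := ⟨L.one_mem, fun v _ => V_one.le⟩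
      add_mem' := by
        rintro x y ⟨hx, hx1⟩ ⟨hy, hy1⟩
        exact ⟨L.add_mem hx hy, fun v hv => (V_add hx hy).trans (max_le (hx1 v hv) (hy1 v hv))⟩
      zero_mem' := ⟨L.zero_mem, fun v _ => by rw [V_zero]; exact zero_le_one⟩
      neg_mem' := by
        rintro x ⟨hx, hx1⟩
        exact ⟨L.neg_mem hx, fun v hv => by rw [V_neg hx]; exact hx1 v hv⟩ }
  have hsO : s ∈ O := by
    have h1 : Subring.closure (T : Set Qbar) ≤ O :=
      Subring.closure_le.2 fun x hx => ⟨hXL' x (hT x hx), fun v hv => hV v hv x (hT x hx)⟩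
    exact h1 hs
  obtain ⟨hsL, hs1⟩ := hsO
  -- the elements of `Γ` are units
  let U : Subgroup Qbarˣ :=
    { carrier := {u | (u : Qbar) ∈ L ∧ ∀ v ∉ S, V L v (u : Qbar) = 1}
      mul_mem' := by
        rintro x y ⟨hx, hx1⟩ ⟨hy, hy1⟩
        refine ⟨?_, fun v hv => ?_⟩
        · rw [Units.val_mul]
          exact L.mul_mem hx hy
        · rw [Units.val_mul, V_mul hx hy, hx1 v hv, hy1 v hv, one_mul]
      one_mem' := ⟨by rw [Units.val_one]; exact L.one_mem, fun v _ => by
        rw [Units.val_one]; exact V_one⟩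
      inv_mem' := by
        rintro x ⟨hx, hx1⟩
        refine ⟨?_, fun v hv => ?_⟩
        · rw [Units.val_inv_eq_inv_val]
          exact L.inv_mem hx
        · rw [Units.val_inv_eq_inv_val]
          have h1 := V_mul (v := v) hx (L.inv_mem hx)
          rw [mul_inv_cancel₀ x.ne_zero, V_one, hx1 v hv, one_mul] at h1
          exact h1.symm }
  have hΓU : Γ ≤ U := by
    rw [← hg, Subgroup.closure_le]
    intro x hx
    exact ⟨hXL' _ (hg1 x hx), fun v hv => V_unit (hXL' _ (hg1 x hx)) x.ne_zero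
      (hV v hv _ (hg1 x hx)) (hV v hv _ (hg2 x hx))⟩
  -- values of the polynomials
  have hpL : p.eval s ∈ L := by
    rw [(IsAlgClosed.splits p).eval_eq_prod_roots s]
    refine L.mul_mem (hXL' _ hlp) (multiset_prod_mem _ fun x hx => ?_)
    obtain ⟨y, hy, rfl⟩ := Multiset.mem_map.1 hx
    exact L.sub_mem hsL (hXL' _ (hR _ (hRp y (Polynomial.isRoot_of_mem_roots hy))))
  have hqL : q.eval s ∈ L := by
    rw [(IsAlgClosed.splits q).eval_eq_prod_roots s]
    refine L.mul_mem (hXL' _ hlq) (multiset_prod_mem _ fun x hx => ?_)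
    obtain ⟨y, hy, rfl⟩ := Multiset.mem_map.1 hx
    exact L.sub_mem hsL (hXL' _ (hR _ (hRq y (Polynomial.isRoot_of_mem_roots hy))))
  have hq0 : q.eval s ≠ 0 := by
    intro h0
    rw [h0, mul_zero] at he
    exact hcop s ⟨he, h0⟩
  have huL : (u : Qbar) ∈ L := by
    have h1 : (u : Qbar) = p.eval s * (q.eval s)⁻¹ := by
      rw [he]
      field_simp
    rw [h1]
    exact L.mul_mem hpL (L.inv_mem hqL)
  obtain ⟨m, hm, hum⟩ := hu
  have hu1 : ∀ v ∉ S, V L v (u : Qbar) = 1 := by
    intro v hv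
    have h1 := (hΓU hum).2 v hv
    rw [Units.val_pow_eq_pow_val, V_pow huL] at h1
    exact (pow_eq_one_iff.1 h1).resolve_right hm.ne'
  have hroot : ∀ v ∉ S, V L v (s - a) = 1 := by
    intro v hv
    have haR : a ∈ R := ha.elim (hRp a) (hRq a)
    have haL := hXL' a (hR a haR)
    have hle : ∀ b ∈ R, V L v (s - b) ≤ 1 := fun b hb =>
      (V_sub hsL (hXL' b (hR b hb))).trans (max_le (hs1 v hv) (hV v hv b (hR b hb)))
    refine le_antisymm (hle a haR) (not_lt.1 fun hlt => ?_)
    have hother : ∀ b ∈ R, b ≠ a → V L v (s - b) = 1 := by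
      intro b hb hba
      have hbL := hXL' b (hR b hb)
      refine V_near hsL haL hbL hlt (V_unit (L.sub_mem haL hbL) (sub_ne_zero.2 hba.symm) ?_
        (hV v hv _ (hdiff a haR b hb)))
      exact (V_sub haL hbL).trans (max_le (hV v hv a (hR a haR)) (hV v hv b (hR b hb)))
    have hlp1 : V L v p.leadingCoeff = 1 := V_unit (hXL' _ hlp)
      (Polynomial.leadingCoeff_ne_zero.2 hp) (hV v hv _ hlp) (hV v hv _ hlp')
    have hlq1 : V L v q.leadingCoeff = 1 := V_unit (hXL' _ hlq)
      (Polynomial.leadingCoeff_ne_zero.2 hq) (hV v hv _ hlq) (hV v hv _ hlq')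
    have hpv := V_eval (v := v) p (fun x hx => hXL' _ (hR _ (hRp x
      (Polynomial.isRoot_of_mem_roots hx)))) hsL (hXL' _ hlp) hlp1
    have hqv := V_eval (v := v) q (fun x hx => hXL' _ (hR _ (hRq x
      (Polynomial.isRoot_of_mem_roots hx)))) hsL (hXL' _ hlq) hlq1
    have heq : V L v (p.eval s) = V L v (q.eval s) := by
      rw [he, V_mul huL hqL, hu1 v hv, one_mul]
    have hcase : ∀ p q : Polynomial Qbar, p ≠ 0 → (∀ x, p.IsRoot x → x ∈ R) →
        (∀ x, q.IsRoot x → x ∈ R) → (∀ x, ¬ (p.IsRoot x ∧ q.IsRoot x)) → p.IsRoot a →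
        (p.roots.map (fun x => V L v (s - x))).prod ≠ (q.roots.map (fun x => V L v (s - x))).prod := by
      intro p q hp hRp hRq hcop ha
      have h1 : (q.roots.map (fun x => V L v (s - x))).prod = 1 := by
        refine prod_eq_one' _ _ fun x hx => ?_
        have hx' := Polynomial.isRoot_of_mem_roots hx
        refine hother x (hRq x hx') ?_
        rintro rfl
        exact hcop x ⟨ha, hx'⟩
      have h2 : (p.roots.map (fun x => V L v (s - x))).prod < 1 :=
        prod_lt_one' _ _ (fun x hx => hle x (hRp x (Polynomial.isRoot_of_mem_roots hx))) a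
          ((Polynomial.mem_roots hp).2 ha) hlt
      rw [h1]
      exact h2.ne
    rcases ha with ha | ha
    · exact hcase p q hp hRp hRq hcop ha (by rw [← hpv, ← hqv, heq])
    · exact hcase q p hq hRq hRp (fun x h => hcop x h.symm) ha (by rw [← hpv, ← hqv, heq])
  have haR : a ∈ R := ha.elim (hRp a) (hRq a)
  have hsa : s - a ∈ L := L.sub_mem hsL (hXL' a (hR a haR))
  have hsa0 : s - a ≠ 0 := by
    intro h0
    have h1 : p.IsRoot s ∨ q.IsRoot s := by
      rw [sub_eq_zero] at h0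
      rw [h0]
      exact ha
    rcases h1 with h1 | h1
    · have h2 : p.eval s = 0 := h1
      rw [h2] at he
      exact (mul_ne_zero u.ne_zero hq0) he.symm
    · exact hq0 h1
  let w0 : Lˣ := Units.mk0 ⟨s - a, hsa⟩ (fun h => hsa0 (congrArg Subtype.val h))
  refine ⟨Units.map ((algebraMap L Qbar : L →+* Qbar) : L →* Qbar) w0,
    Subgroup.mem_map_of_mem _ ?_, rfl⟩
  intro v hv
  have h1 := hroot v hv
  rw [V_mem hsa] at h1
  exact h1

end Pool.Agent.H594.ML
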