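import Mathlib
import Pool.Agent.H594.ML.Ell2
import Pool.Agent.H594.ML.Int

set_option autoImplicit false
set_option linter.unusedSectionVars false

/-!
# Values of rational functions at the points of elliptic curves: algebraic numbers
-/

namespace Pool.Agent.H594.ML

open Finset IsDedekindDomain NumberField WithZero
open Pool.Agent.Helper259.AbsHt Pool.Agent.Y215.SK Pool.Agent.Y215.AF

/-- the elements of a group of finite rank are units -/
theorem hull_unit (L : IntermediateField ℚ Qbar) [NumberField L] (g : Finset Qbarˣ)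
    (hg : ∀ u ∈ g, ((u : Qbarˣ) : Qbar) ∈ L) :
    ∃ S : Set (HeightOneSpectrum (𝓞 L)), S.Finite ∧ ∀ v ∉ S, ∀ z : L,
      (∃ u ∈ DivHull (Subgroup.closure (g : Set Qbarˣ)), (z : Qbar) = ((u : Qbarˣ) : Qbar)) →
      v.valuation L z = 1 := by
  classical
  have hgood := good_set (L := L) (g.attach.image fun u => ⟨((u.1 : Qbarˣ) : Qbar), hg u.1 u.2⟩)
  obtain ⟨S, hS, h⟩ := hgood
  refine ⟨S, hS, ?_⟩
  rintro v hv z ⟨u, ⟨m, hm, hum⟩, hz⟩
  let U : Subgroup Qbarˣ :=
    { carrier := {u | ∃ w : L, (w : Qbar) = ((u : Qbarˣ) : Qbar) ∧ v.valuation L w = 1}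
      mul_mem' := by
        rintro x y ⟨a, ha, ha1⟩ ⟨b, hb, hb1⟩
        exact ⟨a * b, by rw [Units.val_mul, ← ha, ← hb]; rfl, by rw [map_mul, ha1, hb1, one_mul]⟩
      one_mem' := ⟨1, by simp, map_one _⟩
      inv_mem' := by
        rintro x ⟨a, ha, ha1⟩
        refine ⟨a⁻¹, ?_, by rw [map_inv₀, ha1, inv_one]⟩
        rw [Units.val_inv_eq_inv_val, ← ha]
        rfl }
  have h1 : Subgroup.closure (g : Set Qbarˣ) ≤ U := by
    rw [Subgroup.closure_le]
    intro x hx
    refine ⟨⟨_, hg x hx⟩, rfl, h v hv _ (Finset.mem_image_of_mem _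
      (Finset.mem_attach g ⟨x, hx⟩)) ?_⟩
    intro h0
    exact x.ne_zero (congrArg (fun z : L => (z : Qbar)) h0)
  obtain ⟨w, hw, hw1⟩ := h1 hum
  have h2 : w = z ^ m := by
    apply Subtype.ext
    rw [hw, Units.val_pow_eq_pow_val, ← hz]
    rfl
  rw [h2, map_pow] at hw1
  exact (pow_eq_one_iff.1 hw1).resolve_right hm.ne'

theorem lift_poly (L : IntermediateField ℚ Qbar) (P : Polynomial Qbar) (h : ∀ i, P.coeff i ∈ L) :
    ∃ P' : Polynomial L, P'.map (algebraMap L Qbar) = P := by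
  have h1 : P ∈ Polynomial.lifts (algebraMap L Qbar) := by
    rw [Polynomial.lifts_iff_coeff_lifts]
    intro i
    exact ⟨⟨_, h i⟩, rfl⟩
  exact (Polynomial.mem_lifts P).1 h1

/-- a number field which contains finitely many numbers, the coefficients of finitely many
polynomials and a number field -/
theorem exists_field (K : IntermediateField ℚ Qbar) [FiniteDimensional ℚ K] (X : Finset Qbar)
    (P : Finset (Polynomial Qbar)) : ∃ (L : IntermediateField ℚ Qbar) (_ : NumberField L),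
      K ≤ L ∧ (∀ x ∈ X, x ∈ L) ∧ ∀ p ∈ P, ∀ i, p.coeff i ∈ L := by
  classical
  let b := Module.finBasis ℚ K
  obtain ⟨L, hL, h⟩ := exists_nf ((X : Set Qbar) ∪ (Set.range (fun i => ((b i : K) : Qbar)) ∪
    ⋃ p ∈ P, (p.coeff '' (Finset.range (p.natDegree + 1) : Set ℕ))))
    (X.finite_toSet.union ((Set.finite_range _).union (P.finite_toSet.biUnion fun p _ =>
      (Finset.finite_toSet _).image _)))
  refine ⟨L, hL, fun x hx => ?_, fun x hx => h x (Or.inl hx), fun p hp i => ?_⟩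
  · have h1 := b.sum_repr ⟨x, hx⟩
    have h2 : ∑ i, (b.repr ⟨x, hx⟩ i) • ((b i : K) : Qbar) = x := by
      have h3 := congrArg (fun z : K => (z : Qbar)) h1
      simp only at h3
      refine Eq.trans ?_ h3
      push_cast
      rfl
    rw [← h2]
    exact sum_mem fun i _ => L.smul_mem (h _ (Or.inr (Or.inl ⟨i, rfl⟩)))
  · by_cases hi : i ≤ p.natDegree
    · refine h _ (Or.inr (Or.inr (Set.mem_biUnion hp ⟨i, ?_, rfl⟩)))
      rw [Finset.mem_coe, Finset.mem_range]
      omega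
    · rw [Polynomial.coeff_eq_zero_of_natDegree_lt (not_le.1 hi)]
      exact L.zero_mem

theorem eval_lift (L : IntermediateField ℚ Qbar) (P' : Polynomial L) (x : L) :
    (P'.map (algebraMap L Qbar)).eval (x : Qbar) = ((P'.eval x : L) : Qbar) := by
  rw [Polynomial.eval_map, ← Polynomial.eval₂_id]
  have := Polynomial.hom_eval₂ P' (RingHom.id L) (algebraMap L Qbar) x
  simp only [RingHom.comp_id] at this
  exact this.symm

/-- **Values of a rational function at the points of an elliptic curve over a number field.** -/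
theorem ell_Qbar (Γ : Subgroup Qbarˣ) (hΓ : Γ.FG) (K : IntermediateField ℚ Qbar)
    [FiniteDimensional ℚ K] (e : Fin 3 → Qbar) (he : Function.Injective e)
    (A B C : Polynomial Qbar) (hC : C ≠ 0)
    (hnc : ∀ c : Qbar, ¬ (A = Polynomial.C c * C ∧ B = 0)) :
    {Q : Qbar × Qbar | Q.1 ∈ K ∧ Q.2 ∈ K ∧ Q.2 ^ 2 = (Q.1 - e 0) * (Q.1 - e 1) * (Q.1 - e 2) ∧
      C.eval Q.1 ≠ 0 ∧ ∃ u ∈ DivHull Γ,
        (A.eval Q.1 + B.eval Q.1 * Q.2) / C.eval Q.1 = ((u : Qbarˣ) : Qbar)}.Finite := by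
  classical
  obtain ⟨gΓ, hgΓ⟩ := hΓ
  -- lowest terms
  obtain ⟨g, A', B', C', hg, hA, hB, hC', hcop⟩ : ∃ g A' B' C' : Polynomial Qbar, g ≠ 0 ∧
      A = g * A' ∧ B = g * B' ∧ C = g * C' ∧ ∀ z, ¬ (A'.eval z = 0 ∧ B'.eval z = 0 ∧
        C'.eval z = 0) := by
    set g := EuclideanDomain.gcd A (EuclideanDomain.gcd B C) with hgdef
    have h1 : g ∣ A := EuclideanDomain.gcd_dvd_left _ _
    have h2 : g ∣ B := (EuclideanDomain.gcd_dvd_right A _).trans (EuclideanDomain.gcd_dvd_left _ _)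
    have h3 : g ∣ C := (EuclideanDomain.gcd_dvd_right A _).trans (EuclideanDomain.gcd_dvd_right _ _)
    have hg0 : g ≠ 0 := by
      intro h0
      rw [h0] at h3
      exact hC (zero_dvd_iff.1 h3)
    obtain ⟨A', hA⟩ := h1
    obtain ⟨B', hB⟩ := h2
    obtain ⟨C', hC'⟩ := h3
    refine ⟨g, A', B', C', hg0, hA, hB, hC', ?_⟩
    rintro z ⟨hz1, hz2, hz3⟩
    have h4 : g * (Polynomial.X - Polynomial.C z) ∣ g := by
      have hr : ∀ P : Polynomial Qbar, P.eval z = 0 → Polynomial.X - Polynomial.C z ∣ P :=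
        fun P hP => Polynomial.dvd_iff_isRoot.2 hP
      have a1 : g * (Polynomial.X - Polynomial.C z) ∣ A := by
        rw [hA]
        exact mul_dvd_mul_left g (hr _ hz1)
      have a2 : g * (Polynomial.X - Polynomial.C z) ∣ B := by
        rw [hB]
        exact mul_dvd_mul_left g (hr _ hz2)
      have a3 : g * (Polynomial.X - Polynomial.C z) ∣ C := by
        rw [hC']
        exact mul_dvd_mul_left g (hr _ hz3)
      exact EuclideanDomain.dvd_gcd a1 (EuclideanDomain.dvd_gcd a2 a3)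
    have h5 : (Polynomial.X - Polynomial.C z) ∣ 1 := by
      have h6 : g * (Polynomial.X - Polynomial.C z) ∣ g * 1 := by rwa [mul_one]
      exact (mul_dvd_mul_iff_left hg0).1 h6
    exact Polynomial.not_isUnit_X_sub_C z (isUnit_of_dvd_one h5)
  have hC0 : C' ≠ 0 := by
    rintro rfl
    rw [mul_zero] at hC'
    exact hC hC'
  have hval : ∀ x y : Qbar, C.eval x ≠ 0 → C'.eval x ≠ 0 ∧
      (A.eval x + B.eval x * y) / C.eval x = (A'.eval x + B'.eval x * y) / C'.eval x := by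
    intro x y h
    rw [hC', Polynomial.eval_mul] at h
    have h1 := left_ne_zero_of_mul h
    have h2 := right_ne_zero_of_mul h
    refine ⟨h2, ?_⟩
    rw [hA, hB, hC', Polynomial.eval_mul, Polynomial.eval_mul, Polynomial.eval_mul]
    field_simp
  by_cases hdeg : C'.natDegree = 0
  · -- a polynomial
    obtain ⟨c, hc⟩ : ∃ c, C' = Polynomial.C c := ⟨_, Polynomial.eq_C_of_natDegree_eq_zero hdeg⟩
    have hc0 : c ≠ 0 := by
      rintro rfl
      rw [Polynomial.C_0] at hc
      exact hC0 hc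
    set A2 := Polynomial.C c⁻¹ * A' with hA2
    set B2 := Polynomial.C c⁻¹ * B' with hB2
    have hcc : Polynomial.C c * Polynomial.C c⁻¹ = (1 : Polynomial Qbar) := by
      rw [← Polynomial.C_mul, mul_inv_cancel₀ hc0, Polynomial.C_1]
    have hnc2 : ¬ (A2.natDegree = 0 ∧ B2 = 0) := by
      rintro ⟨h1, h2⟩
      have h3 : B' = 0 := by
        have : B' = Polynomial.C c * B2 := by rw [hB2, ← mul_assoc, hcc, one_mul]
        rw [this, h2, mul_zero]
      obtain ⟨d, hd⟩ : ∃ d, A2 = Polynomial.C d := ⟨_, Polynomial.eq_C_of_natDegree_eq_zero h1⟩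
      have h4 : A' = Polynomial.C c * A2 := by rw [hA2, ← mul_assoc, hcc, one_mul]
      refine hnc d ⟨?_, ?_⟩
      · rw [hA, hC', hc, h4, hd]
        ring
      · rw [hB, h3, mul_zero]
    obtain ⟨L, hL, hKL, hXL, hPL⟩ := exists_field K (Finset.univ.image e ∪
      gΓ.image (fun u : Qbarˣ => (u : Qbar))) {A2, B2}
    obtain ⟨A3, hA3⟩ := lift_poly L A2 (hPL A2 (by simp))
    obtain ⟨B3, hB3⟩ := lift_poly L B2 (hPL B2 (by simp))
    have heL : ∀ i, e i ∈ L := fun i => hXL _ (by simp)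
    obtain ⟨S, hS, hSu⟩ := hull_unit L gΓ (fun u hu => hXL _ (by
      refine Finset.mem_union_right _ (Finset.mem_image_of_mem _ hu)))
    let e' : Fin 3 → L := fun i => ⟨e i, heL i⟩
    have he' : Function.Injective e' := fun i j h =>
      he (congrArg (fun z : L => (z : Qbar)) h)
    have hnc3 : ¬ (A3.natDegree = 0 ∧ B3 = 0) := by
      rintro ⟨h1, h2⟩
      refine hnc2 ⟨?_, ?_⟩
      · rw [← hA3, Polynomial.natDegree_map, h1]
      · rw [← hB3, h2, Polynomial.map_zero]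
    have hfin := unit_poly e' he' A3 B3 hnc3 S hS
    refine (hfin.image (fun Q : L × L => ((Q.1 : Qbar), (Q.2 : Qbar)))).subset ?_
    rintro ⟨x, y⟩ ⟨hx, hy, hQ, hCx, u, hu, hval'⟩
    simp only at hx hy hQ hCx hval'
    refine ⟨(⟨x, hKL hx⟩, ⟨y, hKL hy⟩), ⟨Subtype.ext hQ, fun v hv => le_of_eq (hSu v hv _ ⟨u, ?_, ?_⟩)⟩,
      rfl⟩
    · rw [hgΓ]
      exact hu
    · rw [← hval', (hval x y hCx).2, hc, Polynomial.eval_C]
      have h1 : A2.eval x = ((A3.eval (⟨x, hKL hx⟩ : L) : L) : Qbar) := by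
        rw [← hA3]
        exact eval_lift L A3 ⟨x, hKL hx⟩
      have h2 : B2.eval x = ((B3.eval (⟨x, hKL hx⟩ : L) : L) : Qbar) := by
        rw [← hB3]
        exact eval_lift L B3 ⟨x, hKL hx⟩
      show ((A3.eval (⟨x, hKL hx⟩ : L) : L) : Qbar) + ((B3.eval (⟨x, hKL hx⟩ : L) : L) : Qbar) * y = _
      rw [← h1, ← h2, hA2, hB2, Polynomial.eval_mul, Polynomial.eval_mul, Polynomial.eval_C]
      field_simp
  · -- an affine pole
    obtain ⟨x0, hx0⟩ : ∃ x0, C'.eval x0 = 0 := by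
      obtain ⟨z, hz⟩ := IsAlgClosed.exists_root C' (by
        rw [Polynomial.degree_eq_natDegree hC0]
        exact_mod_cast hdeg)
      exact ⟨z, hz⟩
    obtain ⟨y0, hy0, hAB⟩ : ∃ y0 : Qbar, y0 ^ 2 = (x0 - e 0) * (x0 - e 1) * (x0 - e 2) ∧
        (A'.eval x0 + B'.eval x0 * y0 ≠ 0 ∨ (y0 = 0 ∧ A'.eval x0 = 0 ∧ B'.eval x0 ≠ 0)) := by
      obtain ⟨y1, hy1⟩ := IsAlgClosed.exists_pow_nat_eq
        ((x0 - e 0) * (x0 - e 1) * (x0 - e 2)) two_pos
      by_cases h1 : A'.eval x0 + B'.eval x0 * y1 = 0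
      · by_cases h2 : A'.eval x0 + B'.eval x0 * (-y1) = 0
        · have h3 : A'.eval x0 = 0 := by
            have : 2 * A'.eval x0 = 0 := by linear_combination h1 + h2
            exact (mul_eq_zero.1 this).resolve_left two_ne_zero
          have h4 : B'.eval x0 ≠ 0 := fun h => hcop x0 ⟨h3, h, hx0⟩
          have h5 : y1 = 0 := by
            rw [h3, zero_add] at h1
            exact (mul_eq_zero.1 h1).resolve_left h4
          exact ⟨y1, hy1, Or.inr ⟨h5, h3, h4⟩⟩
        · exact ⟨-y1, by rw [neg_sq, hy1], Or.inl h2⟩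
      · exact ⟨y1, hy1, Or.inl h1⟩
    obtain ⟨L, hL, hKL, hXL, hPL⟩ := exists_field K ({x0, y0} ∪ (Finset.univ.image e ∪
      gΓ.image (fun u : Qbarˣ => (u : Qbar)))) {A', B', C'}
    obtain ⟨A3, hA3⟩ := lift_poly L A' (hPL A' (by simp))
    obtain ⟨B3, hB3⟩ := lift_poly L B' (hPL B' (by simp))
    obtain ⟨C3, hC3⟩ := lift_poly L C' (hPL C' (by simp))
    have heL : ∀ i, e i ∈ L := fun i => hXL _ (by simp)
    have hx0L : x0 ∈ L := hXL _ (by simp)
    have hy0L : y0 ∈ L := hXL _ (by simp)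
    obtain ⟨S, hS, hSu⟩ := hull_unit L gΓ (fun u hu => hXL _ (by
      refine Finset.mem_union_right _ (Finset.mem_union_right _ (Finset.mem_image_of_mem _ hu))))
    let e' : Fin 3 → L := fun i => ⟨e i, heL i⟩
    have he' : Function.Injective e' := fun i j h =>
      he (congrArg (fun z : L => (z : Qbar)) h)
    have hev : ∀ (P : Polynomial Qbar) (P3 : Polynomial L), P3.map (algebraMap L Qbar) = P →
        ∀ x : L, P.eval (x : Qbar) = ((P3.eval x : L) : Qbar) := by
      intro P P3 h x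
      rw [← h]
      exact eval_lift L P3 x
    have hzero : ∀ z : L, (z : Qbar) = 0 → z = 0 := fun z h => Subtype.ext h
    have hfin := unit_quot e' he' A3 B3 C3 ⟨x0, hx0L⟩ ⟨y0, hy0L⟩ (Subtype.ext hy0)
      (hzero _ (by rw [← hev C' C3 hC3]; exact hx0)) (by
        rcases hAB with h | ⟨h1, h2, h3⟩
        · left
          intro h4
          apply h
          have h5 := congrArg (fun z : L => (z : Qbar)) h4
          have h6 := hev A' A3 hA3 ⟨x0, hx0L⟩
          have h7 := hev B' B3 hB3 ⟨x0, hx0L⟩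
          simp only at h6 h7
          rw [h6, h7]
          exact h5
        · right
          refine ⟨hzero _ h1, hzero _ (by rw [← hev A' A3 hA3]; exact h2), fun h4 => h3 ?_⟩
          have h7 := hev B' B3 hB3 ⟨x0, hx0L⟩
          simp only at h7
          rw [h7, h4]
          rfl) S hS
    refine (hfin.image (fun Q : L × L => ((Q.1 : Qbar), (Q.2 : Qbar)))).subset ?_
    rintro ⟨x, y⟩ ⟨hx, hy, hQ, hCx, u, hu, hval'⟩
    simp only at hx hy hQ hCx hval'
    have h1 := hev A' A3 hA3 ⟨x, hKL hx⟩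
    have h2 := hev B' B3 hB3 ⟨x, hKL hx⟩
    have h3 := hev C' C3 hC3 ⟨x, hKL hx⟩
    simp only at h1 h2 h3
    refine ⟨(⟨x, hKL hx⟩, ⟨y, hKL hy⟩), ⟨Subtype.ext hQ, ?_, fun v hv =>
      le_of_eq (hSu v hv _ ⟨u, ?_, ?_⟩)⟩, rfl⟩
    · intro h4
      refine (hval x y hCx).1 ?_
      rw [h3]
      simp only at h4
      rw [h4]
      rfl
    · rw [hgΓ]
      exact hu
    · rw [← hval', (hval x y hCx).2, h1, h2, h3]
      rfl

end Pool.Agent.H594.ML
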