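import Mathlib
import Pool.Agent.H594.ML.Rat
import Pool.Graph.R_pool_sql_team_seeded_5cf16337.K3h86.PT.Main

set_option autoImplicit false
set_option linter.unusedSectionVars false

/-!
# Bases with an exceptional power, all exponents of bounded degree at once
-/

namespace Pool.Agent.H594.ML

open Finset
open Pool.Agent.Helper259.AbsHt Pool.Agent.Y215.SK
open Pool.Agent.K3h86.PT (IsQuotM logs_multi)
open Pool.Agent.H301R2.SSE (Lt)

theorem IsQuotM.mono {r s D D' : ℕ} (h : D ≤ D') {t : Fin r → ℂ} {x v : ℂ} {y : Fin s → ℂ}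
    (hx : IsQuotM D t x v y) : IsQuotM D' t x v y := by
  obtain ⟨P, Q, T, S, h1, h2, h3, h4, h5⟩ := hx
  exact ⟨P, Q, T, S, fun i => (h1 i).trans h, fun i => (h2 i).trans h, fun i => (h3 i).trans h,
    fun j i => (h4 j i).trans h, h5⟩

theorem hull_multi {r s : ℕ} (t : Fin r → ℂ) (w : Fin s → ℂ) (D : ℕ) :
    ∃ Γ : Subgroup Qbarˣ, Γ.FG ∧ ∀ l : ℂ, IsAlgebraic ℚ (Complex.exp l) →
      (∃ x v y, IsQuotM D t x v y ∧ Transcendental ℚ x ∧ x * l + v + ∑ j, y j * w j ∈ Lt) →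
      ∃ u ∈ DivHull Γ, Complex.exp l = sg u := by
  obtain ⟨Γ, hΓ, h⟩ := exists_hull
    {l : ℂ | IsAlgebraic ℚ (Complex.exp l) ∧ ∃ x v y, IsQuotM D t x v y ∧ Transcendental ℚ x ∧
      x * l + v + ∑ j, y j * w j ∈ Lt} (fun l hl => hl.1)
    (2 ^ (r + 1) * ((2 * (D + 1)) ^ r + s - 1)) (by
      intro m l hl hli
      refine logs_multi t w (Nat.le_add_left 1 D) l (fun i => (hl i).1) hli fun i => ?_
      obtain ⟨x, v, y, h1, h2⟩ := (hl i).2
      exact ⟨x, v, y, IsQuotM.mono (Nat.le_succ D) h1, h2⟩)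
  exact ⟨Γ, hΓ, fun l h1 h2 => h l ⟨h1, h2⟩⟩

/-- the division hull as a group -/
def divGroup (Γ : Subgroup Qbarˣ) : Subgroup Qbarˣ where
  carrier := DivHull Γ
  mul_mem' := by
    rintro x y ⟨k, hk, hx⟩ ⟨l, hl, hy⟩
    refine ⟨k * l, Nat.mul_pos hk hl, ?_⟩
    have h1 : (x * y) ^ (k * l) = (x ^ k) ^ l * (y ^ l) ^ k := by
      rw [mul_pow, pow_mul, mul_comm k l, pow_mul y]
    rw [h1]
    exact Γ.mul_mem (Γ.pow_mem hx _) (Γ.pow_mem hy _)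
  one_mem' := ⟨1, one_pos, by rw [one_pow]; exact Γ.one_mem⟩
  inv_mem' := by
    rintro x ⟨k, hk, hx⟩
    exact ⟨k, hk, by rw [inv_pow]; exact Γ.inv_mem hx⟩

/-- the numbers with a positive power in the group generated by `A` -/
def MulHull (A : Set ℂ) : Set ℂ :=
  {a | ∃ u : ℂˣ, (u : ℂ) = a ∧ ∃ k : ℕ, 0 < k ∧ u ^ k ∈ Subgroup.closure {v : ℂˣ | (v : ℂ) ∈ A}}

theorem mulHull_hull {A : Set ℂ} {Γ : Subgroup Qbarˣ}
    (h : ∀ a ∈ A, ∃ u ∈ DivHull Γ, a = sg u) {a : ℂ} (ha : a ∈ MulHull A) :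
    ∃ u ∈ DivHull Γ, a = sg u := by
  obtain ⟨u, rfl, k, hk, hu⟩ := ha
  have h1 : ∀ w ∈ Subgroup.closure {v : ℂˣ | (v : ℂ) ∈ A}, ∃ g ∈ DivHull Γ, (w : ℂ) = sg g := by
    intro w hw
    induction hw using Subgroup.closure_induction with
    | mem x hx => exact h _ hx
    | one => exact ⟨1, (divGroup Γ).one_mem, by simp⟩
    | mul x y _ _ hx hy =>
      obtain ⟨g, hg, e1⟩ := hx
      obtain ⟨g', hg', e2⟩ := hy
      exact ⟨g * g', (divGroup Γ).mul_mem hg hg', by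
        rw [Units.val_mul, Units.val_mul, map_mul, e1, e2]⟩
    | inv x _ hx =>
      obtain ⟨g, hg, e1⟩ := hx
      exact ⟨g⁻¹, (divGroup Γ).inv_mem hg, by
        rw [Units.val_inv_eq_inv_val, Units.val_inv_eq_inv_val, map_inv₀, e1]⟩
  obtain ⟨g, ⟨l, hl, hg⟩, e1⟩ := h1 _ hu
  rw [Units.val_pow_eq_pow_val] at e1
  have halg : IsAlgebraic ℚ (u : ℂ) := by
    have h2 : IsAlgebraic ℚ ((u : ℂ) ^ k) := by
      rw [e1]
      exact sg_alg _
    exact IsAlgebraic.of_pow hk h2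
  obtain ⟨v, hv⟩ := exists_unit halg u.ne_zero
  refine ⟨v, ⟨k * l, Nat.mul_pos hk hl, ?_⟩, hv⟩
  have h3 : v ^ k = g := by
    apply sgu_inj
    rw [Units.val_pow_eq_pow_val, map_pow, ← hv, e1]
  rw [pow_mul, h3]
  exact hg

theorem subset_mulHull {A : Set ℂ} {a : ℂ} (ha : a ∈ A) (h0 : a ≠ 0) : a ∈ MulHull A := by
  refine ⟨Units.mk0 a h0, rfl, 1, one_pos, ?_⟩
  rw [pow_one]
  exact Subgroup.subset_closure ha

end Pool.Agent.H594.ML
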