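import Mathlib
import Pool.Agent.H594.ML.Int

set_option autoImplicit false
set_option linter.unusedSectionVars false

/-!
# Values of rational functions at the elements of a finitely generated ring of algebraic numbers
-/

namespace Pool.Agent.H594.ML

open Finset
open Pool.Agent.Helper259.AbsHt Pool.Agent.Y215.SK

theorem exists_root_sg {z : ℂ} (P : Polynomial Qbar) (hP : P ≠ 0) (h : (P.map sg).eval z = 0) :
    ∃ x, sg x = z ∧ P.eval x = 0 := by
  let _ : Algebra Qbar ℂ := sg.toAlgebra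
  have hint : IsIntegral Qbar z := by
    have h1 : IsAlgebraic Qbar z := ⟨P, hP, by rw [Polynomial.aeval_def, ← Polynomial.eval_map]; exact h⟩
    exact h1.isIntegral
  have h3 := IsAlgClosed.degree_eq_one_of_irreducible Qbar (minpoly.irreducible hint)
  obtain ⟨x, hx⟩ := minpoly.mem_range_of_degree_eq_one Qbar z h3
  have hx' : sg x = z := hx
  refine ⟨x, hx', ?_⟩
  rw [← hx', Polynomial.eval_map_apply] at h
  exact (map_eq_zero sg).1 h

/-- a functional applied to the coefficients -/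
noncomputable def pfun (φ : ℂ →+ Qbar) (P : Polynomial ℂ) : Polynomial Qbar :=
  ∑ i ∈ Finset.range (P.natDegree + 1), Polynomial.C (φ (P.coeff i)) * Polynomial.X ^ i

theorem eval_pfun (φ : ℂ →+ Qbar) (hφ : ∀ (a : Qbar) (w : ℂ), φ (sg a * w) = a * φ w)
    (P : Polynomial ℂ) (x : Qbar) : (pfun φ P).eval x = φ (P.eval (sg x)) := by
  unfold pfun
  rw [Polynomial.eval_finsetSum, Polynomial.eval_eq_sum_range, map_sum]
  refine Finset.sum_congr rfl fun i _ => ?_
  rw [Polynomial.eval_mul, Polynomial.eval_C, Polynomial.eval_pow, Polynomial.eval_X, ← map_pow,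
    mul_comm (P.coeff i), hφ, mul_comm]

theorem coeff_pfun (φ : ℂ →+ Qbar) (P : Polynomial ℂ) (i : ℕ) :
    (pfun φ P).coeff i = φ (P.coeff i) := by
  unfold pfun
  rw [Polynomial.finsetSum_coeff]
  simp_rw [Polynomial.coeff_C_mul, Polynomial.coeff_X_pow]
  by_cases h : i ∈ Finset.range (P.natDegree + 1)
  · rw [Finset.sum_eq_single i]
    · simp
    · intro j _ hj
      rw [if_neg hj.symm, mul_zero]
    · intro h'
      exact absurd h h'
  · rw [Finset.sum_eq_zero, Polynomial.coeff_eq_zero_of_natDegree_lt, map_zero]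
    · rw [Finset.mem_range] at h
      omega
    · intro j hj
      rw [if_neg, mul_zero]
      rintro rfl
      exact h hj

theorem exists_fun1 : ∃ φ : ℂ →+ Qbar, (∀ (a : Qbar) (w : ℂ), φ (sg a * w) = a * φ w) ∧
    φ 1 = 1 := by
  obtain ⟨ψ, hψ, h1⟩ := exists_fun one_ne_zero
  refine ⟨(AddMonoidHom.mulLeft (ψ 1)⁻¹).comp ψ, fun a w => ?_, ?_⟩
  · show (ψ 1)⁻¹ * ψ (sg a * w) = a * ((ψ 1)⁻¹ * ψ w)
    rw [hψ]
    ring
  · show (ψ 1)⁻¹ * ψ 1 = 1
    exact inv_mul_cancel₀ h1

/-- a rational function with infinitely many algebraic values at algebraic numbers -/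
theorem rat_descent (h : RatFunc ℂ) (hinf : {s : ℂ | ∃ y u : Qbar, s = sg y ∧ h.denom.eval s ≠ 0 ∧
    h.eval (RingHom.id ℂ) s = sg u}.Infinite) :
    ∃ p q : Polynomial Qbar, h.num = p.map sg ∧ h.denom = q.map sg := by
  obtain ⟨φ, hφ, hφ1⟩ := exists_fun1
  have hval : ∀ y u : Qbar, h.denom.eval (sg y) ≠ 0 → h.eval (RingHom.id ℂ) (sg y) = sg u →
      h.num.eval (sg y) = sg u * h.denom.eval (sg y) ∧
      (pfun φ h.num).eval y = u * (pfun φ h.denom).eval y := by
    intro y u h1 h2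
    rw [evalr, div_eq_iff h1] at h2
    refine ⟨h2, ?_⟩
    rw [eval_pfun φ hφ, eval_pfun φ hφ, h2, hφ]
  have hid : (pfun φ h.num).map sg * h.denom = (pfun φ h.denom).map sg * h.num := by
    refine Polynomial.eq_of_infinite_eval_eq _ _ (hinf.mono ?_)
    rintro s ⟨y, u, rfl, h1, h2⟩
    obtain ⟨h3, h4⟩ := hval y u h1 h2
    show Polynomial.eval (sg y) _ = Polynomial.eval (sg y) _
    rw [Polynomial.eval_mul, Polynomial.eval_mul, Polynomial.eval_map_apply,
      Polynomial.eval_map_apply, h4, h3, map_mul]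
    ring
  have hmonic := RatFunc.monic_denom h
  have hqmonic : (pfun φ h.denom).Monic ∧ (pfun φ h.denom).natDegree = h.denom.natDegree := by
    have h1 : (pfun φ h.denom).coeff h.denom.natDegree = 1 := by
      rw [coeff_pfun, hmonic.coeff_natDegree, hφ1]
    have h2 : (pfun φ h.denom).natDegree ≤ h.denom.natDegree := by
      rw [Polynomial.natDegree_le_iff_coeff_eq_zero]
      intro N hN
      rw [coeff_pfun, Polynomial.coeff_eq_zero_of_natDegree_lt hN, map_zero]
    have h3 : (pfun φ h.denom).natDegree = h.denom.natDegree :=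
      le_antisymm h2 (Polynomial.le_natDegree_of_ne_zero (by rw [h1]; exact one_ne_zero))
    exact ⟨by rw [Polynomial.Monic, Polynomial.leadingCoeff, h3]; exact h1, h3⟩
  have hdvd : h.denom ∣ (pfun φ h.denom).map sg := by
    refine (RatFunc.isCoprime_num_denom h).symm.dvd_of_dvd_mul_right ?_
    rw [← hid]
    exact dvd_mul_left _ _
  have heq : (pfun φ h.denom).map sg = h.denom := by
    refine Polynomial.eq_of_monic_of_dvd_of_natDegree_le hmonic (hqmonic.1.map sg) hdvd ?_
    rw [Polynomial.natDegree_map, hqmonic.2]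
  refine ⟨pfun φ h.num, pfun φ h.denom, ?_, heq.symm⟩
  rw [heq, mul_comm] at hid
  exact (mul_left_cancel₀ (RatFunc.denom_ne_zero h) hid).symm

/-- linear functions with different zeros -/
theorem indep_linear {a b : ℂ} (hab : a ≠ b) :
    MulIndep (algebraMap (Polynomial ℂ) (RatFunc ℂ) (Polynomial.X - Polynomial.C a))
      (algebraMap (Polynomial ℂ) (RatFunc ℂ) (Polynomial.X - Polynomial.C b)) := by
  intro k l hkl c he
  have hA : (algebraMap (Polynomial ℂ) (RatFunc ℂ) (Polynomial.X - Polynomial.C a)) ≠ 0 :=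
    RatFunc.algebraMap_ne_zero (Polynomial.X_sub_C_ne_zero a)
  have hB : (algebraMap (Polynomial ℂ) (RatFunc ℂ) (Polynomial.X - Polynomial.C b)) ≠ 0 :=
    RatFunc.algebraMap_ne_zero (Polynomial.X_sub_C_ne_zero b)
  rw [zpow_toNat _ _ hA, zpow_toNat _ _ hB, div_mul_div_comm, div_eq_iff
    (mul_ne_zero (pow_ne_zero _ hA) (pow_ne_zero _ hB)), ← RatFunc.algebraMap_C] at he
  rw [← map_pow, ← map_pow, ← map_pow, ← map_pow, ← map_mul, ← map_mul, ← map_mul] at he
  have h1 := RatFunc.algebraMap_injective ℂ he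
  have e1 := congrArg (fun P : Polynomial ℂ => P.eval a) h1
  have e2 := congrArg (fun P : Polynomial ℂ => P.eval b) h1
  simp only [Polynomial.eval_mul, Polynomial.eval_pow, Polynomial.eval_sub, Polynomial.eval_X,
    Polynomial.eval_C, sub_self] at e1 e2
  have hab' : a - b ≠ 0 := sub_ne_zero.2 hab
  have hba' : b - a ≠ 0 := sub_ne_zero.2 hab.symm
  have hc : c ≠ 0 := by
    rintro rfl
    rw [Polynomial.C_0, zero_mul] at h1
    exact (mul_ne_zero (pow_ne_zero _ (Polynomial.X_sub_C_ne_zero a))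
      (pow_ne_zero _ (Polynomial.X_sub_C_ne_zero b))) h1
  rcases lt_trichotomy k 0 with hk | hk | hk
  · have h2 : k.toNat = 0 := by omega
    have h3 : (-k).toNat ≠ 0 := by omega
    rw [h2, zero_pow h3, pow_zero, zero_mul, mul_zero, one_mul] at e1
    exact pow_ne_zero _ hab' e1
  · subst hk
    have hl : l ≠ 0 := hkl.resolve_left (fun h => h rfl)
    simp only [Int.toNat_zero, neg_zero, pow_zero, one_mul] at e2
    rcases lt_or_gt_of_ne hl with hl | hl
    · have h2 : l.toNat = 0 := by omega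
      have h3 : (-l).toNat ≠ 0 := by omega
      rw [h2, zero_pow h3, pow_zero, mul_zero] at e2
      exact one_ne_zero e2
    · have h2 : (-l).toNat = 0 := by omega
      have h3 : l.toNat ≠ 0 := by omega
      rw [h2, zero_pow h3, pow_zero, mul_one] at e2
      exact hc e2.symm
  · have h2 : (-k).toNat = 0 := by omega
    have h3 : k.toNat ≠ 0 := by omega
    rw [h2, zero_pow h3, pow_zero, zero_mul, one_mul] at e1
    exact (mul_ne_zero hc (pow_ne_zero _ hab')) e1.symm

theorem eval_linear (a z : ℂ) : (algebraMap (Polynomial ℂ) (RatFunc ℂ)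
    (Polynomial.X - Polynomial.C a)).eval (RingHom.id ℂ) z = z - a := by
  rw [RatFunc.eval_algebraMap]
  simp

/-- **Values of a rational function with two zeros or poles at the elements of a finitely
generated ring of algebraic numbers.** -/
theorem int_finite (Γ : Subgroup Qbarˣ) (hΓ : Γ.FG) (T : Finset ℂ)
    (hT : ∀ x ∈ T, IsAlgebraic ℚ x) (h : RatFunc ℂ) (a b : ℂ) (hab : a ≠ b)
    (ha : (h.num * h.denom).eval a = 0) (hb : (h.num * h.denom).eval b = 0) :
    {s : ℂ | s ∈ Subring.closure (T : Set ℂ) ∧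
      ∃ u ∈ DivHull Γ, h.eval (RingHom.id ℂ) s = sg u}.Finite := by
  classical
  by_contra hinf
  rw [← Set.Infinite] at hinf
  -- descend the ring
  obtain ⟨T', hT'⟩ : ∃ T' : Finset Qbar, (T : Set ℂ) ⊆ sg '' (T' : Set Qbar) := by
    have h1 : ∀ x : T, ∃ y : Qbar, sg y = x := fun x => exists_sg (hT x x.2)
    choose y hy using h1
    refine ⟨Finset.univ.image y, ?_⟩
    intro x hx
    refine ⟨y ⟨x, hx⟩, ?_, hy ⟨x, hx⟩⟩
    simp
  have hring : ∀ s ∈ Subring.closure (T : Set ℂ), ∃ y ∈ Subring.closure (T' : Set Qbar),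
      sg y = s := by
    intro s hs
    have h1 : Subring.closure (T : Set ℂ) ≤ (Subring.closure (T' : Set Qbar)).map sg := by
      rw [Subring.closure_le]
      intro x hx
      obtain ⟨y, hy, hyx⟩ := hT' hx
      exact ⟨y, Subring.subset_closure hy, hyx⟩
    exact h1 hs
  have hden : ∀ (z : ℂ) (u : Qbarˣ), h.eval (RingHom.id ℂ) z = sg u → h.denom.eval z ≠ 0 := by
    intro z u hk h0
    rw [evalr, h0, div_zero] at hk
    exact ((map_ne_zero sg).2 u.ne_zero) hk.symm
  obtain ⟨p, q, hp, hq⟩ := rat_descent h (hinf.mono (by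
    rintro s ⟨hs, u, -, he⟩
    obtain ⟨y, -, hy⟩ := hring s hs
    exact ⟨y, u, hy.symm, hden s u he, he⟩))
  have hh0 : h ≠ 0 := by
    rintro rfl
    obtain ⟨s, -, u, -, he⟩ := hinf.nonempty
    rw [RatFunc.eval_zero] at he
    exact ((map_ne_zero sg).2 u.ne_zero) he.symm
  have hp0 : p ≠ 0 := by
    rintro rfl
    rw [Polynomial.map_zero] at hp
    exact RatFunc.num_ne_zero hh0 hp
  have hq0 : q ≠ 0 := by
    rintro rfl
    rw [Polynomial.map_zero] at hq
    exact RatFunc.denom_ne_zero h hq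
  obtain ⟨Γ', hΓ', hmain⟩ := int_units Γ hΓ T' p q hp0 hq0 (by
    rintro x ⟨h1, h2⟩
    obtain ⟨A, B, hAB⟩ := RatFunc.isCoprime_num_denom h
    have h3 := congrArg (fun P : Polynomial ℂ => P.eval (sg x)) hAB
    simp only [Polynomial.eval_add, Polynomial.eval_mul, Polynomial.eval_one] at h3
    have h4 : p.eval x = 0 := h1
    have h5 : q.eval x = 0 := h2
    rw [hp, hq, Polynomial.eval_map_apply, Polynomial.eval_map_apply, h4, h5, map_zero, mul_zero,
      mul_zero, add_zero] at h3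
    exact zero_ne_one h3)
  have hroot : ∀ c : ℂ, (h.num * h.denom).eval c = 0 → ∃ c' : Qbar, sg c' = c ∧
      (p.IsRoot c' ∨ q.IsRoot c') := by
    intro c hc
    rw [Polynomial.eval_mul, mul_eq_zero, hp, hq] at hc
    rcases hc with hc | hc
    · obtain ⟨x, hx, hx'⟩ := exists_root_sg p hp0 hc
      exact ⟨x, hx, Or.inl hx'⟩
    · obtain ⟨x, hx, hx'⟩ := exists_root_sg q hq0 hc
      exact ⟨x, hx, Or.inr hx'⟩
  obtain ⟨a', ha', ha2⟩ := hroot a ha
  obtain ⟨b', hb', hb2⟩ := hroot b hb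
  refine hinf ((rat_finite Γ' hΓ' _ _ (indep_linear hab)).subset ?_)
  rintro s ⟨hs, u, hu, he⟩
  obtain ⟨y, hy, rfl⟩ := hring s hs
  have he' : p.eval y = u * q.eval y := by
    have h1 := hden _ u he
    rw [evalr, div_eq_iff h1, hp, hq, Polynomial.eval_map_apply, Polynomial.eval_map_apply,
      ← map_mul] at he
    exact sg_inj he
  obtain ⟨w1, hw1, e1⟩ := hmain y hy u hu he' a' ha2
  obtain ⟨w2, hw2, e2⟩ := hmain y hy u hu he' b' hb2
  refine ⟨⟨w1, Pool.Agent.Y215.AF.sub_hull _ _ hw1, ?_⟩, w2,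
    Pool.Agent.Y215.AF.sub_hull _ _ hw2, ?_⟩
  · rw [eval_linear, ← e1, map_sub, ha']
  · rw [eval_linear, ← e2, map_sub, hb']

end Pool.Agent.H594.ML
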