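import Mathlib
import Pool.Agent.H594.ML.IntC

set_option autoImplicit false
set_option linter.unusedSectionVars false

/-!
# Products of powers of linear factors at the elements of a finitely generated ring
-/

namespace Pool.Agent.H594.ML

open Finset IsDedekindDomain NumberField WithZero
open Pool.Agent.Helper259.AbsHt Pool.Agent.Y215.SK Pool.Agent.Y215.AF

section

variable {L : IntermediateField ℚ Qbar} [NumberField L] {v : HeightOneSpectrum (𝓞 L)}

theorem V_zpow {x : Qbar} (hx : x ∈ L) (m : ℤ) : V L v (x ^ m) = V L v x ^ m := by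
  rw [V_mem hx, V_mem (zpow_mem hx m), ← map_zpow₀]
  rfl

theorem V_fprod {ι : Type*} (A : Finset ι) (g : ι → Qbar) (hg : ∀ a ∈ A, g a ∈ L) :
    V L v (∏ a ∈ A, g a) = ∏ a ∈ A, V L v (g a) := by
  classical
  induction A using Finset.induction_on with
  | empty => simpa using V_one
  | insert a A ha ih =>
    rw [Finset.prod_insert ha, Finset.prod_insert ha, V_mul (hg a (Finset.mem_insert_self a A))
      (prod_mem fun x hx => hg x (Finset.mem_insert_of_mem hx)),
      ih fun x hx => hg x (Finset.mem_insert_of_mem hx)]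

end

theorem int_units_multi (Γ : Subgroup Qbarˣ) (hΓ : Γ.FG) (T R : Finset Qbar) :
    ∃ Γ' : Subgroup Qbarˣ, Γ'.FG ∧ ∀ s ∈ Subring.closure (T : Set Qbar), (∀ a ∈ R, s ≠ a) →
      ∀ (μ : Qbar → ℤ), ∀ u ∈ DivHull Γ, ∏ a ∈ R, (s - a) ^ μ a = (u : Qbar) →
      ∀ a ∈ R, μ a ≠ 0 → ∃ w ∈ Γ', s - a = ((w : Qbarˣ) : Qbar) := by
  classical
  obtain ⟨g, hg⟩ := hΓ
  let X : Finset Qbar := T ∪ (R ∪ (g.image (fun u : Qbarˣ => (u : Qbar)) ∪
      (g.image (fun u : Qbarˣ => (u : Qbar)⁻¹) ∪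
        (R ×ˢ R).image (fun z => (z.1 - z.2)⁻¹))))
  obtain ⟨L, hL, hXL⟩ := exists_nf (X : Set Qbar) X.finite_toSet
  let S : Set (HeightOneSpectrum (𝓞 L)) := {v | ∃ x ∈ X, 1 < V L v x}
  have hSfin : S.Finite := bad_finite L X
  have hV : ∀ v ∉ S, ∀ x ∈ X, V L v x ≤ 1 := by
    intro v hv x hx
    by_contra h
    exact hv ⟨x, hx, not_le.1 h⟩
  have hT : ∀ x ∈ T, x ∈ X := fun x hx => Finset.mem_union_left _ hx
  have hR : ∀ x ∈ R, x ∈ X := fun x hx =>
    Finset.mem_union_right _ (Finset.mem_union_left _ hx)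
  have hg1 : ∀ u ∈ g, (u : Qbar) ∈ X := fun u hu =>
    Finset.mem_union_right _ (Finset.mem_union_right _
      (Finset.mem_union_left _ (Finset.mem_image_of_mem _ hu)))
  have hg2 : ∀ u ∈ g, (u : Qbar)⁻¹ ∈ X := fun u hu =>
    Finset.mem_union_right _ (Finset.mem_union_right _
      (Finset.mem_union_right _ (Finset.mem_union_left _
        (Finset.mem_image_of_mem (fun u : Qbarˣ => (u : Qbar)⁻¹) hu))))
  have hdiff : ∀ a ∈ R, ∀ b ∈ R, (a - b)⁻¹ ∈ X := fun a ha b hb =>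
    Finset.mem_union_right _ (Finset.mem_union_right _
      (Finset.mem_union_right _ (Finset.mem_union_right _
        (Finset.mem_image_of_mem (fun z : Qbar × Qbar => (z.1 - z.2)⁻¹)
          (Finset.mk_mem_product ha hb)))))
  have hXL' : ∀ x ∈ X, x ∈ L := fun x hx => hXL x hx
  refine ⟨SU (algebraMap L Qbar) S, SU_fg _ S hSfin, fun s hs hsR μ u hu he a ha hμa => ?_⟩
  -- `s` is integral
  let O : Subring Qbar :=
    { carrier := {x | x ∈ L ∧ ∀ v ∉ S, V L v x ≤ 1}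
      mul_mem' := by
        rintro x y ⟨hx, hx1⟩ ⟨hy, hy1⟩
        refine ⟨L.mul_mem hx hy, fun v hv => ?_⟩
        rw [V_mul hx hy]
        exact mul_le_one' (hx1 v hv) (hy1 v hv)
      one_mem' := ⟨L.one_mem, fun v _ => V_one.le⟩
      add_mem' := by
        rintro x y ⟨hx, hx1⟩ ⟨hy, hy1⟩
        exact ⟨L.add_mem hx hy, fun v hv => (V_add hx hy).trans (max_le (hx1 v hv) (hy1 v hv))⟩
      zero_mem' := ⟨L.zero_mem, fun v _ => by rw [V_zero]; exact zero_le_one⟩
      neg_mem' := by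
        rintro x ⟨hx, hx1⟩
        exact ⟨L.neg_mem hx, fun v hv => by rw [V_neg hx]; exact hx1 v hv⟩ }
  have hsO : s ∈ O := by
    have h1 : Subring.closure (T : Set Qbar) ≤ O :=
      Subring.closure_le.2 fun x hx => ⟨hXL' x (hT x hx), fun v hv => hV v hv x (hT x hx)⟩
    exact h1 hs
  obtain ⟨hsL, hs1⟩ := hsO
  -- the elements of `Γ` are units
  let U : Subgroup Qbarˣ :=
    { carrier := {u | (u : Qbar) ∈ L ∧ ∀ v ∉ S, V L v (u : Qbar) = 1}
      mul_mem' := by
        rintro x y ⟨hx, hx1⟩ ⟨hy, hy1⟩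
        refine ⟨?_, fun v hv => ?_⟩
        · rw [Units.val_mul]
          exact L.mul_mem hx hy
        · rw [Units.val_mul, V_mul hx hy, hx1 v hv, hy1 v hv, one_mul]
      one_mem' := ⟨by rw [Units.val_one]; exact L.one_mem, fun v _ => by
        rw [Units.val_one]; exact V_one⟩
      inv_mem' := by
        rintro x ⟨hx, hx1⟩
        refine ⟨?_, fun v hv => ?_⟩
        · rw [Units.val_inv_eq_inv_val]
          exact L.inv_mem hx
        · rw [Units.val_inv_eq_inv_val]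
          have h1 := V_mul (v := v) hx (L.inv_mem hx)
          rw [mul_inv_cancel₀ x.ne_zero, V_one, hx1 v hv, one_mul] at h1
          exact h1.symm }
  have hΓU : Γ ≤ U := by
    rw [← hg, Subgroup.closure_le]
    intro x hx
    exact ⟨hXL' _ (hg1 x hx), fun v hv => V_unit (hXL' _ (hg1 x hx)) x.ne_zero
      (hV v hv _ (hg1 x hx)) (hV v hv _ (hg2 x hx))⟩
  have hfL : ∀ b ∈ R, s - b ∈ L := fun b hb => L.sub_mem hsL (hXL' b (hR b hb))
  have hfL' : ∀ b ∈ R, (s - b) ^ μ b ∈ L := fun b hb => zpow_mem (hfL b hb) _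
  have huL : (u : Qbar) ∈ L := by
    rw [← he]
    exact prod_mem hfL'
  obtain ⟨m, hm, hum⟩ := hu
  have hu1 : ∀ v ∉ S, V L v (u : Qbar) = 1 := by
    intro v hv
    have h1 := (hΓU hum).2 v hv
    rw [Units.val_pow_eq_pow_val, V_pow huL] at h1
    exact (pow_eq_one_iff.1 h1).resolve_right hm.ne'
  have hroot : ∀ v ∉ S, V L v (s - a) = 1 := by
    intro v hv
    have haL := hXL' a (hR a ha)
    have hle : ∀ b ∈ R, V L v (s - b) ≤ 1 := fun b hb =>
      (V_sub hsL (hXL' b (hR b hb))).trans (max_le (hs1 v hv) (hV v hv b (hR b hb)))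
    refine le_antisymm (hle a ha) (not_lt.1 fun hlt => ?_)
    have hother : ∀ b ∈ R, b ≠ a → V L v (s - b) = 1 := by
      intro b hb hba
      have hbL := hXL' b (hR b hb)
      refine V_near hsL haL hbL hlt (V_unit (L.sub_mem haL hbL) (sub_ne_zero.2 hba.symm) ?_
        (hV v hv _ (hdiff a ha b hb)))
      exact (V_sub haL hbL).trans (max_le (hV v hv a (hR a ha)) (hV v hv b (hR b hb)))
    have h1 : V L v (∏ b ∈ R, (s - b) ^ μ b) = V L v (s - a) ^ μ a := by
      rw [V_fprod R _ hfL', Finset.prod_eq_single a]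
      · exact V_zpow (hfL a ha) _
      · intro b hb hba
        rw [V_zpow (hfL b hb), hother b hb hba, one_zpow]
      · intro h
        exact absurd ha h
    rw [he, hu1 v hv] at h1
    have h0 : V L v (s - a) ≠ 0 := V_ne (hfL a ha) (sub_ne_zero.2 (hsR a ha))
    rcases lt_or_gt_of_ne hμa with hneg | hpos
    · obtain ⟨n, hn⟩ : ∃ n : ℕ, μ a = -(n : ℤ) := ⟨(-μ a).toNat, by omega⟩
      rw [hn, zpow_neg, zpow_natCast] at h1
      have h2 : V L v (s - a) ^ n = 1 := by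
        rw [← inv_inv (V L v (s - a) ^ n), ← h1, inv_one]
      rcases pow_eq_one_iff.1 h2 with h3 | h3
      · exact hlt.ne h3
      · omega
    · obtain ⟨n, hn⟩ : ∃ n : ℕ, μ a = (n : ℤ) := ⟨(μ a).toNat, by omega⟩
      rw [hn, zpow_natCast] at h1
      rcases pow_eq_one_iff.1 h1.symm with h3 | h3
      · exact hlt.ne h3
      · omega
  have hsa : s - a ∈ L := hfL a ha
  have hsa0 : s - a ≠ 0 := sub_ne_zero.2 (hsR a ha)
  let w0 : Lˣ := Units.mk0 ⟨s - a, hsa⟩ (fun h => hsa0 (congrArg Subtype.val h))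
  refine ⟨Units.map ((algebraMap L Qbar : L →+* Qbar) : L →* Qbar) w0,
    Subgroup.mem_map_of_mem _ ?_, rfl⟩
  intro v hv
  have h1 := hroot v hv
  rw [V_mem hsa] at h1
  exact h1

/-- an automorphism which fixes `K` and moves `a` -/
theorem exists_sigma (K : IntermediateField ℚ Qbar) {a : Qbar} (ha : a ∉ K) :
    ∃ σ : Qbar →+* Qbar, (∀ y ∈ K, σ y = y) ∧ σ a ≠ a := by
  have : IsAlgClosure ℚ Qbar := ⟨inferInstance, qbar_alg⟩
  have : IsGalois ℚ Qbar := IsAlgClosure.isGalois ℚ Qbar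
  have : IsGalois K Qbar := IsGalois.tower_top_intermediateField K
  by_contra h
  push Not at h
  apply ha
  have h1 := (InfiniteGalois.mem_bot_iff_fixed (k := K) a).2 (fun σ =>
    h (σ : Qbar →+* Qbar) (fun y hy => σ.commutes ⟨y, hy⟩))
  rw [IntermediateField.mem_bot] at h1
  obtain ⟨x, hx⟩ := h1
  rw [← hx]
  exact x.2

/-- **Products with at least two factors, or a factor which is not defined over the field of the
ring, which lie in a group of finite rank.** -/
theorem multi_finite (Γ : Subgroup Qbarˣ) (hΓ : Γ.FG) (T R : Finset ℂ)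
    (hT : ∀ x ∈ T, IsAlgebraic ℚ x) (hR : ∀ x ∈ R, IsAlgebraic ℚ x) :
    {s : ℂ | s ∈ Subring.closure (T : Set ℂ) ∧ (∀ a ∈ R, s ≠ a) ∧ ∃ μ : ℂ → ℤ,
      (∃ a ∈ R, μ a ≠ 0 ∧ (a ∉ IntermediateField.adjoin ℚ (T : Set ℂ) ∨
        ∃ b ∈ R, a ≠ b ∧ μ b ≠ 0)) ∧
      ∃ u ∈ DivHull Γ, ∏ a ∈ R, (s - a) ^ μ a = sg u}.Finite := by
  classical
  -- descend the ring
  have hdesc : ∀ T : Finset ℂ, (∀ x ∈ T, IsAlgebraic ℚ x) →
      ∃ T' : Finset Qbar, T'.image sg = T := by
    intro T hT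
    have h1 : ∀ x : T, ∃ y : Qbar, sg y = x := fun x => exists_sg (hT x x.2)
    choose y hy using h1
    refine ⟨Finset.univ.image y, ?_⟩
    ext x
    simp only [Finset.mem_image, Finset.mem_univ, true_and, exists_exists_eq_and]
    constructor
    · rintro ⟨a, rfl⟩
      rw [hy]
      exact a.2
    · intro hx
      exact ⟨⟨x, hx⟩, hy _⟩
  obtain ⟨T', hT'⟩ := hdesc T hT
  obtain ⟨R', hR'⟩ := hdesc R hR
  have hring : ∀ s ∈ Subring.closure (T : Set ℂ), ∃ y ∈ Subring.closure (T' : Set Qbar),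
      sg y = s := by
    intro s hs
    have h1 : Subring.closure (T : Set ℂ) ≤ (Subring.closure (T' : Set Qbar)).map sg := by
      rw [Subring.closure_le]
      intro x hx
      rw [← hT'] at hx
      obtain ⟨y, hy, hyx⟩ := Finset.mem_image.1 (Finset.mem_coe.1 hx)
      exact ⟨y, Subring.subset_closure (Finset.mem_coe.2 hy), hyx⟩
    exact h1 hs
  obtain ⟨Γ', hΓ', hmain⟩ := int_units_multi Γ hΓ T' R'
  have hfin : (⋃ p ∈ R ×ˢ R, {s : ℂ | p.1 ≠ p.2 ∧ (∃ u ∈ DivHull Γ', s - p.1 = sg u) ∧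
      ∃ u ∈ DivHull Γ', s - p.2 = sg u}).Finite := by
    refine (Finset.finite_toSet (R ×ˢ R)).biUnion fun p _ => ?_
    by_cases hp : p.1 = p.2
    · refine Set.finite_empty.subset ?_
      rintro s ⟨h, -⟩
      exact h hp
    · refine (rat_finite Γ' hΓ' _ _ (indep_linear hp)).subset ?_
      rintro s ⟨-, ⟨u, hu, e1⟩, w, hw, e2⟩
      exact ⟨⟨u, hu, by rw [eval_linear, e1]⟩, w, hw, by rw [eval_linear, e2]⟩
  -- zeros which are not in the field
  let K' : IntermediateField ℚ Qbar := IntermediateField.adjoin ℚ (T' : Set Qbar)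
  have hK' : ∀ a : Qbar, sg a ∉ IntermediateField.adjoin ℚ (T : Set ℂ) → a ∉ K' := by
    intro a ha ha'
    apply ha
    have h1 : K'.map sgA = IntermediateField.adjoin ℚ (sgA '' (T' : Set Qbar)) :=
      IntermediateField.adjoin_map ℚ (T' : Set Qbar) sgA
    have h2 : sgA '' (T' : Set Qbar) = (T : Set ℂ) := by
      rw [← hT', Finset.coe_image]
      rfl
    rw [h2] at h1
    rw [← h1]
    exact ⟨a, ha', rfl⟩
  have hyK : ∀ y ∈ Subring.closure (T' : Set Qbar), y ∈ K' := by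
    intro y hy
    have h1 : Subring.closure (T' : Set Qbar) ≤ K'.toSubalgebra.toSubring := by
      rw [Subring.closure_le]
      intro x hx
      exact IntermediateField.subset_adjoin ℚ _ hx
    exact h1 hy
  have hfin2 : (⋃ a ∈ R', {s : ℂ | sg a ∉ IntermediateField.adjoin ℚ (T : Set ℂ) ∧
      ∃ y ∈ Subring.closure (T' : Set Qbar), s = sg y ∧
      ∃ w ∈ Γ', y - a = ((w : Qbarˣ) : Qbar)}).Finite := by
    refine (Finset.finite_toSet R').biUnion fun a _ => ?_
    by_cases ha : sg a ∉ IntermediateField.adjoin ℚ (T : Set ℂ)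
    swap
    · refine Set.finite_empty.subset ?_
      rintro s ⟨h, -⟩
      exact ha h
    · obtain ⟨σ, hσ1, hσ2⟩ := exists_sigma K' (hK' a ha)
      have hσ3 : sg a ≠ sg (σ a) := fun h => hσ2 (sg_inj h).symm
      let σu : Qbarˣ →* Qbarˣ := Units.map (σ : Qbar →* Qbar)
      have hmapfg : (Γ'.map σu).FG := by
        obtain ⟨g, hg⟩ := hΓ'
        refine ⟨g.image σu, ?_⟩
        rw [Finset.coe_image, ← MonoidHom.map_closure, hg]
      have hfg : (Γ' ⊔ Γ'.map σu).FG := Subgroup.FG.sup hΓ' hmapfg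
      refine (rat_finite (Γ' ⊔ Γ'.map σu) hfg _ _ (indep_linear hσ3)).subset ?_
      rintro s ⟨-, y, hy, rfl, w, hw, e⟩
      refine ⟨⟨w, sub_hull _ _ (Subgroup.mem_sup_left hw), ?_⟩, σu w,
        sub_hull _ _ (Subgroup.mem_sup_right (Subgroup.mem_map_of_mem _ hw)), ?_⟩
      · rw [eval_linear, ← e, map_sub]
      · rw [eval_linear]
        have h1 : ((σu w : Qbarˣ) : Qbar) = y - σ a := by
          show σ ((w : Qbarˣ) : Qbar) = _
          rw [← e, map_sub, hσ1 y (hyK y hy)]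
        rw [h1, map_sub]
  refine (hfin.union hfin2).subset ?_
  rintro s ⟨hs, hsR, μ, ⟨a, ha, hμa, hab⟩, u, hu, he⟩
  obtain ⟨y, hy, rfl⟩ := hring s hs
  have hyR : ∀ a ∈ R', y ≠ a := by
    rintro a ha rfl
    exact hsR (sg y) (by rw [← hR']; exact Finset.mem_image_of_mem _ ha) rfl
  have he' : ∏ a ∈ R', (y - a) ^ μ (sg a) = (u : Qbar) := by
    apply sg_inj
    rw [← he, ← hR', Finset.prod_image (fun x _ y _ h => sg_inj h), map_prod]
    refine Finset.prod_congr rfl fun a _ => ?_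
    rw [map_zpow₀, map_sub]
  rcases hab with haK | ⟨b, hb, hab, hμb⟩
  · refine Or.inr ?_
    rw [← hR'] at ha
    obtain ⟨a', ha', rfl⟩ := Finset.mem_image.1 ha
    obtain ⟨w, hw, e⟩ := hmain y hy hyR (fun a => μ (sg a)) u hu he' a' ha' hμa
    exact Set.mem_biUnion (x := a') (Finset.mem_coe.2 ha') ⟨haK, y, hy, rfl, w, hw, e⟩
  · refine Or.inl ?_
    have hget : ∀ a ∈ R, μ a ≠ 0 → ∃ w ∈ DivHull Γ', sg y - a = sg w := by
      intro a ha hμ
      rw [← hR'] at ha
      obtain ⟨a', ha', rfl⟩ := Finset.mem_image.1 ha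
      obtain ⟨w, hw, e⟩ := hmain y hy hyR (fun a => μ (sg a)) u hu he' a' ha' hμ
      exact ⟨w, sub_hull _ _ hw, by rw [← e, map_sub]⟩
    refine Set.mem_biUnion (x := (a, b)) (Finset.mem_coe.2 (Finset.mk_mem_product ha hb)) ?_
    exact ⟨hab, hget a ha hμa, hget b hb hμb⟩

end Pool.Agent.H594.ML
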