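import Mathlib
import Pool.Agent.H594.ML.IntM
import Pool.Agent.H594.ML.Struct
import Pool.Agent.H594.ML.Exc

set_option autoImplicit false
set_option linter.unusedSectionVars false

/-!
# Logarithms of the values of polynomials at the elements of a finitely generated ring
-/

namespace Pool.Agent.H594.ML

open Finset
open Pool.Agent.Helper259.AbsHt Pool.Agent.Y215.SK
open Pool.Agent.H301R2.SSE (QB mem_QB Lt Lt_one Lt_mul Lt_alg Lt_log)

/-- the product formula for the values of a polynomial, over any set which contains the zeros -/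
theorem eval_prod (p : Polynomial ℂ) (R : Finset ℂ) (hR : ∀ a, a ∈ p.roots → a ∈ R) (s : ℂ) :
    p.eval s = p.leadingCoeff * ∏ a ∈ R, (s - a) ^ (p.rootMultiplicity a) := by
  classical
  have h1 := (IsAlgClosed.splits p).eval_eq_prod_roots s
  rw [h1, Finset.prod_multiset_map_count]
  congr 1
  rw [Finset.prod_subset (s₁ := p.roots.toFinset) (s₂ := R)
    (fun a ha => hR a (Multiset.mem_toFinset.1 ha)) (fun a _ ha => by
      rw [Multiset.mem_toFinset] at ha
      rw [Multiset.count_eq_zero_of_notMem ha, pow_zero])]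
  refine Finset.prod_congr rfl fun a _ => ?_
  rw [Polynomial.count_roots]

/-- the zeros of a polynomial with algebraic coefficients are algebraic -/
theorem root_alg {p : Polynomial ℂ} (hp : ∀ i, IsAlgebraic ℚ (p.coeff i)) {a : ℂ}
    (ha : a ∈ p.roots) : IsAlgebraic ℚ a := by
  have hp0 : p ≠ 0 := by
    rintro rfl
    simp at ha
  choose c hc using fun i => exists_sg (hp i)
  let q : Polynomial Qbar := ∑ i ∈ Finset.range (p.natDegree + 1),
    Polynomial.C (c i) * Polynomial.X ^ i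
  have hq : q.map sg = p := by
    conv_rhs => rw [p.as_sum_range_C_mul_X_pow]
    rw [Polynomial.map_sum]
    refine Finset.sum_congr rfl fun i _ => ?_
    rw [Polynomial.map_mul, Polynomial.map_pow, Polynomial.map_X, Polynomial.map_C, hc]
  have hq0 : q ≠ 0 := by
    rintro h
    rw [h, Polynomial.map_zero] at hq
    exact hp0 hq.symm
  obtain ⟨x, hx, -⟩ := exists_root_sg q hq0 (z := a) (by
    rw [hq]
    exact (Polynomial.mem_roots hp0).1 ha)
  rw [← hx]
  exact sg_alg x

theorem poly_main (X : Submodule QB ℂ) (hX : X.FG) (T : Finset ℂ) (hT : ∀ x ∈ T, IsAlgebraic ℚ x)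
    {k : ℕ} (f : Fin k → Polynomial ℂ) (hf0 : ∀ j, f j ≠ 0)
    (hf : ∀ j i, IsAlgebraic ℚ ((f j).coeff i)) :
    {z : ℂ | z ∈ Subring.closure (T : Set ℂ) ∧ ¬ ∃ a₀ ∈ IntermediateField.adjoin ℚ (T : Set ℂ),
      ∀ l : Fin k → ℂ, (∀ j, Complex.exp (l j) = (f j).eval z) → ∀ Y ≤ X, ∀ x₀ ∈ X,
      ∀ x : Fin k → ℂ, (∀ j, x j ∈ X) → x₀ + ∑ j, x j * l j ∈ Y * Lt →
      ∀ a ≠ a₀, ∑ j, ((f j).rootMultiplicity a : ℂ) * x j ∈ Y}.Finite := by
  classical
  obtain ⟨B, hB1, hB2⟩ := struct X hX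
  let R : Finset ℂ := Finset.univ.biUnion fun j => (f j).roots.toFinset
  have hRmem : ∀ j a, a ∈ (f j).roots → a ∈ R := fun j a ha =>
    Finset.mem_biUnion.2 ⟨j, Finset.mem_univ j, Multiset.mem_toFinset.2 ha⟩
  have hR : ∀ a ∈ R, IsAlgebraic ℚ a := by
    intro a ha
    obtain ⟨j, -, hj⟩ := Finset.mem_biUnion.1 ha
    exact root_alg (hf j) (Multiset.mem_toFinset.1 hj)
  -- units
  have hU : ∀ b : ℂ, ∃ u : Qbarˣ, b ∈ B → Complex.exp b = sg u := by
    intro b
    by_cases hb : b ∈ B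
    · obtain ⟨u, hu⟩ := exists_unit (hB1 b hb) (Complex.exp_ne_zero b)
      exact ⟨u, fun _ => hu⟩
    · exact ⟨1, fun h => absurd h hb⟩
  choose U hU using hU
  have hC : ∀ j, ∃ u : Qbarˣ, (f j).leadingCoeff = sg u := fun j =>
    exists_unit (hf j _) (Polynomial.leadingCoeff_ne_zero.2 (hf0 j))
  choose C hC using hC
  let Γ : Subgroup Qbarˣ := Subgroup.closure (U '' B ∪ Set.range C)
  have hΓ : Γ.FG := (Subgroup.fg_iff _).2 ⟨U '' B ∪ Set.range C, rfl,
    (B.finite_toSet.image U).union (Set.finite_range C)⟩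
  have hΓB : ∀ b ∈ B, U b ∈ Γ := fun b hb =>
    Subgroup.subset_closure (Or.inl ⟨b, Finset.mem_coe.2 hb, rfl⟩)
  have hΓC : ∀ j, C j ∈ Γ := fun j => Subgroup.subset_closure (Or.inr ⟨j, rfl⟩)
  have hfin := (multi_finite Γ hΓ T R hT hR).union R.finite_toSet
  refine hfin.subset ?_
  rintro z ⟨hz, hno⟩
  by_contra hzF
  apply hno
  have hzR : ∀ a ∈ R, z ≠ a := by
    rintro a ha rfl
    exact hzF (Or.inr (Finset.mem_coe.2 ha))
  have hkey : ∀ μ : ℂ → ℤ, (∃ u ∈ DivHull Γ, ∏ a ∈ R, (z - a) ^ μ a = sg u) →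
      ∀ a ∈ R, ∀ b ∈ R, a ≠ b → μ a ≠ 0 → μ b = 0 := by
    intro μ hμ a ha b hb hab hμa
    by_contra hμb
    exact hzF (Or.inl ⟨hz, hzR, μ, ⟨a, ha, hμa, Or.inr ⟨b, hb, hab, hμb⟩⟩, hμ⟩)
  have hkeyK : ∀ μ : ℂ → ℤ, (∃ u ∈ DivHull Γ, ∏ a ∈ R, (z - a) ^ μ a = sg u) →
      ∀ a ∈ R, μ a ≠ 0 → a ∈ IntermediateField.adjoin ℚ (T : Set ℂ) := by
    intro μ hμ a ha hμa
    by_contra haK
    exact hzF (Or.inl ⟨hz, hzR, μ, ⟨a, ha, hμa, Or.inl haK⟩, hμ⟩)
  have hone : ∀ a ∈ R, ∀ b ∈ R, a ≠ b → (∃ u ∈ DivHull Γ, z - a = sg u) →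
      (∃ u ∈ DivHull Γ, z - b = sg u) → False := by
    rintro a ha b hb hab ⟨u, hu, e1⟩ ⟨w, hw, e2⟩
    have h1 := hkey (fun c => if c = a then 1 else if c = b then 1 else 0)
      ⟨u * w, (divGroup Γ).mul_mem hu hw, by
        have h2 : ∀ c ∈ R, (z - c) ^ ((fun c => if c = a then 1 else if c = b then 1 else 0 :
            ℂ → ℤ) c) = (if c = a then (z - c) else 1) * (if c = b then (z - c) else 1) := by
          intro c _
          by_cases h3 : c = a
          · subst h3
            simp [hab]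
          · by_cases h4 : c = b
            · subst h4
              simp [h3]
            · simp [h3, h4]
        rw [Finset.prod_congr rfl h2, Finset.prod_mul_distrib, Finset.prod_ite_eq' R a,
          Finset.prod_ite_eq' R b, if_pos ha, if_pos hb, e1, e2, Units.val_mul, map_mul]⟩
      a ha b hb hab (by simp)
    simp [hab.symm] at h1
  obtain ⟨a₀, ha₀K, ha₀⟩ : ∃ a₀ ∈ IntermediateField.adjoin ℚ (T : Set ℂ),
      ∀ a ∈ R, a ≠ a₀ → ¬ ∃ u ∈ DivHull Γ, z - a = sg u := by
    by_cases h : ∃ a ∈ R, ∃ u ∈ DivHull Γ, z - a = sg u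
    · obtain ⟨a, ha, hu⟩ := h
      refine ⟨a, ?_, fun b hb hba hu' => hone b hb a ha hba hu' hu⟩
      obtain ⟨u, hu, e⟩ := hu
      refine hkeyK (fun c => if c = a then 1 else 0) ⟨u, hu, ?_⟩ a ha (by simp)
      have h2 : ∀ c ∈ R, (z - c) ^ ((fun c => if c = a then 1 else 0 : ℂ → ℤ) c) =
          (if c = a then (z - c) else 1) := by
        intro c _
        by_cases h3 : c = a
        · subst h3
          simp
        · simp [h3]
      rw [Finset.prod_congr rfl h2, Finset.prod_ite_eq' R a, if_pos ha, e]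
    · push Not at h
      exact ⟨0, (IntermediateField.adjoin ℚ (T : Set ℂ)).zero_mem,
        fun a ha _ ⟨u, hu, e⟩ => h a ha u hu e⟩
  refine ⟨a₀, ha₀K, fun l hl Y hY x₀ hx₀ x hx hrel a ha => ?_⟩
  by_cases haR : a ∈ R
  swap
  · have h1 : ∀ j, (f j).rootMultiplicity a = 0 := by
      intro j
      rw [Polynomial.rootMultiplicity_eq_zero_iff]
      intro h2
      exact absurd (hRmem j a ((Polynomial.mem_roots (hf0 j)).2 h2)) haR
    simp [h1]
  -- the family of logarithms
  let lam : R ⊕ Fin k → ℂ := Sum.elim (fun b : R => Complex.log (z - b))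
    (fun j => l j - ∑ b : R, ((f j).rootMultiplicity (b : ℂ) : ℂ) * Complex.log (z - b))
  let y : R ⊕ Fin k → ℂ := Sum.elim (fun b : R => ∑ j, ((f j).rootMultiplicity (b : ℂ) : ℂ) * x j) x
  have hlog : ∀ b : R, Complex.exp (Complex.log (z - b)) = z - b := fun b =>
    Complex.exp_log (sub_ne_zero.2 (hzR b b.2))
  have hγ : ∀ j, Complex.exp (lam (Sum.inr j)) = (f j).leadingCoeff := by
    intro j
    show Complex.exp (l j - ∑ b : R, ((f j).rootMultiplicity (b : ℂ) : ℂ) *
      Complex.log (z - b)) = _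
    rw [Complex.exp_sub, hl, Complex.exp_sum, eval_prod (f j) R (hRmem j) z]
    have h1 : ∏ b : R, Complex.exp (((f j).rootMultiplicity (b : ℂ) : ℂ) *
        Complex.log (z - b)) = ∏ a ∈ R, (z - a) ^ ((f j).rootMultiplicity a) := by
      rw [← Finset.prod_coe_sort R (fun a => (z - a) ^ ((f j).rootMultiplicity a))]
      refine Finset.prod_congr rfl fun b _ => ?_
      rw [Complex.exp_nat_mul, hlog]
    rw [h1, mul_div_assoc, div_self, mul_one]
    exact Finset.prod_ne_zero_iff.2 fun a ha => pow_ne_zero _ (sub_ne_zero.2 (hzR a ha))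
  have hlam : ∀ i, IsAlgebraic ℚ (Complex.exp (lam i)) := by
    rintro (b | j)
    · show IsAlgebraic ℚ (Complex.exp (Complex.log (z - b)))
      rw [hlog]
      have h1 : IsAlgebraic ℚ z := by
        have h2 : Subring.closure (T : Set ℂ) ≤ (algebraicClosure ℚ ℂ).toSubalgebra.toSubring := by
          rw [Subring.closure_le]
          intro t ht
          exact mem_QB.2 (hT t (Finset.mem_coe.1 ht))
        exact mem_QB.1 (h2 hz)
      exact h1.sub (hR b b.2)
    · rw [hγ]
      exact hf j _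
  have hyX : ∀ i, y i ∈ X := by
    rintro (b | j)
    · refine X.sum_mem fun j _ => ?_
      have h1 := X.smul_mem (((f j).rootMultiplicity (b : ℂ) : ℕ) : QB) (hx j)
      rw [qsmul] at h1
      exact_mod_cast h1
    · exact hx j
  have hsum : ∑ i, y i * lam i = ∑ j, x j * l j := by
    rw [Fintype.sum_sum_type]
    show ∑ b : R, (∑ j, ((f j).rootMultiplicity (b : ℂ) : ℂ) * x j) * Complex.log (z - b) +
      ∑ j, x j * (l j - ∑ b : R, ((f j).rootMultiplicity (b : ℂ) : ℂ) * Complex.log (z - b)) = _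
    have h1 : ∑ b : R, (∑ j, ((f j).rootMultiplicity (b : ℂ) : ℂ) * x j) * Complex.log (z - b) =
        ∑ j, x j * ∑ b : R, ((f j).rootMultiplicity (b : ℂ) : ℂ) * Complex.log (z - b) := by
      simp only [Finset.sum_mul, Finset.mul_sum]
      rw [Finset.sum_comm]
      refine Finset.sum_congr rfl fun j _ => Finset.sum_congr rfl fun b _ => ?_
      ring
    rw [h1, ← Finset.sum_add_distrib]
    refine Finset.sum_congr rfl fun j _ => ?_
    ring
  refine hB2 (R ⊕ Fin k) lam hlam Y hY x₀ hx₀ y hyX (by rw [hsum]; exact hrel)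
    (Sum.inl ⟨a, haR⟩) ?_
  intro hmem
  -- the exponentials of the span
  have hP : ∀ w ∈ Submodule.span ℚ ((B : Set ℂ) ∪ lam '' {i | i ≠ Sum.inl ⟨a, haR⟩}),
      ∃ n : ℕ, 0 < n ∧ ∃ μ : ℂ → ℤ, μ a = 0 ∧ ∃ g ∈ Γ,
        Complex.exp (n * w) = (∏ b ∈ R, (z - b) ^ μ b) * sg (g : Qbarˣ) := by
    intro w hw
    induction hw using Submodule.span_induction with
    | mem w hw =>
      rcases hw with hw | ⟨i, hi, rfl⟩
      · refine ⟨1, one_pos, fun _ => 0, rfl, U w, hΓB w (Finset.mem_coe.1 hw), ?_⟩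
        rw [Nat.cast_one, one_mul, hU w (Finset.mem_coe.1 hw)]
        simp
      · rcases i with b | j
        · have hba : (b : ℂ) ≠ a := by
            intro h
            apply hi
            show Sum.inl b = Sum.inl ⟨a, haR⟩
            rw [Sum.inl.injEq]
            exact Subtype.ext h
          refine ⟨1, one_pos, fun c => if c = (b : ℂ) then 1 else 0, if_neg hba.symm, 1,
            Γ.one_mem, ?_⟩
          have h2 : ∀ c ∈ R, (z - c) ^ ((fun c => if c = (b : ℂ) then 1 else 0 : ℂ → ℤ) c) =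
              (if c = (b : ℂ) then (z - c) else 1) := by
            intro c _
            by_cases h3 : c = (b : ℂ)
            · subst h3
              simp
            · simp [h3]
          rw [Finset.prod_congr rfl h2, Finset.prod_ite_eq' R (b : ℂ), if_pos b.2,
            Nat.cast_one, one_mul, Units.val_one, map_one, mul_one]
          exact hlog b
        · refine ⟨1, one_pos, fun _ => 0, rfl, C j, hΓC j, ?_⟩
          rw [Nat.cast_one, one_mul, hγ, hC j]
          simp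
    | zero => exact ⟨1, one_pos, fun _ => 0, rfl, 1, Γ.one_mem, by simp⟩
    | add v w _ _ hv hw =>
      obtain ⟨n, hn, μ, hμ, g, hg, e⟩ := hv
      obtain ⟨n', hn', μ', hμ', g', hg', e'⟩ := hw
      refine ⟨n * n', Nat.mul_pos hn hn', fun c => μ c * n' + μ' c * n, by simp [hμ, hμ'],
        g ^ n' * g' ^ n, Γ.mul_mem (Γ.pow_mem hg _) (Γ.pow_mem hg' _), ?_⟩
      have h1 : ((n * n' : ℕ) : ℂ) * (v + w) = (n' : ℂ) * (n * v) + (n : ℂ) * (n' * w) := by
        push_cast
        ring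
      rw [h1, Complex.exp_add, Complex.exp_nat_mul, Complex.exp_nat_mul (n' * w), e, e',
        Units.val_mul, Units.val_pow_eq_pow_val, Units.val_pow_eq_pow_val, map_mul, map_pow,
        map_pow, mul_pow, mul_pow]
      have h2 : ∏ b ∈ R, (z - b) ^ (μ b * n' + μ' b * n) =
          (∏ b ∈ R, (z - b) ^ μ b) ^ n' * (∏ b ∈ R, (z - b) ^ μ' b) ^ n := by
        rw [← Finset.prod_pow, ← Finset.prod_pow, ← Finset.prod_mul_distrib]
        refine Finset.prod_congr rfl fun b hb => ?_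
        rw [zpow_add₀ (sub_ne_zero.2 (hzR b hb)), zpow_mul, zpow_mul, zpow_natCast, zpow_natCast]
      rw [h2]
      ring
    | smul q v _ hv =>
      obtain ⟨n, hn, μ, hμ, g, hg, e⟩ := hv
      refine ⟨n * q.den, Nat.mul_pos hn q.den_pos, fun c => μ c * q.num, by simp [hμ],
        g ^ q.num, Γ.zpow_mem hg _, ?_⟩
      have h1 : ((n * q.den : ℕ) : ℂ) * (q • v) = (q.num : ℂ) * (n * v) := by
        have h2 : (q.den : ℂ) ≠ 0 := Nat.cast_ne_zero.2 q.den_pos.ne'
        have h3 : q • v = (q : ℂ) * v := Rat.smul_def q v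
        rw [h3, Rat.cast_def q]
        push_cast
        field_simp
      rw [h1, Complex.exp_int_mul, e, mul_zpow, Units.val_zpow_eq_zpow_val, map_zpow₀,
        ← Finset.prod_zpow]
      congr 1
      refine Finset.prod_congr rfl fun b _ => ?_
      rw [zpow_mul]
  obtain ⟨n, hn, μ, hμa, g, hg, e⟩ := hP _ hmem
  have e1 : Complex.exp (n * lam (Sum.inl ⟨a, haR⟩)) = (z - a) ^ n := by
    rw [Complex.exp_nat_mul]
    congr 1
    exact hlog ⟨a, haR⟩
  rw [e1] at e
  -- the exponents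
  let ν : ℂ → ℤ := fun c => if c = a then (n : ℤ) else - μ c
  have hν : ∏ b ∈ R, (z - b) ^ ν b = sg (g : Qbarˣ) := by
    have h1 : ∏ b ∈ R, (z - b) ^ ν b = (∏ b ∈ R, (if b = a then (z - b) ^ n else 1)) *
        (∏ b ∈ R, (z - b) ^ μ b)⁻¹ := by
      rw [← Finset.prod_inv_distrib, ← Finset.prod_mul_distrib]
      refine Finset.prod_congr rfl fun b _ => ?_
      by_cases hb : b = a
      · subst hb
        simp [ν, hμa]
      · simp [ν, hb]
    have hne : ∏ b ∈ R, (z - b) ^ μ b ≠ 0 :=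
      Finset.prod_ne_zero_iff.2 fun b hb => zpow_ne_zero _ (sub_ne_zero.2 (hzR b hb))
    rw [h1, Finset.prod_ite_eq' R a, if_pos haR, e]
    field_simp
  have hother : ∀ b ∈ R, b ≠ a → μ b = 0 := by
    intro b hb hba
    have h1 := hkey ν ⟨g, Pool.Agent.Y215.AF.sub_hull _ _ hg, hν⟩ a haR b hb hba.symm (by
      simp only [ν, if_pos]
      exact_mod_cast hn.ne')
    simpa [ν, hba] using h1
  have hμ0 : ∀ b ∈ R, μ b = 0 := fun b hb => by
    by_cases hba : b = a
    · rw [hba, hμa]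
    · exact hother b hb hba
  have h3 : (z - a) ^ n = sg (g : Qbarˣ) := by
    rw [e, Finset.prod_congr rfl fun b hb => by rw [hμ0 b hb, zpow_zero], Finset.prod_const_one,
      one_mul]
  refine ha₀ a haR ha ?_
  obtain ⟨v, hv⟩ := exists_unit (z := z - a) (by
    have h1 := hlam (Sum.inl ⟨a, haR⟩)
    have h2 : Complex.exp (lam (Sum.inl ⟨a, haR⟩)) = z - a := hlog ⟨a, haR⟩
    rwa [h2] at h1) (sub_ne_zero.2 (hzR a haR))
  refine ⟨v, ⟨n, hn, ?_⟩, hv⟩
  have h4 : v ^ n = g := by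
    apply sgu_inj
    rw [Units.val_pow_eq_pow_val, map_pow, ← hv, h3]
  rw [h4]
  exact hg

end Pool.Agent.H594.ML
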