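import Mathlib
import Pool.Agent.H594.ML.Ell3
import Pool.Agent.H594.ML.PolyM

set_option autoImplicit false
set_option linter.unusedSectionVars false

/-!
# Values of rational functions at the points of elliptic curves: complex numbers
-/

namespace Pool.Agent.H594.ML

open Finset
open Pool.Agent.Helper259.AbsHt Pool.Agent.Y215.SK

theorem lift_sg {P : Polynomial ℂ} (hP : ∀ i, IsAlgebraic ℚ (P.coeff i)) :
    ∃ P' : Polynomial Qbar, P'.map sg = P := by
  have h1 : P ∈ Polynomial.lifts sg := by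
    rw [Polynomial.lifts_iff_coeff_lifts]
    intro i
    obtain ⟨x, hx⟩ := exists_sg (hP i)
    exact ⟨x, hx⟩
  exact (Polynomial.mem_lifts P).1 h1

theorem comap_fin (K : IntermediateField ℚ ℂ) [FiniteDimensional ℚ K] :
    FiniteDimensional ℚ (K.comap sgA) := by
  let f : (K.comap sgA) →ₗ[ℚ] K :=
    { toFun := fun x => ⟨sgA x.1, x.2⟩
      map_add' := fun x y => Subtype.ext (by simp)
      map_smul' := fun c x => Subtype.ext (by
        simp only [IntermediateField.coe_smul, RingHom.id_apply]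
        rw [Algebra.smul_def, map_mul, AlgHom.commutes, ← Algebra.smul_def]) }
  refine FiniteDimensional.of_injective f fun x y h => ?_
  exact Subtype.ext (sgA.injective (congrArg (fun z : K => (z : ℂ)) h))

theorem cubic_roots {F : Polynomial ℂ} (hF : ∀ i, IsAlgebraic ℚ (F.coeff i)) (hm : F.Monic)
    (h3 : F.natDegree = 3) (hs : F.Separable) : ∃ e : Fin 3 → Qbar, Function.Injective e ∧
      ∀ x : ℂ, F.eval x = (x - sg (e 0)) * (x - sg (e 1)) * (x - sg (e 2)) := by
  have hsp := IsAlgClosed.splits F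
  have hcard : F.roots.card = 3 := by
    rw [← h3]
    exact hsp.natDegree_eq_card_roots.symm
  obtain ⟨a, b, c, habc⟩ := Multiset.card_eq_three.1 hcard
  have hnd := Polynomial.nodup_roots hs
  rw [habc] at hnd
  have hroot : ∀ z ∈ F.roots, ∃ y, sg y = z := fun z hz => exists_sg (root_alg hF hz)
  obtain ⟨a', ha'⟩ := hroot a (by rw [habc]; simp)
  obtain ⟨b', hb'⟩ := hroot b (by rw [habc]; simp)
  obtain ⟨c', hc'⟩ := hroot c (by rw [habc]; simp)
  simp only [Multiset.insert_eq_cons, Multiset.nodup_cons, Multiset.mem_cons,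
    Multiset.mem_singleton, Multiset.nodup_singleton, and_true, not_or] at hnd
  obtain ⟨⟨hab, hac⟩, hbc⟩ := hnd
  have hab' : a' ≠ b' := fun h => hab (by rw [← ha', ← hb', h])
  have hac' : a' ≠ c' := fun h => hac (by rw [← ha', ← hc', h])
  have hbc' : b' ≠ c' := fun h => hbc (by rw [← hb', ← hc', h])
  refine ⟨![a', b', c'], ?_, fun x => ?_⟩
  · intro i j hij
    fin_cases i <;> fin_cases j <;> simp_all
  · rw [hsp.eval_eq_prod_roots x, hm.leadingCoeff, one_mul, habc]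
    simp [ha', hb', hc', mul_assoc]

/-- **Values of a rational function at the points of an elliptic curve over a number field.** -/
theorem ell_C (Γ : Subgroup Qbarˣ) (hΓ : Γ.FG) (K : IntermediateField ℚ ℂ)
    [FiniteDimensional ℚ K] (F A B C : Polynomial ℂ) (hF : ∀ i, IsAlgebraic ℚ (F.coeff i))
    (hm : F.Monic) (h3 : F.natDegree = 3) (hs : F.Separable)
    (hA : ∀ i, IsAlgebraic ℚ (A.coeff i)) (hB : ∀ i, IsAlgebraic ℚ (B.coeff i))
    (hC : ∀ i, IsAlgebraic ℚ (C.coeff i)) (hC0 : C ≠ 0)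
    (hnc : ∀ c : ℂ, ¬ (A = Polynomial.C c * C ∧ B = 0)) :
    {Q : ℂ × ℂ | Q.1 ∈ K ∧ Q.2 ∈ K ∧ Q.2 ^ 2 = F.eval Q.1 ∧ C.eval Q.1 ≠ 0 ∧
      ∃ u ∈ DivHull Γ, (A.eval Q.1 + B.eval Q.1 * Q.2) / C.eval Q.1 = sg (u : Qbarˣ)}.Finite := by
  obtain ⟨e, he, hFe⟩ := cubic_roots hF hm h3 hs
  obtain ⟨A', rfl⟩ := lift_sg hA
  obtain ⟨B', rfl⟩ := lift_sg hB
  obtain ⟨C', rfl⟩ := lift_sg hC
  have hC0' : C' ≠ 0 := by
    rintro rfl
    exact hC0 (Polynomial.map_zero _)
  have := comap_fin K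
  have h1 := ell_Qbar Γ hΓ (K.comap sgA) e he A' B' C' hC0' (by
    rintro c ⟨h4, h5⟩
    refine hnc (sg c) ⟨?_, ?_⟩
    · rw [h4, Polynomial.map_mul, Polynomial.map_C]
    · rw [h5, Polynomial.map_zero])
  refine (h1.image (fun Q : Qbar × Qbar => (sg Q.1, sg Q.2))).subset ?_
  rintro ⟨x, y⟩ ⟨hx, hy, hQ, hCx, u, hu, hval⟩
  simp only at hx hy hQ hCx hval
  have halg : ∀ z ∈ K, ∃ z', sg z' = z := by
    intro z hz
    refine exists_sg ?_
    have h2 : IsAlgebraic ℚ (⟨z, hz⟩ : K) := Algebra.IsAlgebraic.isAlgebraic _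
    exact h2.algebraMap
  obtain ⟨x', rfl⟩ := halg x hx
  obtain ⟨y', rfl⟩ := halg y hy
  refine ⟨(x', y'), ⟨hx, hy, ?_, ?_, u, hu, ?_⟩, rfl⟩
  · apply sg_inj
    show sg (y' ^ 2) = sg ((x' - e 0) * (x' - e 1) * (x' - e 2))
    rw [map_pow, hQ, hFe, map_mul, map_mul, map_sub, map_sub, map_sub]
  · intro h4
    simp only at h4
    apply hCx
    rw [Polynomial.eval_map_apply, h4, map_zero]
  · apply sg_inj
    rw [← hval]
    simp only
    rw [map_div₀, map_add, map_mul, Polynomial.eval_map_apply, Polynomial.eval_map_apply,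
      Polynomial.eval_map_apply]

end Pool.Agent.H594.ML
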