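import Mathlib
import Pool.Agent.H594.ML.Hull
import Pool.Agent.H594.ML.Exc

set_option autoImplicit false
set_option linter.unusedSectionVars false

/-!
# Unit equations in groups of finite rank, sums of elements of groups of finite rank
-/

namespace Pool.Agent.H594.ML

open Finset MvPolynomial
open Pool.Agent.Helper259.AbsHt Pool.Agent.Y215.SK

/-- the unit equation in a division hull -/
theorem unit_eq (Γ : Subgroup Qbarˣ) (hΓ : Γ.FG) (n : ℕ) :
    {x : Fin n → Qbar | (∀ i, ∃ u ∈ DivHull Γ, x i = ((u : Qbarˣ) : Qbar)) ∧ ∑ i, x i = 1 ∧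
      ∀ I : Finset (Fin n), I.Nonempty → ∑ i ∈ I, x i ≠ 0}.Finite := by
  classical
  let F : Fin 1 → MvPolynomial (Fin n) Qbar := fun _ => ∑ i, X i - 1
  have hF : ∀ x : Fin n → Qbar, aeval x (F 0) = ∑ i, x i - 1 := by
    intro x
    simp [F]
  refine (torP_finite F Γ hΓ).subset ?_
  rintro x ⟨hx, hsum, hsub⟩
  choose u hu hxu using hx
  refine ⟨fun i => ?_, ⟨u, hu, hxu⟩, fun m hm => ?_⟩
  · rw [Subsingleton.elim i 0, hF, hsum, sub_self]
  by_contra hcon
  push Not at hcon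
  have hall : ∀ t : Qbar, t ≠ 0 → ∑ i, t ^ m i * x i = 1 := by
    intro t ht
    have h1 := hcon t ht 0
    rw [hF] at h1
    exact sub_eq_zero.1 h1
  obtain ⟨j₀, hj₀⟩ : ∃ j, m j ≠ 0 := by
    by_contra h
    push Not at h
    exact hm (funext h)
  obtain ⟨N, hN⟩ : ∃ N : ℕ, ∀ j, 0 ≤ (N : ℤ) + m j := by
    refine ⟨(∑ j, |m j|).toNat, fun j => ?_⟩
    have h1 : |m j| ≤ ∑ j, |m j| := Finset.single_le_sum (f := fun j => |m j|)
      (fun _ _ => abs_nonneg _) (Finset.mem_univ j)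
    have h2 := neg_abs_le (m j)
    omega
  let p : Polynomial Qbar := ∑ j, Polynomial.C (x j) * Polynomial.X ^ ((N : ℤ) + m j).toNat -
    Polynomial.X ^ N
  have hp : ∀ t : Qbar, t ≠ 0 → p.eval t = 0 := by
    intro t ht
    show (∑ j, _ - _ : Polynomial Qbar).eval t = 0
    rw [Polynomial.eval_sub, Polynomial.eval_finsetSum, Polynomial.eval_pow, Polynomial.eval_X]
    have h1 : ∀ j, (Polynomial.C (x j) * Polynomial.X ^ ((N : ℤ) + m j).toNat :
        Polynomial Qbar).eval t = t ^ N * (t ^ m j * x j) := by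
      intro j
      rw [Polynomial.eval_mul, Polynomial.eval_C, Polynomial.eval_pow, Polynomial.eval_X]
      have h2 : t ^ ((N : ℤ) + m j).toNat = t ^ N * t ^ m j := by
        rw [← zpow_natCast, Int.toNat_of_nonneg (hN j), zpow_add₀ ht, zpow_natCast]
      rw [h2]
      ring
    simp only [h1]
    rw [← Finset.mul_sum, hall t ht, mul_one, sub_self]
  have hp0 : p = 0 := by
    refine Polynomial.eq_zero_of_infinite_isRoot p ?_
    have h1 : ({0}ᶜ : Set Qbar).Infinite := (Set.finite_singleton (0 : Qbar)).infinite_compl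
    refine h1.mono ?_
    intro t ht
    exact hp t ht
  have hc : p.coeff ((N : ℤ) + m j₀).toNat =
      ∑ j ∈ Finset.univ.filter (fun j => m j = m j₀), x j := by
    show (∑ j, _ - _ : Polynomial Qbar).coeff _ = _
    rw [Polynomial.coeff_sub, Polynomial.finsetSum_coeff, Polynomial.coeff_X_pow]
    have h1 : ¬ ((N : ℤ) + m j₀).toNat = N := by
      have := hN j₀
      omega
    rw [if_neg h1, sub_zero, Finset.sum_filter]
    refine Finset.sum_congr rfl fun j _ => ?_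
    rw [Polynomial.coeff_C_mul, Polynomial.coeff_X_pow]
    by_cases h2 : m j = m j₀
    · rw [if_pos h2, h2, if_pos rfl, mul_one]
    · rw [if_neg h2, if_neg, mul_zero]
      intro h3
      apply h2
      have h4 := hN j₀
      have h5 := hN j
      omega
  rw [hp0, Polynomial.coeff_zero] at hc
  exact hsub (Finset.univ.filter (fun j => m j = m j₀))
    ⟨j₀, Finset.mem_filter.2 ⟨Finset.mem_univ _, rfl⟩⟩ hc.symm

theorem divHull_mono {Γ Γ' : Subgroup Qbarˣ} (h : Γ ≤ Γ') {u : Qbarˣ} (hu : u ∈ DivHull Γ) :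
    u ∈ DivHull Γ' := by
  obtain ⟨k, hk, hu⟩ := hu
  exact ⟨k, hk, h hu⟩

/-- the unit equation over the complex numbers -/
theorem unitC (Γ : Subgroup Qbarˣ) (hΓ : Γ.FG) (ι : Type) [Fintype ι] :
    {x : ι → ℂ | (∀ i, ∃ u ∈ DivHull Γ, x i = sg u) ∧ ∑ i, x i = 1 ∧
      ∀ I : Finset ι, I.Nonempty → ∑ i ∈ I, x i ≠ 0}.Finite := by
  classical
  have e := Fintype.equivFin ι
  refine ((unit_eq Γ hΓ (Fintype.card ι)).image (fun x i => sg (x (e i)))).subset ?_
  rintro x ⟨hx, hsum, hsub⟩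
  choose u hu hxu using hx
  refine ⟨fun i => ((u (e.symm i) : Qbarˣ) : Qbar), ⟨fun i => ⟨_, hu _, rfl⟩, ?_,
    fun I hI h0 => ?_⟩, ?_⟩
  · apply sg_inj
    rw [map_sum, map_one, ← hsum]
    rw [← Equiv.sum_comp e.symm]
    exact Finset.sum_congr rfl fun i _ => (hxu _).symm
  · apply hsub (I.map e.symm.toEmbedding) (hI.map)
    rw [Finset.sum_map]
    have h1 := congrArg sg h0
    rw [map_sum, map_zero] at h1
    rw [← h1]
    exact Finset.sum_congr rfl fun i _ => hxu _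
  · funext i
    show sg ((u (e.symm (e i)) : Qbarˣ) : Qbar) = x i
    rw [Equiv.symm_apply_apply, ← hxu]

/-- `x = sg u` with `u` in the division hull -/
def InH (Γ : Subgroup Qbarˣ) (x : ℂ) : Prop := ∃ u ∈ DivHull Γ, x = sg (u : Qbarˣ)

theorem InH.ne_zero {Γ : Subgroup Qbarˣ} {x : ℂ} (h : InH Γ x) : x ≠ 0 := by
  obtain ⟨u, -, rfl⟩ := h
  exact (map_ne_zero sg).2 u.ne_zero

theorem InH.mul {Γ : Subgroup Qbarˣ} {x y : ℂ} (hx : InH Γ x) (hy : InH Γ y) : InH Γ (x * y) := by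
  obtain ⟨u, hu, rfl⟩ := hx
  obtain ⟨v, hv, rfl⟩ := hy
  exact ⟨u * v, (divGroup Γ).mul_mem hu hv, by rw [Units.val_mul, map_mul]⟩

theorem InH.inv {Γ : Subgroup Qbarˣ} {x : ℂ} (hx : InH Γ x) : InH Γ x⁻¹ := by
  obtain ⟨u, hu, rfl⟩ := hx
  exact ⟨u⁻¹, (divGroup Γ).inv_mem hu, by rw [Units.val_inv_eq_inv_val, map_inv₀]⟩

theorem InH.div {Γ : Subgroup Qbarˣ} {x y : ℂ} (hx : InH Γ x) (hy : InH Γ y) : InH Γ (x / y) := by
  rw [div_eq_mul_inv]
  exact hx.mul hy.inv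

theorem InH.pow {Γ : Subgroup Qbarˣ} {x : ℂ} (hx : InH Γ x) (n : ℕ) : InH Γ (x ^ n) := by
  obtain ⟨u, hu, rfl⟩ := hx
  exact ⟨u ^ n, (divGroup Γ).pow_mem hu n, by rw [Units.val_pow_eq_pow_val, map_pow]⟩

theorem InH.neg {Γ : Subgroup Qbarˣ} {x : ℂ} (hx : InH Γ x) : InH Γ (-x) := by
  have h1 : InH Γ (-1) := by
    refine ⟨-1, ⟨2, two_pos, ?_⟩, by simp⟩
    rw [neg_one_sq]
    exact Γ.one_mem
  have h2 := h1.mul hx
  rwa [neg_one_mul] at h2

theorem InH.mono {Γ Γ' : Subgroup Qbarˣ} (h : Γ ≤ Γ') {x : ℂ} (hx : InH Γ x) : InH Γ' x := by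
  obtain ⟨u, hu, rfl⟩ := hx
  exact ⟨u, divHull_mono h hu, rfl⟩

/-- **Sums of elements of a group of finite rank which lie in the group**: up to common factors
there are only finitely many. -/
theorem sums_finite (Γ : Subgroup Qbarˣ) (hΓ : Γ.FG) (ι : Type) [Fintype ι] :
    {y : ι → ℂ | ∃ x : ι → ℂ, (∀ i, InH Γ (x i)) ∧ InH Γ (∑ i, x i) ∧
      (∀ I : Finset ι, I.Nonempty → ∑ i ∈ I, x i ≠ 0) ∧
      y = fun i => x i / ∑ i, x i}.Finite := by
  refine (unitC Γ hΓ ι).subset ?_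
  rintro y ⟨x, hx, hs, hsub, rfl⟩
  refine ⟨fun i => (hx i).div hs, ?_, fun I hI h0 => ?_⟩
  · rw [← Finset.sum_div, div_self hs.ne_zero]
  · rw [← Finset.sum_div, div_eq_zero_iff] at h0
    exact h0.elim (hsub I hI) hs.ne_zero

/-- powers of a number which is not a root of unity -/
theorem pow_inj' {ρ : ℂ} (hρ0 : ρ ≠ 0) (hρ : ∀ n : ℕ, 0 < n → ρ ^ n ≠ 1) :
    Function.Injective (fun n : ℕ => ρ ^ n) := by
  intro a b hab
  simp only at hab
  by_contra hne
  rcases lt_or_gt_of_ne hne with h | h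
  · apply hρ (b - a) (by omega)
    have h1 : ρ ^ b = ρ ^ a * ρ ^ (b - a) := by rw [← pow_add]; congr 1; omega
    rw [h1] at hab
    exact (mul_right_eq_self₀.1 hab.symm).resolve_right (pow_ne_zero _ hρ0)
  · apply hρ (a - b) (by omega)
    have h1 : ρ ^ a = ρ ^ b * ρ ^ (a - b) := by rw [← pow_add]; congr 1; omega
    rw [h1] at hab
    exact (mul_right_eq_self₀.1 hab).resolve_right (pow_ne_zero _ hρ0)

/-- vanishing subsums of a nondegenerate power sum occur only finitely often -/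
theorem subsum_finite (Γ : Subgroup Qbarˣ) (hΓ : Γ.FG) {k : ℕ} (c α : Fin k → ℂ)
    (hc : ∀ i, InH Γ (c i)) (hα : ∀ i, InH Γ (α i))
    (hnd : ∀ i j, i ≠ j → ∀ n : ℕ, 0 < n → (α i / α j) ^ n ≠ 1) :
    {n : ℕ | ∃ I : Finset (Fin k), I.Nonempty ∧ ∑ i ∈ I, c i * α i ^ n = 0}.Finite := by
  classical
  -- sets with a distinguished element
  have key : ∀ (J : Finset (Fin k)) (i₀ : Fin k), i₀ ∉ J → J.Nonempty →
      {n : ℕ | ∑ i ∈ J, c i * α i ^ n = - (c i₀ * α i₀ ^ n) ∧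
        ∀ I ⊆ J, I.Nonempty → ∑ i ∈ I, c i * α i ^ n ≠ 0}.Finite := by
    intro J i₀ hi₀ hJ
    obtain ⟨i₁, hi₁⟩ := hJ
    have h10 : i₁ ≠ i₀ := by
      rintro rfl
      exact hi₀ hi₁
    have hinj := pow_inj' (ρ := α i₁ / α i₀) (div_ne_zero (hα i₁).ne_zero (hα i₀).ne_zero)
      (hnd i₁ i₀ h10)
    refine Set.Finite.of_finite_image
      (f := fun (n : ℕ) (i : J) => - (c i * α i ^ n) / (c i₀ * α i₀ ^ n))
      ((unitC Γ hΓ J).subset ?_) ?_
    · rintro _ ⟨n, ⟨hn1, hn2⟩, rfl⟩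
      have h0 : c i₀ * α i₀ ^ n ≠ 0 :=
        mul_ne_zero (hc i₀).ne_zero (pow_ne_zero _ (hα i₀).ne_zero)
      refine ⟨fun i => (((hc i).mul ((hα i).pow n)).neg).div ((hc i₀).mul ((hα i₀).pow n)),
        ?_, fun I hI hI0 => ?_⟩
      · rw [← Finset.sum_div, Finset.sum_neg_distrib,
          Finset.sum_coe_sort J (fun i => c i * α i ^ n), hn1, neg_neg, div_self h0]
      · rw [← Finset.sum_div, Finset.sum_neg_distrib, div_eq_zero_iff, neg_eq_zero] at hI0
        have h1 := hI0.resolve_right h0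
        refine hn2 (I.map (Function.Embedding.subtype _)) ?_ hI.map ?_
        · intro i hi
          obtain ⟨j, -, rfl⟩ := Finset.mem_map.1 hi
          exact j.2
        · rw [Finset.sum_map]
          exact h1
    · intro a _ b _ hab
      have h1 := congrFun hab ⟨i₁, hi₁⟩
      simp only at h1
      apply hinj
      have hc1 := (hc i₁).ne_zero
      have hc0 := (hc i₀).ne_zero
      have hα0 := (hα i₀).ne_zero
      simp only [div_pow]
      have hpa := pow_ne_zero a hα0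
      have hpb := pow_ne_zero b hα0
      field_simp at h1 ⊢
      linear_combination -h1
  have hall : (⋃ p ∈ (Finset.univ : Finset (Finset (Fin k) × Fin k)),
      {n : ℕ | p.2 ∉ p.1 ∧ p.1.Nonempty ∧ ∑ i ∈ p.1, c i * α i ^ n = - (c p.2 * α p.2 ^ n) ∧
        ∀ I ⊆ p.1, I.Nonempty → ∑ i ∈ I, c i * α i ^ n ≠ 0}).Finite := by
    refine (Finset.finite_toSet _).biUnion fun p _ => ?_
    by_cases h : p.2 ∉ p.1 ∧ p.1.Nonempty
    · refine (key p.1 p.2 h.1 h.2).subset ?_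
      rintro n ⟨-, -, h1, h2⟩
      exact ⟨h1, h2⟩
    · refine Set.finite_empty.subset ?_
      rintro n ⟨h1, h2, -⟩
      exact h ⟨h1, h2⟩
  refine hall.subset ?_
  rintro n ⟨I, hI, hI0⟩
  -- a minimal vanishing subsum
  obtain ⟨I', hI'1, hI'2⟩ : ∃ I' : Finset (Fin k), (I'.Nonempty ∧ ∑ i ∈ I', c i * α i ^ n = 0) ∧
      ∀ J : Finset (Fin k), J.Nonempty → ∑ i ∈ J, c i * α i ^ n = 0 → I'.card ≤ J.card := by
    obtain ⟨I', h1, h2⟩ := Finset.exists_min_image
      (Finset.univ.filter fun J : Finset (Fin k) => J.Nonempty ∧ ∑ i ∈ J, c i * α i ^ n = 0)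
      (fun J => J.card) ⟨I, Finset.mem_filter.2 ⟨Finset.mem_univ _, hI, hI0⟩⟩
    exact ⟨I', (Finset.mem_filter.1 h1).2, fun J hJ hJ0 =>
      h2 J (Finset.mem_filter.2 ⟨Finset.mem_univ _, hJ, hJ0⟩)⟩
  obtain ⟨⟨i₀, hi₀⟩, hsum⟩ := hI'1
  have hterm : ∀ i, c i * α i ^ n ≠ 0 := fun i =>
    mul_ne_zero (hc i).ne_zero (pow_ne_zero _ (hα i).ne_zero)
  have hsplit : c i₀ * α i₀ ^ n + ∑ i ∈ I'.erase i₀, c i * α i ^ n =
    ∑ i ∈ I', c i * α i ^ n := Finset.add_sum_erase I' (fun i => c i * α i ^ n) hi₀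
  refine Set.mem_biUnion (x := (I'.erase i₀, i₀)) (Finset.mem_coe.2 (Finset.mem_univ _))
    ⟨Finset.notMem_erase i₀ I', ?_, ?_, fun J hJ hJne hJ0 => ?_⟩
  · rw [Finset.nonempty_iff_ne_empty]
    intro h
    have h' : I'.erase i₀ = ∅ := h
    rw [h', Finset.sum_empty, add_zero, hsum] at hsplit
    exact hterm i₀ hsplit
  · rw [hsum] at hsplit
    linear_combination hsplit
  · have h1 := hI'2 J hJne hJ0
    have h2 := Finset.card_le_card hJ
    rw [Finset.card_erase_of_mem hi₀] at h2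
    have h3 : 0 < I'.card := Finset.card_pos.2 ⟨i₀, hi₀⟩
    omega

/-- **Nondegenerate power sums in a group of finite rank.** -/
theorem powerSum_finite (Γ : Subgroup Qbarˣ) (hΓ : Γ.FG) {k : ℕ} (hk : 2 ≤ k) (c α : Fin k → ℂ)
    (hc : ∀ i, InH Γ (c i)) (hα : ∀ i, InH Γ (α i))
    (hnd : ∀ i j, i ≠ j → ∀ n : ℕ, 0 < n → (α i / α j) ^ n ≠ 1) :
    {n : ℕ | InH Γ (∑ i, c i * α i ^ n)}.Finite := by
  classical
  let i₀ : Fin k := ⟨0, by omega⟩
  let i₁ : Fin k := ⟨1, by omega⟩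
  have h10 : i₁ ≠ i₀ := by
    intro h
    have := congrArg Fin.val h
    simp [i₀, i₁] at this
  have hinj := pow_inj' (ρ := α i₁ / α i₀) (div_ne_zero (hα i₁).ne_zero (hα i₀).ne_zero)
    (hnd i₁ i₀ h10)
  have h1 := subsum_finite Γ hΓ c α hc hα hnd
  have h2 : {n : ℕ | InH Γ (∑ i, c i * α i ^ n) ∧
      ∀ I : Finset (Fin k), I.Nonempty → ∑ i ∈ I, c i * α i ^ n ≠ 0}.Finite := by
    refine Set.Finite.of_finite_image
      (f := fun (n : ℕ) (i : Fin k) => c i * α i ^ n / ∑ i, c i * α i ^ n)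
      ((sums_finite Γ hΓ (Fin k)).subset ?_) ?_
    · rintro _ ⟨n, ⟨hn1, hn2⟩, rfl⟩
      exact ⟨fun i => c i * α i ^ n, fun i => (hc i).mul ((hα i).pow n), hn1, hn2, rfl⟩
    · rintro a ⟨ha, -⟩ b ⟨hb, -⟩ hab
      have e0 := congrFun hab i₀
      have e1 := congrFun hab i₁
      simp only at e0 e1
      have sa := ha.ne_zero
      have sb := hb.ne_zero
      have hc1 := (hc i₁).ne_zero
      have hc0 := (hc i₀).ne_zero
      have hα0 := (hα i₀).ne_zero
      have hpa := pow_ne_zero a hα0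
      have hpb := pow_ne_zero b hα0
      apply hinj
      simp only [div_pow]
      generalize (∑ i, c i * α i ^ a) = A at *
      generalize (∑ i, c i * α i ^ b) = B at *
      rw [div_eq_div_iff sa sb] at e0 e1
      rw [div_eq_div_iff hpa hpb]
      have h3 : c i₁ * c i₀ * B * A * (α i₁ ^ a * α i₀ ^ b - α i₁ ^ b * α i₀ ^ a) = 0 := by
        linear_combination (c i₀ * α i₀ ^ b * A) * e1 - (c i₁ * α i₁ ^ b * A) * e0
      have h4 : c i₁ * c i₀ * B * A ≠ 0 :=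
        mul_ne_zero (mul_ne_zero (mul_ne_zero hc1 hc0) sb) sa
      exact sub_eq_zero.1 ((mul_eq_zero.1 h3).resolve_left h4)
  refine (h1.union h2).subset ?_
  intro n hn
  by_cases h : ∃ I : Finset (Fin k), I.Nonempty ∧ ∑ i ∈ I, c i * α i ^ n = 0
  · exact Or.inl h
  · push Not at h
    exact Or.inr ⟨hn, h⟩

end Pool.Agent.H594.ML
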