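import Mathlib
import Pool.Agent.H594.ML.PolyM

set_option autoImplicit false
set_option linter.unusedSectionVars false

/-!
# Logarithms of the values of independent polynomials
-/

namespace Pool.Agent.H594.ML

open Finset
open Pool.Agent.H301R2.SSE (QB mem_QB Lt Lt_one Lt_mul Lt_alg Lt_log)
open Pool.Agent.W254.HP (boxV)

/-- independence of polynomials with respect to a field -/
def TwoZ (K : IntermediateField ℚ ℂ) {k : ℕ} (f : Fin k → Polynomial ℂ) : Prop :=
  ∀ m : Fin k → ℤ, m ≠ 0 → ∃ a : ℂ, ∑ j, m j * ((f j).rootMultiplicity a : ℤ) ≠ 0 ∧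
    (a ∉ K ∨ ∃ b : ℂ, b ≠ a ∧ ∑ j, m j * ((f j).rootMultiplicity b : ℤ) ≠ 0)

theorem two_ne {K : IntermediateField ℚ ℂ} {k : ℕ} {f : Fin k → Polynomial ℂ} (h : TwoZ K f)
    (j : Fin k) : f j ≠ 0 := by
  intro h0
  obtain ⟨a, ha, -⟩ := h (Pi.single j 1) (by
    intro h1
    have := congrFun h1 j
    simp at this)
  apply ha
  rw [Finset.sum_eq_single j]
  · rw [h0]
    simp
  · intro i _ hij
    rw [Pi.single_eq_of_ne hij, zero_mul]
  · intro h1
    exact absurd (Finset.mem_univ j) h1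

/-- a rational functional which vanishes on `Y` -/
theorem exists_g (Y : Submodule QB ℂ) {x : ℂ} (hx : x ∉ Y) :
    ∃ g : ℂ →ₗ[ℚ] ℚ, (∀ y ∈ Y, g y = 0) ∧ g x ≠ 0 := by
  obtain ⟨g, hg1, hg2⟩ := Submodule.exists_le_ker_of_notMem
    (show x ∉ (Y.restrictScalars ℚ) from hx)
  exact ⟨g, fun y hy => hg2 hy, hg1⟩

theorem two_free {K : IntermediateField ℚ ℂ} {k : ℕ} {f : Fin k → Polynomial ℂ}
    (h : TwoZ K f) (Y : Submodule QB ℂ) (a₀ : ℂ) (ha₀ : a₀ ∈ K)
    (x : Fin k → ℂ)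
    (hx : ∀ a ≠ a₀, ∑ j, ((f j).rootMultiplicity a : ℂ) * x j ∈ Y) (i : Fin k) : x i ∈ Y := by
  classical
  by_contra hi
  obtain ⟨g, hg, hgi⟩ := exists_g Y hi
  -- common denominator
  let N : ℕ := ∏ j, (g (x j)).den
  have hN : N ≠ 0 := Finset.prod_ne_zero_iff.2 fun j _ => (g (x j)).den_ne_zero
  have hint : ∀ j, ∃ m : ℤ, (m : ℚ) = N * g (x j) := by
    intro j
    obtain ⟨c, hc⟩ : (g (x j)).den ∣ N := Finset.dvd_prod_of_mem _ (Finset.mem_univ j)
    refine ⟨c * (g (x j)).num, ?_⟩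
    rw [hc]
    push_cast
    have h1 := Rat.mul_den_eq_num (g (x j))
    rw [← h1]
    ring
  choose m hm using hint
  obtain ⟨a, ha, hab⟩ := h m (by
    intro h0
    have h1 := hm i
    rw [h0] at h1
    rw [Pi.zero_apply, Int.cast_zero] at h1
    exact (mul_ne_zero (Nat.cast_ne_zero.2 hN) hgi) h1.symm)
  have hzero : ∀ c ≠ a₀, ∑ j, m j * ((f j).rootMultiplicity c : ℤ) = 0 := by
    intro c hc
    have h1 := hg _ (hx c hc)
    rw [map_sum] at h1
    have h2 : ∀ j, g (((f j).rootMultiplicity c : ℂ) * x j) =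
        ((f j).rootMultiplicity c : ℚ) * g (x j) := by
      intro j
      rw [← nsmul_eq_mul, map_nsmul, nsmul_eq_mul]
    simp only [h2] at h1
    have h3 : ((∑ j, m j * ((f j).rootMultiplicity c : ℤ) : ℤ) : ℚ) = 0 := by
      push_cast
      have h4 : ∀ j, (m j : ℚ) * ((f j).rootMultiplicity c : ℚ) =
          N * (((f j).rootMultiplicity c : ℚ) * g (x j)) := by
        intro j
        rw [hm]
        ring
      simp only [h4]
      rw [← Finset.mul_sum, h1, mul_zero]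
    exact_mod_cast h3
  by_cases h1 : a = a₀
  · rcases hab with hab | ⟨b, hab, hb⟩
    · exact hab (by rw [h1]; exact ha₀)
    · exact hb (hzero b (by rw [← h1]; exact hab))
  · exact ha (hzero a h1)

theorem zeros_finite {k : ℕ} (f : Fin k → Polynomial ℂ) (h0 : ∀ j, f j ≠ 0) :
    {z : ℂ | ¬ ∀ j, (f j).eval z ≠ 0}.Finite := by
  have h1 : (⋃ j, {z : ℂ | (f j).eval z = 0}).Finite := by
    refine Set.finite_iUnion fun j => ?_
    have h2 := Polynomial.rootSet_finite (f j) ℂ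
    refine h2.subset ?_
    intro z hz
    rw [Polynomial.mem_rootSet]
    refine ⟨h0 j, ?_⟩
    rw [Polynomial.coe_aeval_eq_eval]
    exact hz
  refine h1.subset ?_
  intro z hz
  have hz' : ¬ ∀ j, (f j).eval z ≠ 0 := hz
  push Not at hz'
  obtain ⟨j, hj⟩ := hz'
  exact Set.mem_iUnion.2 ⟨j, hj⟩

theorem values_free (X : Submodule QB ℂ) (hX : X.FG) (T : Finset ℂ)
    (hT : ∀ x ∈ T, IsAlgebraic ℚ x) {k : ℕ} (f : Fin k → Polynomial ℂ)
    (hf : ∀ j i, IsAlgebraic ℚ ((f j).coeff i))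
    (h2 : TwoZ (IntermediateField.adjoin ℚ (T : Set ℂ)) f) :
    {z : ℂ | z ∈ Subring.closure (T : Set ℂ) ∧ ¬ ((∀ j, (f j).eval z ≠ 0) ∧ ∀ l : Fin k → ℂ,
      (∀ j, Complex.exp (l j) = (f j).eval z) → ∀ Y ≤ X, ∀ x₀ ∈ X, ∀ x : Fin k → ℂ,
      (∀ j, x j ∈ X) → x₀ + ∑ j, x j * l j ∈ Y * Lt → ∀ j, x j ∈ Y)}.Finite := by
  refine ((poly_main X hX T hT f (two_ne h2) hf).union (zeros_finite f (two_ne h2))).subset ?_
  rintro z ⟨hz, hno⟩
  by_contra hzF
  rw [Set.mem_union, not_or] at hzF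
  obtain ⟨h3, h4⟩ := hzF
  have h4' : ∀ j, (f j).eval z ≠ 0 := by
    by_contra h5
    exact h4 h5
  have h3' : ∃ a₀ ∈ IntermediateField.adjoin ℚ (T : Set ℂ), ∀ l : Fin k → ℂ,
      (∀ j, Complex.exp (l j) = (f j).eval z) → ∀ Y ≤ X, ∀ x₀ ∈ X, ∀ x : Fin k → ℂ,
      (∀ j, x j ∈ X) → x₀ + ∑ j, x j * l j ∈ Y * Lt →
      ∀ a ≠ a₀, ∑ j, ((f j).rootMultiplicity a : ℂ) * x j ∈ Y := by
    by_contra h5
    exact h3 ⟨hz, h5⟩
  obtain ⟨a₀, haK, ha₀⟩ := h3'
  exact hno ⟨h4', fun l hl Y hY x₀ hx₀ x hx hrel i =>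
    two_free h2 Y a₀ haK x (ha₀ l hl Y hY x₀ hx₀ x hx hrel) i⟩


/-- the version for powers -/
theorem powers_free {r k : ℕ} (t : Fin r → ℂ) (D : ℕ) (w : Fin k → ℂ) (T : Finset ℂ)
    (hT : ∀ x ∈ T, IsAlgebraic ℚ x) (f : Fin k → Polynomial ℂ)
    (hf : ∀ j i, IsAlgebraic ℚ ((f j).coeff i))
    (h2 : TwoZ (IntermediateField.adjoin ℚ (T : Set ℂ)) f) :
    {z : ℂ | z ∈ Subring.closure (T : Set ℂ) ∧ ¬ ((∀ j, (f j).eval z ≠ 0) ∧ ∀ l : Fin k → ℂ,
      (∀ j, Complex.exp (l j) = (f j).eval z) →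
      ∀ (A₀ Q : MvPolynomial (Fin r) QB) (A : Fin k → MvPolynomial (Fin r) QB),
        (∀ i, A₀.degreeOf i ≤ D) → (∀ i, Q.degreeOf i ≤ D) → (∀ j i, (A j).degreeOf i ≤ D) →
        MvPolynomial.aeval t Q ≠ 0 →
        MvPolynomial.aeval t A₀ / MvPolynomial.aeval t Q +
          ∑ j, MvPolynomial.aeval t (A j) / MvPolynomial.aeval t Q * (l j + w j) ∈ Lt →
        ∀ j, ∃ c : QB, MvPolynomial.aeval t (A j) / MvPolynomial.aeval t Q = (c : ℂ))}.Finite := by
  classical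
  let X : Submodule QB ℂ := boxV t (D + 1) * Submodule.span QB ({1} ∪ Set.range w)
  have hX : X.FG := Submodule.FG.mul (Submodule.fg_span (Set.finite_range _))
    (Submodule.fg_span ((Set.finite_singleton _).union (Set.finite_range _)))
  have hmem : ∀ P : MvPolynomial (Fin r) QB, (∀ i, P.degreeOf i ≤ D) →
      MvPolynomial.aeval t P ∈ X := by
    intro P hP
    have h1 := Submodule.mul_mem_mul (Pool.Agent.HP778.aeval_mem_box t D P hP)
      (Submodule.subset_span (R := QB) (s := ({1} ∪ Set.range w)) (Or.inl rfl))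
    rwa [mul_one] at h1
  have hmemw : ∀ P : MvPolynomial (Fin r) QB, (∀ i, P.degreeOf i ≤ D) → ∀ j,
      MvPolynomial.aeval t P * w j ∈ X := fun P hP j =>
    Submodule.mul_mem_mul (Pool.Agent.HP778.aeval_mem_box t D P hP)
      (Submodule.subset_span (Or.inr ⟨j, rfl⟩))
  refine (values_free X hX T hT f hf h2).subset ?_
  rintro z ⟨hz, hno⟩
  refine ⟨hz, fun hfree => hno ⟨hfree.1, ?_⟩⟩
  intro l hl A₀ Q A hA₀ hQ hA hQ0 hrel j
  have hY : Submodule.span QB {MvPolynomial.aeval t Q} ≤ X := by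
    rw [Submodule.span_singleton_le_iff_mem]
    exact hmem Q hQ
  have h1 := hfree.2 l hl _ hY
    (MvPolynomial.aeval t A₀ + ∑ j, MvPolynomial.aeval t (A j) * w j)
    (X.add_mem (hmem A₀ hA₀) (X.sum_mem fun j _ => hmemw (A j) (hA j) j))
    (fun j => MvPolynomial.aeval t (A j)) (fun j => hmem (A j) (hA j)) (by
      have h3 := Submodule.mul_mem_mul (Submodule.mem_span_singleton_self (R := QB)
        (MvPolynomial.aeval t Q)) hrel
      have h4 : MvPolynomial.aeval t Q * (MvPolynomial.aeval t A₀ / MvPolynomial.aeval t Q +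
          ∑ j, MvPolynomial.aeval t (A j) / MvPolynomial.aeval t Q * (l j + w j)) =
          MvPolynomial.aeval t A₀ + ∑ j, MvPolynomial.aeval t (A j) * w j +
            ∑ j, MvPolynomial.aeval t (A j) * l j := by
        rw [mul_add, mul_div_cancel₀ _ hQ0, Finset.mul_sum, add_assoc, ← Finset.sum_add_distrib]
        congr 1
        refine Finset.sum_congr rfl fun j _ => ?_
        field_simp
        ring
      rw [← h4]
      exact h3) j
  obtain ⟨c, hc⟩ := Submodule.mem_span_singleton.1 h1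
  refine ⟨c, ?_⟩
  rw [div_eq_iff hQ0, ← hc, qsmul]

/-- a logarithm of an algebraic number and an algebraic multiple of it -/
theorem ratio_rat {l c : ℂ} (h0 : l ≠ 0) (hl : IsAlgebraic ℚ (Complex.exp l))
    (hc : IsAlgebraic ℚ c) (h : IsAlgebraic ℚ (Complex.exp (c * l))) : ∃ q : ℚ, c = q := by
  by_contra hq
  push Not at hq
  have hli : LinearIndependent ℚ ![l, c * l] := by
    rw [LinearIndependent.pair_iff]
    intro a b hab
    rw [Rat.smul_def, Rat.smul_def] at hab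
    have h1 : ((a : ℂ) + b * c) * l = 0 := by linear_combination hab
    have h2 : (a : ℂ) + b * c = 0 := (mul_eq_zero.1 h1).resolve_right h0
    have hb : b = 0 := by
      by_contra hb
      have hb' : (b : ℂ) ≠ 0 := Rat.cast_ne_zero.2 hb
      apply hq (-a / b)
      push_cast
      field_simp
      linear_combination h2
    subst hb
    rw [Rat.cast_zero, zero_mul, add_zero] at h2
    exact ⟨Rat.cast_eq_zero.1 h2, rfl⟩
  have h1 := Pool.Agent.HP778.indep_QB (l := ![l, c * l]) (by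
    intro i
    fin_cases i
    · exact hl
    · exact h) hli
  rw [LinearIndependent.pair_iff] at h1
  have h2 := (h1 ⟨c, mem_QB.2 hc⟩ (-1) (by
    rw [qsmul, qsmul]
    push_cast
    ring)).2
  exact absurd h2 (by norm_num)

end Pool.Agent.H594.ML
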